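import Pool.Agent.H86.LP.FB

/-!
# CA: the counting lemma, uniform part

Replace `f` by `g` one pair at a time (induction over subsets `A ⊆ Pr r`: claim that for every `A ⊆ Pr r` the averages with `∏_{a ∈ Pr r} f` and with `∏_{a ∈ A} g ∏_{a ∉ A} f` differ by
at most `|A| κ S`). One step, pair `a = (i, k)`: the difference is the average of `(∏_j b j (Y j)) * Φ(Y) * U (Y k - Y i)`, `U = f i k - g i k`, where `Φ` is a product over the other pairs, a product of a function of
`Y` without `Y k` and a function of `Y` without `Y i` (a pair different from `(i, k)` does not contain both `i` and `k`), all factors in `[0, 1]`. Fix `Y j` for `j ≠ i, k`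
(fubini: `Fin r → ZMod N` sum; e.g. `avr F = avr (fun Y => av (fun x => av (fun y => F (update (update Y i x) k y))))`): the inner double average is
`(∏_{j ≠ i,k} b j (Y j)) * av_x av_y G y H x U (y - x)` with `0 ≤ G ≤ b k`, `0 ≤ H ≤ b i`, so by `bilinear` its absolute value is at most
`(∏_{j ≠ i,k} b j (Y j)) κ √(av (b k)^2) √(av (b i)^2) ≤ (∏_{j ≠ i,k} b j (Y j)) κ S` (`av (b^2) ≤ S av b = S`). The average of `∏_{j ≠ i,k} b j (Y j)` is `1` (`avr_prod`).
-/

set_option autoImplicit false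

open Finset

namespace H86LP

variable {N : ℕ} [NeZero N]

theorem avr_prod {r : ℕ} (s : Finset (Fin r)) (b : Fin r → ZMod N → ℝ) (hb1 : ∀ i, av (b i) = 1) :
    avr (fun Y : Fin r → ZMod N => ∏ i ∈ s, b i (Y i)) = 1 := by
  have hN : (0 : ℝ) < N := Nat.cast_pos.2 (NeZero.pos N)
  unfold avr
  rw [div_eq_one_iff_eq (by positivity)]
  have h1 : ∀ Y : Fin r → ZMod N, ∏ i ∈ s, b i (Y i) = ∏ i, (if i ∈ s then b i (Y i) else 1) := by
    intro Y
    rw [Finset.prod_ite_mem, Finset.univ_inter]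
  simp only [h1]
  have h2 := Finset.prod_univ_sum (fun _ : Fin r => (univ : Finset (ZMod N)))
    (fun i x => if i ∈ s then b i x else (1 : ℝ))
  rw [Fintype.piFinset_univ] at h2
  rw [← h2]
  have h3 : ∀ i : Fin r, ∑ x : ZMod N, (if i ∈ s then b i x else (1 : ℝ)) = N := by
    intro i
    split_ifs
    · have h4 := hb1 i
      unfold av at h4
      rwa [div_eq_one_iff_eq hN.ne'] at h4
    · simp [ZMod.card]
  simp [h3]

private def CA_inv {r : ℕ} (i : Fin r) :
    ((Fin r → ZMod N) × ZMod N) ≃ ((Fin r → ZMod N) × ZMod N) where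
  toFun p := (Function.update p.1 i p.2, p.1 i)
  invFun p := (Function.update p.1 i p.2, p.1 i)
  left_inv p := by simp
  right_inv p := by simp

private theorem CA_fub1 {r : ℕ} (i : Fin r) (F : (Fin r → ZMod N) → ℝ) :
    avr (fun Y => av (fun x => F (Function.update Y i x))) = avr F := by
  have hN : (N : ℝ) ≠ 0 := Nat.cast_ne_zero.2 (NeZero.ne N)
  unfold avr av
  have h : ∑ p : (Fin r → ZMod N) × ZMod N, F (Function.update p.1 i p.2) =
      ∑ p : (Fin r → ZMod N) × ZMod N, F p.1 :=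
    Equiv.sum_comp (CA_inv i) (fun p : (Fin r → ZMod N) × ZMod N => F p.1)
  rw [Fintype.sum_prod_type, Fintype.sum_prod_type] at h
  simp only [sum_const, card_univ, ZMod.card, nsmul_eq_mul] at h
  rw [← Finset.sum_div, h, ← mul_sum, mul_div_cancel_left₀ _ hN]

private theorem CA_fub2 {r : ℕ} (i k : Fin r) (F : (Fin r → ZMod N) → ℝ) :
    avr F = avr (fun Y => av (fun x => av (fun y => F (Function.update (Function.update Y i x) k y)))) := by
  rw [CA_fub1 i (fun Z => av (fun y => F (Function.update Z k y))), CA_fub1 k F]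

private theorem CA_avr_le {r : ℕ} {F G : (Fin r → ZMod N) → ℝ} (h : ∀ Y, |F Y| ≤ G Y) : |avr F| ≤ avr G := by
  have hN : (0 : ℝ) < N := Nat.cast_pos.2 (NeZero.pos N)
  unfold avr
  rw [abs_div, abs_of_pos (by positivity : (0 : ℝ) < (N : ℝ) ^ r)]
  exact div_le_div_of_nonneg_right ((abs_sum_le_sum_abs _ _).trans (sum_le_sum fun Y _ => h Y)) (by positivity)

private theorem CA_av_le {f g : ZMod N → ℝ} (h : ∀ x, f x ≤ g x) : av f ≤ av g := by
  have hN : (0 : ℝ) < N := Nat.cast_pos.2 (NeZero.pos N)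
  unfold av
  exact div_le_div_of_nonneg_right (sum_le_sum fun Y _ => h Y) hN.le

private theorem CA_av_mul (c : ℝ) (f : ZMod N → ℝ) : av (fun x => c * f x) = c * av f := by
  unfold av
  rw [← mul_sum, mul_div_assoc]

private theorem CA_avr_mul {r : ℕ} (c : ℝ) (F : (Fin r → ZMod N) → ℝ) : avr (fun Y => F Y * c) = avr F * c := by
  unfold avr
  rw [← sum_mul]
  ring

private theorem CA_avr_sub {r : ℕ} (F G : (Fin r → ZMod N) → ℝ) : avr F - avr G = avr (fun Y => F Y - G Y) := by
  unfold avr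
  rw [sum_sub_distrib]
  ring

private theorem CA_sq {G b : ZMod N → ℝ} {S : ℝ} (h0 : ∀ x, 0 ≤ G x) (h1 : ∀ x, G x ≤ b x) (h2 : ∀ x, b x ≤ S)
    (hb : av b = 1) : Real.sqrt (av (fun x => G x ^ 2)) ≤ Real.sqrt S := by
  refine Real.sqrt_le_sqrt ?_
  calc av (fun x => G x ^ 2) ≤ av (fun x => S * b x) := CA_av_le fun x => by
        have h3 := h0 x
        have h4 := h1 x
        have h5 := h2 x
        calc G x ^ 2 = G x * G x := by ring
          _ ≤ S * b x := mul_le_mul (h4.trans h5) h4 h3 (h3.trans (h4.trans h5))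
    _ = S := by rw [CA_av_mul, hb, mul_one]

/-- one pair -/
private theorem CA_step {r : ℕ} (b : Fin r → ZMod N → ℝ) (hb0 : ∀ i x, 0 ≤ b i x) (hb1 : ∀ i, av (b i) = 1) (S : ℝ)
    (hbS : ∀ i x, b i x ≤ S) (w : Fin r × Fin r → ZMod N → ℝ) (hw : ∀ a x, 0 ≤ w a x ∧ w a x ≤ 1)
    (U : ZMod N → ℝ) (κ : ℝ) (hκ : 0 ≤ κ) (hU : ∀ n, ‖ft U n‖ ≤ κ) (i k : Fin r) (hik : i < k) :
    |avr (fun Y : Fin r → ZMod N => (∏ j, b j (Y j)) *
      (U (Y k - Y i) * ∏ a ∈ (Pr r).erase (i, k), w a (Y a.2 - Y a.1)))| ≤ κ * S := by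
  classical
  have hne : i ≠ k := hik.ne
  have hS : 0 ≤ S := (hb0 i 0).trans (hbS i 0)
  rw [CA_fub2 i k]
  set s : Finset (Fin r) := (univ.erase k).erase i with hs
  set R := (Pr r).erase (i, k) with hR
  have hRk : ∀ a ∈ R.filter (fun a => a.1 = k ∨ a.2 = k), a.1 ≠ i ∧ a.2 ≠ i := by
    rintro ⟨p, q⟩ ha
    simp only [hR, mem_filter, mem_erase, mem_Pr, ne_eq, Prod.mk.injEq, not_and] at ha
    obtain ⟨⟨h1, h2⟩, h3⟩ := ha
    refine ⟨?_, ?_⟩
    · rintro rfl
      rcases h3 with h3 | h3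
      · exact hne h3
      · exact h1 rfl h3
    · rintro rfl
      rcases h3 with h3 | h3
      · subst h3
        exact absurd h2 (not_lt.2 hik.le)
      · exact hne h3
  have key : ∀ Y : Fin r → ZMod N,
      |av (fun x => av (fun y => (fun Y : Fin r → ZMod N => (∏ j, b j (Y j)) *
      (U (Y k - Y i) * ∏ a ∈ R, w a (Y a.2 - Y a.1))) (Function.update (Function.update Y i x) k y)))| ≤
      (∏ j ∈ s, b j (Y j)) * (κ * S) := by
    intro Y
    set G : ZMod N → ℝ := fun y => b k y *
      ∏ a ∈ R.filter (fun a => a.1 = k ∨ a.2 = k), w a (Function.update Y k y a.2 - Function.update Y k y a.1) with hG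
    set H : ZMod N → ℝ := fun x => b i x *
      ∏ a ∈ R.filter (fun a => ¬ (a.1 = k ∨ a.2 = k)),
        w a (Function.update Y i x a.2 - Function.update Y i x a.1) with hH
    set c := ∏ j ∈ s, b j (Y j) with hc
    have hc0 : 0 ≤ c := prod_nonneg fun j _ => hb0 j _
    have e : ∀ x y : ZMod N, (fun Y : Fin r → ZMod N => (∏ j, b j (Y j)) *
        (U (Y k - Y i) * ∏ a ∈ R, w a (Y a.2 - Y a.1))) (Function.update (Function.update Y i x) k y) =
        c * (G y * H x * U (y - x)) := by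
      intro x y
      set Z := Function.update (Function.update Y i x) k y with hZ
      have hZk : Z k = y := by simp [hZ]
      have hZi : Z i = x := by simp [hZ, Function.update_of_ne hne]
      have hZj : ∀ j, j ≠ i → j ≠ k → Z j = Y j := fun j h1 h2 => by
        simp [hZ, Function.update_of_ne h1, Function.update_of_ne h2]
      have e1 : ∏ j, b j (Z j) = b k y * (b i x * c) := by
        rw [← mul_prod_erase univ (fun j => b j (Z j)) (mem_univ k),
          ← mul_prod_erase (univ.erase k) (fun j => b j (Z j)) (mem_erase.2 ⟨hne, mem_univ i⟩), hZk, hZi]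
        congr 2
        refine prod_congr rfl fun j hj => ?_
        rw [hs, mem_erase, mem_erase] at hj
        rw [hZj j hj.1 hj.2.1]
      have e2 : ∏ a ∈ R, w a (Z a.2 - Z a.1) =
          (∏ a ∈ R.filter (fun a => a.1 = k ∨ a.2 = k), w a (Function.update Y k y a.2 - Function.update Y k y a.1)) *
          ∏ a ∈ R.filter (fun a => ¬ (a.1 = k ∨ a.2 = k)),
            w a (Function.update Y i x a.2 - Function.update Y i x a.1) := by
        rw [← prod_filter_mul_prod_filter_not R (fun a => a.1 = k ∨ a.2 = k)]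
        congr 1
        · refine prod_congr rfl fun a ha => ?_
          obtain ⟨h1, h2⟩ := hRk a ha
          have h3 : ∀ j, j ≠ i → Z j = Function.update Y k y j := by
            intro j hj
            by_cases hjk : j = k
            · subst hjk
              simp [hZ]
            · rw [hZj j hj hjk, Function.update_of_ne hjk]
          rw [h3 _ h1, h3 _ h2]
        · refine prod_congr rfl fun a ha => ?_
          rw [mem_filter, not_or] at ha
          obtain ⟨-, h1, h2⟩ := ha
          rw [hZ, Function.update_of_ne h1, Function.update_of_ne h2]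
      show (∏ j, b j (Z j)) * (U (Z k - Z i) * ∏ a ∈ R, w a (Z a.2 - Z a.1)) = _
      rw [e1, e2, hZk, hZi]
      simp only [hG, hH]
      ring
    simp only [e]
    simp only [CA_av_mul]
    rw [abs_mul, abs_of_nonneg hc0]
    refine mul_le_mul_of_nonneg_left ((bilinear U G H κ hκ hU).trans (mul_le_mul_of_nonneg_left ?_ hκ)) hc0
    have p0 : ∀ (T : Finset (Fin r × Fin r)) (Z : Fin r → ZMod N), 0 ≤ ∏ a ∈ T, w a (Z a.2 - Z a.1) :=
      fun T Z => prod_nonneg fun a _ => (hw a _).1
    have p1 : ∀ (T : Finset (Fin r × Fin r)) (Z : Fin r → ZMod N), ∏ a ∈ T, w a (Z a.2 - Z a.1) ≤ 1 :=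
      fun T Z => prod_le_one (fun a _ => (hw a _).1) fun a _ => (hw a _).2
    have g1 : Real.sqrt (av (fun x => G x ^ 2)) ≤ Real.sqrt S := by
      refine CA_sq (b := b k) (fun x => mul_nonneg (hb0 k x) (p0 _ _)) (fun x => ?_) (hbS k) (hb1 k)
      exact mul_le_of_le_one_right (hb0 k x) (p1 _ _)
    have g2 : Real.sqrt (av (fun x => H x ^ 2)) ≤ Real.sqrt S := by
      refine CA_sq (b := b i) (fun x => mul_nonneg (hb0 i x) (p0 _ _)) (fun x => ?_) (hbS i) (hb1 i)
      exact mul_le_of_le_one_right (hb0 i x) (p1 _ _)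
    calc Real.sqrt (av (fun x => G x ^ 2)) * Real.sqrt (av (fun x => H x ^ 2)) ≤ Real.sqrt S * Real.sqrt S :=
          mul_le_mul g1 g2 (Real.sqrt_nonneg _) (Real.sqrt_nonneg _)
      _ = S := Real.mul_self_sqrt hS
  refine (CA_avr_le key).trans ?_
  rw [CA_avr_mul, avr_prod s b hb1, one_mul]

theorem count_unif (r : ℕ) (b : Fin r → ZMod N → ℝ) (hb0 : ∀ i x, 0 ≤ b i x) (hb1 : ∀ i, av (b i) = 1) (S : ℝ) (hbS : ∀ i x, b i x ≤ S)
    (f g : Fin r → Fin r → ZMod N → ℝ) (hf : ∀ i k x, 0 ≤ f i k x ∧ f i k x ≤ 1) (hg : ∀ i k x, 0 ≤ g i k x ∧ g i k x ≤ 1)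
    (κ : ℝ) (hκ : 0 ≤ κ) (hU : ∀ i k, i < k → ∀ n, ‖ft (fun x => f i k x - g i k x) n‖ ≤ κ) :
    |avr (fun Y : Fin r → ZMod N => (∏ i, b i (Y i)) * ∏ a ∈ Pr r, f a.1 a.2 (Y a.2 - Y a.1)) -
      avr (fun Y : Fin r → ZMod N => (∏ i, b i (Y i)) * ∏ a ∈ Pr r, g a.1 a.2 (Y a.2 - Y a.1))| ≤ (Pr r).card * (κ * S) := by
  classical
  set T : Finset (Fin r × Fin r) → ℝ := fun A => avr (fun Y : Fin r → ZMod N => (∏ i, b i (Y i)) *
    ∏ a ∈ Pr r, (if a ∈ A then g a.1 a.2 (Y a.2 - Y a.1) else f a.1 a.2 (Y a.2 - Y a.1))) with hT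
  have hmain : ∀ A : Finset (Fin r × Fin r), A ⊆ Pr r → |T ∅ - T A| ≤ A.card * (κ * S) := by
    intro A
    induction A using Finset.induction_on with
    | empty => intro _; simp
    | insert a A ha ih =>
      intro hA
      have h1 := ih fun x hx => hA (mem_insert_of_mem hx)
      have haP : a ∈ Pr r := hA (mem_insert_self a A)
      have h2 : |T A - T (insert a A)| ≤ κ * S := by
        have h3 := CA_step b hb0 hb1 S hbS (fun a x => if a ∈ A then g a.1 a.2 x else f a.1 a.2 x)
          (fun a x => by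
            by_cases h : a ∈ A
            · simpa [h] using hg a.1 a.2 x
            · simpa [h] using hf a.1 a.2 x)
          (fun x => f a.1 a.2 x - g a.1 a.2 x) κ hκ (hU a.1 a.2 ((mem_Pr a).1 haP)) a.1 a.2 ((mem_Pr a).1 haP)
        rw [hT]
        simp only
        rw [CA_avr_sub]
        refine le_trans (le_of_eq ?_) h3
        congr 2
        funext Y
        rw [← mul_prod_erase (Pr r) _ haP, ← mul_prod_erase (Pr r) _ haP]
        have e1 : ∏ c ∈ (Pr r).erase a, (if c ∈ insert a A then g c.1 c.2 (Y c.2 - Y c.1) else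
            f c.1 c.2 (Y c.2 - Y c.1)) =
            ∏ c ∈ (Pr r).erase a, (if c ∈ A then g c.1 c.2 (Y c.2 - Y c.1) else f c.1 c.2 (Y c.2 - Y c.1)) := by
          refine prod_congr rfl fun c hc => ?_
          have hca : c ≠ a := (mem_erase.1 hc).1
          simp [mem_insert, hca]
        rw [e1, if_pos (mem_insert_self a A), if_neg ha]
        simp only [Prod.mk.eta]
        ring
      rw [card_insert_of_notMem ha]
      push_cast
      calc |T ∅ - T (insert a A)| = |(T ∅ - T A) + (T A - T (insert a A))| := by ring_nf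
        _ ≤ |T ∅ - T A| + |T A - T (insert a A)| := abs_add_le _ _
        _ ≤ A.card * (κ * S) + κ * S := add_le_add h1 h2
        _ = _ := by ring
  have h := hmain (Pr r) subset_rfl
  have e0 : T ∅ = avr (fun Y : Fin r → ZMod N => (∏ i, b i (Y i)) * ∏ a ∈ Pr r, f a.1 a.2 (Y a.2 - Y a.1)) := by
    simp [hT]
  have e1 : T (Pr r) = avr (fun Y : Fin r → ZMod N => (∏ i, b i (Y i)) * ∏ a ∈ Pr r, g a.1 a.2 (Y a.2 - Y a.1)) := by
    simp only [hT]
    congr 1
    funext Y
    congr 1
    exact prod_congr rfl fun a ha => if_pos ha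
  rwa [e0, e1] at h

end H86LP
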