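import Pool.Agent.H86.LP.KB
import Pool.Agent.H86.LP.CA

/-!
# CB: the counting lemma, main part

`b i y = nu Γ M' (y - X i)`: nonnegative, average 1. `σ = ε/(16 G Lp)`. Exceptional tuples `Y`:
* (E1) for some `i` and `γ ∈ Γ`: `‖ch (γ (Y i - X i)) - 1‖ > σ`. Mass (with weight `∏ b i (Y i)`) at most `∑_{i,γ} av_y nu Γ M' y 1[‖ch (γ y) - 1‖ > σ] ≤ r |Γ| (4/M')/σ^2 ≤ 1/4` (`nu_moment`, `avr_prod`-type fubini).
* (E2) for some pair `a = (i, k)`: `|T i k (Y k - Y i)| > ε/16`. Mass at most `∑_a (16/ε)^2 av_u av_v nu u nu v T i k (X k - X i + u - v)^2 ≤ (256/ε^2) R ε^2/(1024 R) = 1/4`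
  (`Y k = X k + u`, `Y i = X i + v`).
Otherwise for every pair: `P (Y k - Y i) ≥ P (X k - X i) - Lp dG Γ ((Y k - X k) - (Y i - X i)) ≥ ε/4 - Lp |Γ| 2σ ≥ ε/8` (`ch_add_sub_one_le`, `ch_neg_sub_one`), so `P + T ≥ ε/16` and the product over
the pairs is at least `(ε/16)^R`. As all terms are nonnegative and the total mass is 1: `avr ≥ (ε/16)^R (1 - 1/4 - 1/4)`.
-/

set_option autoImplicit false

open Finset

namespace H86LP

variable {N : ℕ} [NeZero N]

private theorem CB_avr_mul {r : ℕ} (c : Fin r → ZMod N → ℝ) :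
    avr (fun Y : Fin r → ZMod N => ∏ i, c i (Y i)) = ∏ i, av (c i) := by
  classical
  unfold avr av
  rw [Finset.prod_div_distrib, Finset.prod_univ_sum, Fintype.piFinset_univ, Finset.prod_const, Finset.card_univ,
    Fintype.card_fin]

private theorem CB_Npos : (0 : ℝ) < N := by
  exact_mod_cast Nat.pos_of_ne_zero (NeZero.ne N)

private theorem CB_mono {r : ℕ} {F G : (Fin r → ZMod N) → ℝ} (h : ∀ Y, F Y ≤ G Y) : avr F ≤ avr G := by
  unfold avr
  have := CB_Npos (N := N)
  exact div_le_div_of_nonneg_right (Finset.sum_le_sum fun Y _ => h Y) (by positivity)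

private theorem CB_sub {r : ℕ} (F G : (Fin r → ZMod N) → ℝ) : avr (fun Y => F Y - G Y) = avr F - avr G := by
  unfold avr
  rw [Finset.sum_sub_distrib, sub_div]

private theorem CB_cmul {r : ℕ} (c : ℝ) (F : (Fin r → ZMod N) → ℝ) : avr (fun Y => c * F Y) = c * avr F := by
  unfold avr
  rw [← Finset.mul_sum, mul_div_assoc]

private theorem CB_sum {r : ℕ} {ι : Type} (s : Finset ι) (F : ι → (Fin r → ZMod N) → ℝ) :
    avr (fun Y => ∑ a ∈ s, F a Y) = ∑ a ∈ s, avr (F a) := by
  unfold avr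
  rw [Finset.sum_comm, Finset.sum_div]

private theorem CB_shift (c : ZMod N) (f : ZMod N → ℝ) : av f = av (fun x => f (c + x)) := by
  unfold av
  congr 1
  exact (Equiv.sum_comp (Equiv.addLeft c) f).symm

private theorem CB_one {r : ℕ} (b : Fin r → ZMod N → ℝ) (hb1 : ∀ i, av (b i) = 1) (i : Fin r) (h : ZMod N → ℝ) :
    avr (fun Y : Fin r → ZMod N => (∏ j, b j (Y j)) * h (Y i)) = av (fun y => b i y * h y) := by
  classical
  have e1 : (fun Y : Fin r → ZMod N => (∏ j, b j (Y j)) * h (Y i)) =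
      fun Y => ∏ j, (fun (j : Fin r) (y : ZMod N) => b j y * (if j = i then h y else 1)) j (Y j) := by
    funext Y
    change _ = ∏ j, (b j (Y j) * (if j = i then h (Y j) else 1))
    rw [Finset.prod_mul_distrib, Finset.prod_ite_eq' Finset.univ i (fun j => h (Y j)), if_pos (Finset.mem_univ i)]
  rw [e1]
  refine (CB_avr_mul (fun (j : Fin r) (y : ZMod N) => b j y * (if j = i then h y else 1))).trans ?_
  rw [Finset.prod_eq_single i]
  · simp only [if_pos]
  · intro j _ hj
    simp only [if_neg hj, mul_one]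
    exact hb1 j
  · intro hi
    exact absurd (Finset.mem_univ i) hi

private theorem CB_two {r : ℕ} (b : Fin r → ZMod N → ℝ) (hb1 : ∀ i, av (b i) = 1) {i k : Fin r} (hik : i ≠ k)
    (h : ZMod N → ZMod N → ℝ) :
    avr (fun Y : Fin r → ZMod N => (∏ j, b j (Y j)) * h (Y i) (Y k)) =
      av (fun u => av (fun v => b i u * b k v * h u v)) := by
  classical
  have hN := CB_Npos (N := N)
  have e1 : (fun Y : Fin r → ZMod N => (∏ j, b j (Y j)) * h (Y i) (Y k)) =
      fun Y => ∑ u : ZMod N, ∏ j, (fun (j : Fin r) (y : ZMod N) => b j y * (if j = i then (if y = u then 1 else 0) else 1) *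
        (if j = k then h u y else 1)) j (Y j) := by
    funext Y
    have e2 : ∀ u : ZMod N, ∏ j, (fun (j : Fin r) (y : ZMod N) => b j y * (if j = i then (if y = u then 1 else 0) else 1) *
        (if j = k then h u y else 1)) j (Y j) = (∏ j, b j (Y j)) * (if Y i = u then h u (Y k) else 0) := by
      intro u
      change ∏ j, (b j (Y j) * (if j = i then (if Y j = u then (1 : ℝ) else 0) else 1) *
        (if j = k then h u (Y j) else 1)) = _
      rw [Finset.prod_mul_distrib, Finset.prod_mul_distrib,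
        Finset.prod_ite_eq' Finset.univ i (fun j => if Y j = u then (1 : ℝ) else 0), if_pos (Finset.mem_univ i),
        Finset.prod_ite_eq' Finset.univ k (fun j => h u (Y j)), if_pos (Finset.mem_univ k)]
      split_ifs <;> ring
    rw [Finset.sum_congr rfl fun u _ => e2 u, ← Finset.mul_sum, Finset.sum_ite_eq, if_pos (Finset.mem_univ _)]
  rw [e1, CB_sum Finset.univ (fun (u : ZMod N) (Y : Fin r → ZMod N) => ∏ j, (fun (j : Fin r) (y : ZMod N) =>
    b j y * (if j = i then (if y = u then 1 else 0) else 1) * (if j = k then h u y else 1)) j (Y j))]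
  have e3 : ∀ u : ZMod N, avr (fun Y : Fin r → ZMod N => ∏ j, (fun (j : Fin r) (y : ZMod N) =>
      b j y * (if j = i then (if y = u then 1 else 0) else 1) * (if j = k then h u y else 1)) j (Y j)) =
      (av (fun v => b i u * b k v * h u v)) / N := by
    intro u
    refine (CB_avr_mul (fun (j : Fin r) (y : ZMod N) =>
      b j y * (if j = i then (if y = u then 1 else 0) else 1) * (if j = k then h u y else 1))).trans ?_
    rw [Finset.prod_eq_mul i k hik]
    · have a1 : av (fun y => b i y * (if i = i then (if y = u then 1 else 0) else 1) * (if i = k then h u y else 1)) =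
          b i u / N := by
        unfold av
        congr 1
        rw [Finset.sum_eq_single u]
        · simp [hik]
        · intro y _ hy
          simp [hy]
        · intro hu
          exact absurd (Finset.mem_univ u) hu
      have a2 : av (fun y => b k y * (if k = i then (if y = u then 1 else 0) else 1) * (if k = k then h u y else 1)) =
          av (fun v => b k v * h u v) := by
        congr 1
        funext y
        rw [if_neg (Ne.symm hik), if_pos rfl, mul_one]
      rw [a1, a2]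
      unfold av
      rw [div_mul_div_comm, Finset.mul_sum, ← div_div]
      congr 2
      refine Finset.sum_congr rfl fun v _ => ?_
      ring
    · intro j _ hj
      simp only [if_neg hj.1, if_neg hj.2, mul_one]
      exact hb1 j
    · intro hi
      exact absurd (Finset.mem_univ i) hi
    · intro hk
      exact absurd (Finset.mem_univ k) hk
  rw [Finset.sum_congr rfl fun u _ => e3 u, ← Finset.sum_div]
  rfl

theorem count_main (r : ℕ) (X : Fin r → ZMod N) (Γ : Finset (ZMod N)) (M' : ℕ) (hM' : 1 ≤ M') (P T : Fin r → Fin r → ZMod N → ℝ)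
    (ε Lp : ℝ) (hε : 0 < ε) (hε1 : ε ≤ 1) (hLp : 0 < Lp) (G : ℕ) (hG : 1 ≤ G) (hΓ : Γ.card ≤ G)
    (hPT : ∀ i k x, 0 ≤ P i k x + T i k x ∧ P i k x + T i k x ≤ 1)
    (hP : ∀ i k, i < k → ε / 4 ≤ P i k (X k - X i))
    (hlip : ∀ i k x t, |P i k (x + t) - P i k x| ≤ Lp * dG Γ t)
    (hT : ∀ i k, i < k → av (fun u => av (fun v => nu Γ M' u * nu Γ M' v * T i k (X k - X i + u - v) ^ 2)) ≤
      ε ^ 2 / (1024 * (Pr r).card))
    (hM'2 : 16 * r * G * (16 * G * Lp / ε) ^ 2 ≤ M') :
    (ε / 16) ^ (Pr r).card / 2 ≤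
      avr (fun Y : Fin r → ZMod N => (∏ i, nu Γ M' (Y i - X i)) * ∏ a ∈ Pr r, (P a.1 a.2 (Y a.2 - Y a.1) + T a.1 a.2 (Y a.2 - Y a.1))) := by
  classical
  have hGr : (1 : ℝ) ≤ G := by exact_mod_cast hG
  have hG0 : (0 : ℝ) < G := by linarith
  have hM0 : (0 : ℝ) < M' := by exact_mod_cast hM'
  set σ : ℝ := ε / (16 * G * Lp) with hσ
  have hσ0 : 0 < σ := by positivity
  set b : Fin r → ZMod N → ℝ := fun i y => nu Γ M' (y - X i) with hb
  have hb0 : ∀ i y, 0 ≤ b i y := fun i y => nu_nonneg Γ M' hM' _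
  have hbs : ∀ i y, b i (X i + y) = nu Γ M' y := by
    intro i y
    simp only [hb]
    congr 1
    ring
  have hb1 : ∀ i, av (b i) = 1 := by
    intro i
    rw [CB_shift (X i) (b i)]
    have : (fun x => b i (X i + x)) = nu Γ M' := funext fun y => hbs i y
    rw [this]
    exact av_nu Γ M' hM'
  set W : (Fin r → ZMod N) → ℝ := fun Y => ∏ j, b j (Y j) with hW
  have hW0 : ∀ Y, 0 ≤ W Y := fun Y => Finset.prod_nonneg fun j _ => hb0 j _
  have hWav : avr W = 1 := by
    rw [hW, CB_avr_mul]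
    exact Finset.prod_eq_one fun i _ => hb1 i
  set m1 : (Fin r → ZMod N) → ℝ := fun Y => ∑ i, ∑ γ ∈ Γ, 1 / σ ^ 2 * ‖ch (γ * (Y i - X i)) - 1‖ ^ 2 with hm1
  set m2 : (Fin r → ZMod N) → ℝ := fun Y => ∑ a ∈ Pr r, (16 / ε) ^ 2 * T a.1 a.2 (Y a.2 - Y a.1) ^ 2 with hm2
  have hm10 : ∀ Y, 0 ≤ m1 Y := fun Y => Finset.sum_nonneg fun i _ => Finset.sum_nonneg fun γ _ => by positivity
  have hm20 : ∀ Y, 0 ≤ m2 Y := fun Y => Finset.sum_nonneg fun a _ => by positivity
  -- the masses of the exceptional sets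
  have hA1 : avr (fun Y => W Y * m1 Y) ≤ 1 / 4 := by
    have e1 : (fun Y => W Y * m1 Y) = fun Y => ∑ i, ∑ γ ∈ Γ, 1 / σ ^ 2 * (W Y * ‖ch (γ * (Y i - X i)) - 1‖ ^ 2) := by
      funext Y
      simp only [hm1]
      rw [Finset.mul_sum]
      refine Finset.sum_congr rfl fun i _ => ?_
      rw [Finset.mul_sum]
      refine Finset.sum_congr rfl fun γ _ => ?_
      ring
    rw [e1, CB_sum Finset.univ (fun (i : Fin r) (Y : Fin r → ZMod N) =>
      ∑ γ ∈ Γ, 1 / σ ^ 2 * (W Y * ‖ch (γ * (Y i - X i)) - 1‖ ^ 2))]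
    have e2 : ∀ i : Fin r, avr (fun Y : Fin r → ZMod N =>
        ∑ γ ∈ Γ, 1 / σ ^ 2 * (W Y * ‖ch (γ * (Y i - X i)) - 1‖ ^ 2)) ≤ G * (1 / σ ^ 2 * (4 / M')) := by
      intro i
      rw [CB_sum Γ (fun (γ : ZMod N) (Y : Fin r → ZMod N) => 1 / σ ^ 2 * (W Y * ‖ch (γ * (Y i - X i)) - 1‖ ^ 2))]
      have e3 : ∀ γ ∈ Γ, avr (fun Y : Fin r → ZMod N => 1 / σ ^ 2 * (W Y * ‖ch (γ * (Y i - X i)) - 1‖ ^ 2)) ≤
          1 / σ ^ 2 * (4 / M') := by
        intro γ hγ
        rw [CB_cmul]
        refine mul_le_mul_of_nonneg_left ?_ (by positivity)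
        have e4 := CB_one b hb1 i (fun y => ‖ch (γ * (y - X i)) - 1‖ ^ 2)
        change avr (fun Y : Fin r → ZMod N => W Y * ‖ch (γ * (Y i - X i)) - 1‖ ^ 2) = _ at e4
        rw [e4, CB_shift (X i)]
        have e5 : (fun x => b i (X i + x) * ‖ch (γ * (X i + x - X i)) - 1‖ ^ 2) =
            fun y => nu Γ M' y * ‖ch (γ * y) - 1‖ ^ 2 := by
          funext y
          rw [hbs, add_sub_cancel_left]
        rw [e5]
        exact nu_moment Γ M' hM' γ hγ
      refine (Finset.sum_le_sum e3).trans ?_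
      rw [Finset.sum_const, nsmul_eq_mul]
      refine mul_le_mul_of_nonneg_right ?_ (by positivity)
      exact_mod_cast hΓ
    refine (Finset.sum_le_sum fun i _ => e2 i).trans ?_
    rw [Finset.sum_const, nsmul_eq_mul, Finset.card_univ, Fintype.card_fin]
    have e6 : 1 / σ ^ 2 = (16 * G * Lp / ε) ^ 2 := by
      rw [hσ]
      field_simp
    rw [e6]
    set q := (16 * G * Lp / ε) ^ 2 with hq
    have e7 : (r : ℝ) * (G * (q * (4 / M'))) = (16 * r * G * q) / M' / 4 := by
      field_simp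
      ring
    rw [e7]
    have e8 : (16 * r * G * q) / M' ≤ 1 := by
      rw [div_le_one hM0]
      exact hM'2
    linarith
  have hA2 : avr (fun Y => W Y * m2 Y) ≤ 1 / 4 := by
    have e1 : (fun Y => W Y * m2 Y) = fun Y => ∑ a ∈ Pr r, (16 / ε) ^ 2 * (W Y * T a.1 a.2 (Y a.2 - Y a.1) ^ 2) := by
      funext Y
      simp only [hm2]
      rw [Finset.mul_sum]
      refine Finset.sum_congr rfl fun a _ => ?_
      ring
    rw [e1, CB_sum (Pr r) (fun (a : Fin r × Fin r) (Y : Fin r → ZMod N) =>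
      (16 / ε) ^ 2 * (W Y * T a.1 a.2 (Y a.2 - Y a.1) ^ 2))]
    have e2 : ∀ a ∈ Pr r, avr (fun Y : Fin r → ZMod N => (16 / ε) ^ 2 * (W Y * T a.1 a.2 (Y a.2 - Y a.1) ^ 2)) ≤
        (16 / ε) ^ 2 * (ε ^ 2 / (1024 * (Pr r).card)) := by
      intro a ha
      have hlt : a.1 < a.2 := (mem_Pr a).1 ha
      rw [CB_cmul]
      refine mul_le_mul_of_nonneg_left ?_ (by positivity)
      have e4 := CB_two b hb1 (i := a.2) (k := a.1) (ne_of_gt hlt) (fun u v => T a.1 a.2 (u - v) ^ 2)
      change avr (fun Y : Fin r → ZMod N => W Y * T a.1 a.2 (Y a.2 - Y a.1) ^ 2) = _ at e4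
      rw [e4, CB_shift (X a.2)]
      have e5 : (fun x => av (fun v => b a.2 (X a.2 + x) * b a.1 v * T a.1 a.2 (X a.2 + x - v) ^ 2)) =
          fun u => av (fun v => nu Γ M' u * nu Γ M' v * T a.1 a.2 (X a.2 - X a.1 + u - v) ^ 2) := by
        funext u
        rw [CB_shift (X a.1)]
        congr 1
        funext v
        rw [hbs, hbs]
        congr 3
        ring
      rw [e5]
      exact hT a.1 a.2 hlt
    refine (Finset.sum_le_sum e2).trans ?_
    rw [Finset.sum_const, nsmul_eq_mul]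
    rcases Nat.eq_zero_or_pos (Pr r).card with h0 | h0
    · rw [h0]
      norm_num
    · have h1 : (0 : ℝ) < (Pr r).card := by exact_mod_cast h0
      have e6 : ((Pr r).card : ℝ) * ((16 / ε) ^ 2 * (ε ^ 2 / (1024 * (Pr r).card))) = 1 / 4 := by
        field_simp
        norm_num
      rw [e6]
  -- the pointwise bound
  have hpt : ∀ Y : Fin r → ZMod N, (ε / 16) ^ (Pr r).card * ((W Y - W Y * m1 Y) - W Y * m2 Y) ≤
      W Y * ∏ a ∈ Pr r, (P a.1 a.2 (Y a.2 - Y a.1) + T a.1 a.2 (Y a.2 - Y a.1)) := by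
    intro Y
    have hprod0 : 0 ≤ ∏ a ∈ Pr r, (P a.1 a.2 (Y a.2 - Y a.1) + T a.1 a.2 (Y a.2 - Y a.1)) :=
      Finset.prod_nonneg fun a _ => (hPT _ _ _).1
    have hpw : 0 < (ε / 16) ^ (Pr r).card := by positivity
    have hre : (ε / 16) ^ (Pr r).card * ((W Y - W Y * m1 Y) - W Y * m2 Y) =
        W Y * ((ε / 16) ^ (Pr r).card * (1 - m1 Y - m2 Y)) := by ring
    rw [hre]
    refine mul_le_mul_of_nonneg_left ?_ (hW0 Y)
    by_cases hE1 : ∃ i, ∃ γ ∈ Γ, σ < ‖ch (γ * (Y i - X i)) - 1‖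
    · obtain ⟨i, γ, hγ, hlt⟩ := hE1
      have h1 : 1 ≤ m1 Y := by
        have h2 : 1 ≤ 1 / σ ^ 2 * ‖ch (γ * (Y i - X i)) - 1‖ ^ 2 := by
          rw [one_div, ← div_eq_inv_mul, one_le_div (by positivity)]
          exact pow_le_pow_left₀ hσ0.le hlt.le 2
        have h3 : 1 / σ ^ 2 * ‖ch (γ * (Y i - X i)) - 1‖ ^ 2 ≤
            ∑ γ ∈ Γ, 1 / σ ^ 2 * ‖ch (γ * (Y i - X i)) - 1‖ ^ 2 :=
          Finset.single_le_sum (f := fun γ => 1 / σ ^ 2 * ‖ch (γ * (Y i - X i)) - 1‖ ^ 2)
            (fun γ _ => by positivity) hγ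
        have h4 : ∑ γ ∈ Γ, 1 / σ ^ 2 * ‖ch (γ * (Y i - X i)) - 1‖ ^ 2 ≤ m1 Y :=
          Finset.single_le_sum (f := fun i => ∑ γ ∈ Γ, 1 / σ ^ 2 * ‖ch (γ * (Y i - X i)) - 1‖ ^ 2)
            (fun i _ => Finset.sum_nonneg fun γ _ => by positivity) (Finset.mem_univ i)
        linarith
      refine le_trans ?_ hprod0
      have := hm20 Y
      exact mul_nonpos_of_nonneg_of_nonpos hpw.le (by linarith)
    · by_cases hE2 : ∃ a ∈ Pr r, ε / 16 < |T a.1 a.2 (Y a.2 - Y a.1)|
      · obtain ⟨a, ha, hlt⟩ := hE2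
        have h1 : 1 ≤ m2 Y := by
          have h2 : 1 ≤ (16 / ε) ^ 2 * T a.1 a.2 (Y a.2 - Y a.1) ^ 2 := by
            have h5 : (ε / 16) ^ 2 ≤ T a.1 a.2 (Y a.2 - Y a.1) ^ 2 := by
              rw [← sq_abs (T a.1 a.2 (Y a.2 - Y a.1))]
              exact pow_le_pow_left₀ (by positivity) hlt.le 2
            calc (1 : ℝ) = (16 / ε) ^ 2 * (ε / 16) ^ 2 := by field_simp
              _ ≤ _ := mul_le_mul_of_nonneg_left h5 (by positivity)
          have h3 : (16 / ε) ^ 2 * T a.1 a.2 (Y a.2 - Y a.1) ^ 2 ≤ m2 Y :=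
            Finset.single_le_sum (f := fun a : Fin r × Fin r => (16 / ε) ^ 2 * T a.1 a.2 (Y a.2 - Y a.1) ^ 2)
              (fun a _ => by positivity) ha
          linarith
        refine le_trans ?_ hprod0
        have := hm10 Y
        exact mul_nonpos_of_nonneg_of_nonpos hpw.le (by linarith)
      · push Not at hE1 hE2
        have h1 : (ε / 16) ^ (Pr r).card ≤ ∏ a ∈ Pr r, (P a.1 a.2 (Y a.2 - Y a.1) + T a.1 a.2 (Y a.2 - Y a.1)) := by
          rw [← Finset.prod_const]
          refine Finset.prod_le_prod (fun a _ => by positivity) fun a ha => ?_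
          have hlt : a.1 < a.2 := (mem_Pr a).1 ha
          have h2 := hP a.1 a.2 hlt
          set t := (Y a.2 - X a.2) - (Y a.1 - X a.1) with ht
          have h3 : Y a.2 - Y a.1 = X a.2 - X a.1 + t := by
            rw [ht]
            ring
          have h4 : dG Γ t ≤ G * (2 * σ) := by
            unfold dG
            have h5 : ∀ γ ∈ Γ, ‖ch (γ * t) - 1‖ ≤ 2 * σ := by
              intro γ hγ
              have h6 : γ * t = γ * (Y a.2 - X a.2) + -(γ * (Y a.1 - X a.1)) := by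
                rw [ht]
                ring
              rw [h6]
              refine (ch_add_sub_one_le _ _).trans ?_
              rw [ch_neg_sub_one]
              have := hE1 a.2 γ hγ
              have := hE1 a.1 γ hγ
              linarith
            refine (Finset.sum_le_sum h5).trans ?_
            rw [Finset.sum_const, nsmul_eq_mul]
            refine mul_le_mul_of_nonneg_right ?_ (by positivity)
            exact_mod_cast hΓ
          have h7 := hlip a.1 a.2 (X a.2 - X a.1) t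
          have h8 : Lp * dG Γ t ≤ ε / 8 := by
            calc Lp * dG Γ t ≤ Lp * (G * (2 * σ)) := mul_le_mul_of_nonneg_left h4 hLp.le
              _ = ε / 8 := by
                rw [hσ]
                field_simp
                norm_num
          have h9 := hE2 a ha
          have h10 := abs_le.1 (h7.trans h8)
          have h11 := abs_le.1 h9
          rw [← h3] at h10
          linarith [h10.1, h11.1]
        refine le_trans ?_ h1
        have := hm10 Y
        have := hm20 Y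
        nlinarith
  have key := CB_mono hpt
  have e1 : avr (fun Y => (ε / 16) ^ (Pr r).card * ((W Y - W Y * m1 Y) - W Y * m2 Y)) =
      (ε / 16) ^ (Pr r).card * ((avr W - avr (fun Y => W Y * m1 Y)) - avr (fun Y => W Y * m2 Y)) := by
    rw [CB_cmul, CB_sub (fun Y => W Y - W Y * m1 Y) (fun Y => W Y * m2 Y), CB_sub W (fun Y => W Y * m1 Y)]
  rw [e1, hWav] at key
  refine le_trans ?_ key
  have hpw : 0 < (ε / 16) ^ (Pr r).card := by positivity
  have h2 : (1 : ℝ) / 2 ≤ (1 - avr (fun Y => W Y * m1 Y)) - avr (fun Y => W Y * m2 Y) := by linarith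
  calc (ε / 16) ^ (Pr r).card / 2 = (ε / 16) ^ (Pr r).card * (1 / 2) := by ring
    _ ≤ _ := mul_le_mul_of_nonneg_left h2 hpw.le

end H86LP
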