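import Pool.Agent.H86.LP.FA

/-!
# DA: common almost periods (Dirichlet)

For `j = 0, .., K^G` consider the point `(angle of ch (γ * (j * m0)))_{γ ∈ Γ}` and the cell `γ ↦ ⌊K * angle⌋ ∈ {0, .., K-1}` (`angle = x/N ∈ [0,1)`, `x = (γ * (j * m0)).val`, cell `= K * x / N`, natural division).
There are at most `K^|Γ| ≤ K^G` cells and `K^G + 1` values of `j`: two values `j < j'` have the same cell; `m = j' - j`. The two numbers `x, x'` satisfy `|x - x'| < N/K`, and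
`γ * (m * m0) = x' - x` in `ZMod N`, so `‖ch (γ * (m * m0)) - 1‖ ≤ 2π |x' - x|/N ≤ 2π/K` (`ch_upper`).
-/

set_option autoImplicit false

open Finset

namespace H86LP

theorem DA_key (K : ℕ) (hK : 1 ≤ K) (N : ℕ) [NeZero N] (x y : ZMod N)
    (h : K * x.val / N = K * y.val / N) : ‖ch (y - x) - 1‖ ≤ 2 * Real.pi / K := by
  have hN : 0 < N := NeZero.pos N
  have hNr : (0 : ℝ) < N := by exact_mod_cast hN
  have hKr : (0 : ℝ) < K := by exact_mod_cast hK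
  obtain ⟨c, hc⟩ : ∃ c, c = K * x.val / N := ⟨_, rfl⟩
  have hx1 : c * N ≤ K * x.val := by
    rw [hc]
    exact Nat.div_mul_le_self _ _
  have hx2 : K * x.val < (c + 1) * N := by
    rw [hc]
    exact Nat.lt_mul_of_div_lt (Nat.lt_succ_self _) hN
  have hy1 : c * N ≤ K * y.val := by
    rw [hc, h]
    exact Nat.div_mul_le_self _ _
  have hy2 : K * y.val < (c + 1) * N := by
    rw [hc, h]
    exact Nat.lt_mul_of_div_lt (Nat.lt_succ_self _) hN
  have hj : (((y.val : ℤ) - (x.val : ℤ) : ℤ) : ZMod N) = y - x := by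
    push_cast
    rw [ZMod.natCast_zmod_val, ZMod.natCast_zmod_val]
  have h1 := ch_upper (y - x) ((y.val : ℤ) - (x.val : ℤ)) hj
  refine h1.trans ?_
  have e1 : ((c : ℝ)) * N ≤ K * (x.val : ℝ) := by exact_mod_cast hx1
  have e2 : (K : ℝ) * (x.val : ℝ) < (c + 1) * N := by exact_mod_cast hx2
  have e3 : ((c : ℝ)) * N ≤ K * (y.val : ℝ) := by exact_mod_cast hy1
  have e4 : (K : ℝ) * (y.val : ℝ) < (c + 1) * N := by exact_mod_cast hy2
  have h2 : (K : ℝ) * |((((y.val : ℤ) - (x.val : ℤ) : ℤ)) : ℝ)| ≤ N := by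
    have h3 : (K : ℝ) * |((((y.val : ℤ) - (x.val : ℤ) : ℤ)) : ℝ)| =
        |(K : ℝ) * ((((y.val : ℤ) - (x.val : ℤ) : ℤ)) : ℝ)| := by
      rw [abs_mul, abs_of_pos hKr]
    rw [h3, abs_le]
    push_cast
    constructor <;> nlinarith
  rw [div_le_div_iff₀ hNr hKr]
  have hpi := Real.pi_pos
  nlinarith

theorem almost_period (G K : ℕ) (hK : 1 ≤ K) (N : ℕ) [NeZero N] (Γ : Finset (ZMod N)) (hΓ : Γ.card ≤ G) (m0 : ℕ) :
    ∃ m : ℕ, 1 ≤ m ∧ m ≤ K ^ G ∧ ∀ γ ∈ Γ, ‖ch (γ * ((m * m0 : ℕ) : ZMod N)) - 1‖ ≤ 2 * Real.pi / K := by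
  classical
  have hN : 0 < N := NeZero.pos N
  have hlt : ∀ x : ZMod N, K * x.val / N < K := by
    intro x
    rw [Nat.div_lt_iff_lt_mul hN]
    exact mul_lt_mul_of_pos_left (ZMod.val_lt x) hK
  obtain ⟨F, hF⟩ : ∃ F : Fin (K ^ G + 1) → (Γ → Fin K), F = fun j γ =>
      ⟨K * ((γ : ZMod N) * (((j : ℕ) * m0 : ℕ) : ZMod N)).val / N, hlt _⟩ := ⟨_, rfl⟩
  have hcard : Fintype.card (Γ → Fin K) < Fintype.card (Fin (K ^ G + 1)) := by
    rw [Fintype.card_fun, Fintype.card_fin, Fintype.card_fin, Fintype.card_coe]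
    exact Nat.lt_succ_of_le (Nat.pow_le_pow_right hK hΓ)
  obtain ⟨j, j', hne, hjj⟩ := Fintype.exists_ne_map_eq_of_card_lt F hcard
  have key : ∀ a b : Fin (K ^ G + 1), (a : ℕ) < b → F a = F b →
      ∃ m : ℕ, 1 ≤ m ∧ m ≤ K ^ G ∧
        ∀ γ ∈ Γ, ‖ch (γ * ((m * m0 : ℕ) : ZMod N)) - 1‖ ≤ 2 * Real.pi / K := by
    intro a b hab hFab
    refine ⟨b - a, by omega, by have := b.isLt; omega, ?_⟩
    intro γ hγ
    have h1 := congrFun hFab ⟨γ, hγ⟩
    rw [hF] at h1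
    have h2 := congrArg Fin.val h1
    have h3 := DA_key K hK N (γ * (((a : ℕ) * m0 : ℕ) : ZMod N)) (γ * (((b : ℕ) * m0 : ℕ) : ZMod N)) h2
    have h4 : γ * ((((b : ℕ) - (a : ℕ)) * m0 : ℕ) : ZMod N) =
        γ * (((b : ℕ) * m0 : ℕ) : ZMod N) - γ * (((a : ℕ) * m0 : ℕ) : ZMod N) := by
      rw [Nat.cast_mul, Nat.cast_sub hab.le]
      push_cast
      ring
    rw [h4]
    exact h3
  rcases lt_or_gt_of_ne (fun h => hne (Fin.ext h)) with h | h
  · exact key j j' h hjj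
  · exact key j' j h hjj.symm

end H86LP
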