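import Mathlib

/-!
# Limit points of normalised prime gaps: definitions for the combinatorial part

Overview: /team-store/H86_LP.md
-/

set_option autoImplicit false

open Finset

namespace H86LP

section
variable {N : ℕ} [NeZero N]

/-- average over `ZMod N` -/
noncomputable def av (f : ZMod N → ℝ) : ℝ := (∑ x, f x) / N

/-- the character `x ↦ exp(2πi x/N)` -/
noncomputable def ch (x : ZMod N) : ℂ := ZMod.stdAddChar x

/-- Fourier transform -/
noncomputable def ft (f : ZMod N → ℝ) (n : ZMod N) : ℂ := (∑ x, (f x : ℂ) * ch (-(n * x))) / N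

/-- convolution -/
noncomputable def cv (f g : ZMod N → ℝ) (x : ZMod N) : ℝ := av (fun y => f (x - y) * g y)

/-- Fejer kernel -/
noncomputable def fj (M : ℕ) (y : ZMod N) : ℝ := ‖∑ k ∈ range M, ch ((k : ZMod N) * y)‖ ^ 2 / M

/-- product of Fejer kernels -/
noncomputable def ker (Γ : Finset (ZMod N)) (M : ℕ) (y : ZMod N) : ℝ := ∏ γ ∈ Γ, fj M (γ * y)

/-- the normalised kernel (a probability density with respect to `av`) -/
noncomputable def nu (Γ : Finset (ZMod N)) (M : ℕ) (y : ZMod N) : ℝ := ker Γ M y / av (ker Γ M)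

/-- the Fourier transform of `nu` (it is real) -/
noncomputable def nh (Γ : Finset (ZMod N)) (M : ℕ) (n : ZMod N) : ℝ := (ft (nu Γ M) n).re

/-- distance of the characters in `Γ` from `1` at `t` -/
noncomputable def dG (Γ : Finset (ZMod N)) (t : ZMod N) : ℝ := ∑ γ ∈ Γ, ‖ch (γ * t) - 1‖

/-- local density at scale `Q` -/
noncomputable def dn (Q : ℕ) (f : ZMod N → ℝ) (x : ZMod N) : ℝ := (∑ g ∈ range Q, f (x + (g : ZMod N))) / Q

/-- average over tuples -/
noncomputable def avr {r : ℕ} (F : (Fin r → ZMod N) → ℝ) : ℝ := (∑ Y : Fin r → ZMod N, F Y) / (N : ℝ) ^ r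

end

/-- the pairs `i < k` -/
def Pr (r : ℕ) : Finset (Fin r × Fin r) := univ.filter (fun a => a.1 < a.2)

theorem mem_Pr {r : ℕ} (a : Fin r × Fin r) : a ∈ Pr r ↔ a.1 < a.2 := by simp [Pr]

end H86LP
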