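import Pool.Agent.H86.LP.KC

/-!
# EB: the decomposition

`K G M > 0` is an arbitrary (given) function. For a pair `(Γ, M)` put `G = |Γ|`, `κ = min (K G M) (min 1 (β/(16 R' M^G)))`, `R' = max R 1`, `Γ' = Γ ∪ {n : ∃ a, κ < ‖ft (f a) n‖}`,
`M' = ⌈max M (max (2/κ) (16 R'/β))⌉` (a function `step (G, M)` of `G` and `M` only; `|Γ'| ≤ G + R/κ^2` by `card_spec`; `2/M' ≤ κ`). Then `unif`: `‖ft (f a - cv (f a) (nu Γ' M')) n‖ ≤ max κ (2/M') ≤ κ ≤ K G M`.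
`energy_step`, summed over `a`: `∑_a av ((P'_a - P_a)^2) ≤ E' - E + 2 R (2/M' + κ^2 M^G) ≤ E' - E + β/2` (`E = ∑_a av (P_a^2)`; `2 R * 2/M' ≤ β/4`, `2 R κ^2 M^G ≤ 2 R κ M^G ≤ β/8`).
So either the pair is good or `E' > E + β/2`; as `0 ≤ E ≤ R` there are at most `2R/β + 1` steps.
Formal proof: induction on `J`: for all `J` and all bounds `B1` there is `B` such that for all `N, f, Γ, M` with `Γ0 ⊆ Γ`, `|Γ| ≤ B1`, `M0 ≤ M ≤ B1`, `(∀ n ∈ Γ, n ∉ Γ0 → ∃ a, 1/B1 < ‖ft (f a) n‖)`,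
`R - J β/2 ≤ E(Γ, M)` the conclusion holds. `J = 0`: `E' - E ≤ 0`, the pair itself is good. Step: if not good, apply the induction hypothesis to `(Γ', M')`; new bound
`B1' = ` a number `≥ B1 + R/κ^2`, `≥ M'`, `≥ 1/κ` for all `G, M ≤ B1` (finitely many values, `Finset.sup`/`Finset.exists_le`). Start: `Γ = Γ0`, `M = M0`, `J ≥ 2R/β`.
(`av (P_a^2) ≤ 1` from `cv_bounds`-type bound `|cv f nu| ≤ 1`.)
-/

set_option autoImplicit false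

open Finset

namespace H86LP

section
variable {R N : ℕ} [NeZero N]

theorem EB_av_mono {f g : ZMod N → ℝ} (h : ∀ x, f x ≤ g x) : av f ≤ av g := by
  unfold av
  exact div_le_div_of_nonneg_right (Finset.sum_le_sum fun x _ => h x) (Nat.cast_nonneg N)

theorem EB_av_one : av (fun _ : ZMod N => (1 : ℝ)) = 1 := by
  have hN : (N : ℝ) ≠ 0 := Nat.cast_ne_zero.2 (NeZero.ne N)
  unfold av
  rw [Finset.sum_const, Finset.card_univ, ZMod.card, nsmul_eq_mul, mul_one, div_self hN]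

theorem EB_av_nonneg {f : ZMod N → ℝ} (h : ∀ x, 0 ≤ f x) : 0 ≤ av f := by
  unfold av
  exact div_nonneg (Finset.sum_nonneg fun x _ => h x) (Nat.cast_nonneg N)

theorem EB_cv_abs (f : ZMod N → ℝ) (hf : ∀ x, |f x| ≤ 1) (Γ : Finset (ZMod N)) (M : ℕ) (hM : 1 ≤ M) (x : ZMod N) :
    |cv f (nu Γ M) x| ≤ 1 := by
  have h : |cv f (nu Γ M) x| ≤ av (nu Γ M) := by
    unfold cv av
    rw [abs_div, Nat.abs_cast]
    refine div_le_div_of_nonneg_right ?_ (Nat.cast_nonneg N)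
    refine (Finset.abs_sum_le_sum_abs _ _).trans (Finset.sum_le_sum fun y _ => ?_)
    rw [abs_mul, abs_of_nonneg (nu_nonneg Γ M hM y)]
    exact mul_le_of_le_one_left (nu_nonneg Γ M hM y) (hf _)
  rwa [av_nu Γ M hM] at h

/-- the energy -/
noncomputable def EB_E (f : Fin R → ZMod N → ℝ) (Γ : Finset (ZMod N)) (M : ℕ) : ℝ :=
  ∑ a, av (fun x => cv (f a) (nu Γ M) x ^ 2)

theorem EB_E_nonneg (f : Fin R → ZMod N → ℝ) (Γ : Finset (ZMod N)) (M : ℕ) : 0 ≤ EB_E f Γ M :=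
  Finset.sum_nonneg fun _ _ => EB_av_nonneg fun _ => sq_nonneg _

theorem EB_E_le (f : Fin R → ZMod N → ℝ) (hf : ∀ a x, |f a x| ≤ 1) (Γ : Finset (ZMod N)) (M : ℕ) (hM : 1 ≤ M) :
    EB_E f Γ M ≤ R := by
  have h : ∀ a ∈ (univ : Finset (Fin R)), av (fun x => cv (f a) (nu Γ M) x ^ 2) ≤ 1 := by
    intro a _
    rw [← EB_av_one (N := N)]
    refine EB_av_mono fun x => ?_
    have h1 := EB_cv_abs (f a) (hf a) Γ M hM x
    rw [← sq_abs]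
    exact pow_le_one₀ (abs_nonneg _) h1
  refine (Finset.sum_le_sum h).trans (le_of_eq ?_)
  simp

/-- the enlarged set of frequencies -/
noncomputable def EB_new (f : Fin R → ZMod N → ℝ) (κ : ℝ) (Γ : Finset (ZMod N)) : Finset (ZMod N) :=
  Γ ∪ univ.biUnion (fun a => univ.filter (fun n => κ < ‖ft (f a) n‖))

theorem EB_new_mem (f : Fin R → ZMod N → ℝ) (κ : ℝ) (Γ : Finset (ZMod N)) (n : ZMod N) :
    n ∈ EB_new f κ Γ ↔ n ∈ Γ ∨ ∃ a, κ < ‖ft (f a) n‖ := by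
  simp [EB_new]

theorem EB_new_card (f : Fin R → ZMod N → ℝ) (hf : ∀ a x, |f a x| ≤ 1) {κ : ℝ} (hκ : 0 < κ) (Γ : Finset (ZMod N)) :
    ((EB_new f κ Γ).card : ℝ) ≤ Γ.card + R / κ ^ 2 := by
  have h1 : ((EB_new f κ Γ).card : ℝ) ≤ Γ.card +
      (univ.biUnion (fun a => univ.filter (fun n => κ < ‖ft (f a) n‖))).card := by
    exact_mod_cast Finset.card_union_le _ _
  have h2 : ((univ.biUnion (fun a => univ.filter (fun n => κ < ‖ft (f a) n‖))).card : ℝ) ≤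
      ∑ a, ((univ.filter (fun n => κ < ‖ft (f a) n‖)).card : ℝ) := by
    exact_mod_cast Finset.card_biUnion_le
  have h3 : ∑ a : Fin R, ((univ.filter (fun n => κ < ‖ft (f a) n‖)).card : ℝ) ≤ ∑ a : Fin R, 1 / κ ^ 2 :=
    Finset.sum_le_sum fun a _ => card_spec (f a) (hf a) κ hκ
  have h4 : ∑ a : Fin R, 1 / κ ^ 2 = R / κ ^ 2 := by
    rw [Finset.sum_const, Finset.card_univ, Fintype.card_fin, nsmul_eq_mul]
    ring
  linarith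

theorem EB_step (f : Fin R → ZMod N → ℝ) (hf : ∀ a x, |f a x| ≤ 1) (Γ : Finset (ZMod N)) {M M' : ℕ} (hM : 1 ≤ M)
    (hM' : 1 ≤ M') {β κ : ℝ} (hβ : 0 < β) (hκ : 0 < κ) (h1 : κ ≤ 1)
    (h2 : κ * (M : ℝ) ^ Γ.card ≤ β / (16 * (R + 1))) (h3 : 2 / (M' : ℝ) ≤ β / (8 * (R + 1))) :
    ∑ a, av (fun x => (cv (f a) (nu (EB_new f κ Γ) M') x - cv (f a) (nu Γ M) x) ^ 2) ≤
      EB_E f (EB_new f κ Γ) M' - EB_E f Γ M + β / 2 := by
  have hs : ∀ a, ∀ n, n ∉ EB_new f κ Γ → ‖ft (f a) n‖ ≤ κ := by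
    intro a n hn
    by_contra h
    exact hn ((EB_new_mem f κ Γ n).2 (Or.inr ⟨a, not_le.1 h⟩))
  have h4 : ∀ a ∈ (univ : Finset (Fin R)),
      av (fun x => (cv (f a) (nu (EB_new f κ Γ) M') x - cv (f a) (nu Γ M) x) ^ 2) ≤
      (av (fun x => cv (f a) (nu (EB_new f κ Γ) M') x ^ 2) - av (fun x => cv (f a) (nu Γ M) x ^ 2)) +
        2 * (2 / M' + κ ^ 2 * (M : ℝ) ^ Γ.card) :=
    fun a _ => energy_step (f a) (hf a) Γ (EB_new f κ Γ) M M' hM hM' κ hκ.le (hs a)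
  have h5 := Finset.sum_le_sum h4
  rw [Finset.sum_add_distrib, Finset.sum_sub_distrib, Finset.sum_const, Finset.card_univ, Fintype.card_fin,
    nsmul_eq_mul] at h5
  have hR : (0 : ℝ) ≤ R := Nat.cast_nonneg R
  have hMp : (0 : ℝ) ≤ (M : ℝ) ^ Γ.card := by positivity
  have h6 : κ ^ 2 * (M : ℝ) ^ Γ.card ≤ β / (16 * (R + 1)) := by
    refine le_trans ?_ h2
    refine mul_le_mul_of_nonneg_right ?_ hMp
    nlinarith
  have h7 : (R : ℝ) * (2 * (2 / M' + κ ^ 2 * (M : ℝ) ^ Γ.card)) ≤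
      (R + 1) * (2 * (β / (8 * (R + 1)) + β / (16 * (R + 1)))) := by
    refine mul_le_mul (by linarith) (by linarith) (by positivity) (by positivity)
  have h8 : ((R : ℝ) + 1) * (2 * (β / (8 * (R + 1)) + β / (16 * (R + 1)))) = 3 * β / 8 := by
    have : (R : ℝ) + 1 ≠ 0 := by positivity
    field_simp
    norm_num
  unfold EB_E
  linarith

/-- the conclusion -/
def EB_C (β : ℝ) (K : ℕ → ℕ → ℝ) (M0 B : ℕ) (f : Fin R → ZMod N → ℝ) (Γ0 : Finset (ZMod N)) : Prop :=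
  ∃ (Γ Γ' : Finset (ZMod N)) (M M' : ℕ), Γ0 ⊆ Γ ∧ Γ.card ≤ B ∧ M0 ≤ M ∧ M ≤ B ∧ 1 ≤ M' ∧
    (∀ n ∈ Γ, n ∉ Γ0 → ∃ a, 1 / (B : ℝ) < ‖ft (f a) n‖) ∧
    (∀ a n, ‖ft (fun x => f a x - cv (f a) (nu Γ' M') x) n‖ ≤ K Γ.card M) ∧
    ∑ a, av (fun x => (cv (f a) (nu Γ' M') x - cv (f a) (nu Γ M) x) ^ 2) ≤ β

theorem EB_C_mono {β : ℝ} {K : ℕ → ℕ → ℝ} {M0 B B' : ℕ} {f : Fin R → ZMod N → ℝ} {Γ0 : Finset (ZMod N)}
    (hB : 1 ≤ B) (h : B ≤ B') (hC : EB_C β K M0 B f Γ0) : EB_C β K M0 B' f Γ0 := by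
  obtain ⟨Γ, Γ', M, M', h1, h2, h3, h4, h5, h6, h7, h8⟩ := hC
  refine ⟨Γ, Γ', M, M', h1, h2.trans h, h3, h4.trans h, h5, ?_, h7, h8⟩
  intro n hn hn0
  obtain ⟨a, ha⟩ := h6 n hn hn0
  refine ⟨a, lt_of_le_of_lt ?_ ha⟩
  have hB0 : (0 : ℝ) < B := by exact_mod_cast hB
  exact one_div_le_one_div_of_le hB0 (by exact_mod_cast h)

end

/-- the threshold -/
noncomputable def EB_kap (R : ℕ) (β : ℝ) (K : ℕ → ℕ → ℝ) (G M : ℕ) : ℝ :=
  min (K G M) (min 1 (β / (16 * (R + 1)) / (M : ℝ) ^ G))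

/-- the new order -/
noncomputable def EB_ord (R : ℕ) (β : ℝ) (K : ℕ → ℕ → ℝ) (G M : ℕ) : ℕ :=
  max M ⌈max (2 / EB_kap R β K G M) (16 * (R + 1) / β)⌉₊

theorem EB_kap_pos {R : ℕ} {β : ℝ} (hβ : 0 < β) {K : ℕ → ℕ → ℝ} (hK : ∀ G M, 0 < K G M) {M : ℕ} (hM : 1 ≤ M) (G : ℕ) :
    0 < EB_kap R β K G M := by
  have hM0 : (0 : ℝ) < M := by exact_mod_cast hM
  unfold EB_kap
  exact lt_min (hK G M) (lt_min one_pos (by positivity))

theorem EB_kap_mul {R : ℕ} {β : ℝ} {K : ℕ → ℕ → ℝ} {M : ℕ} (hM : 1 ≤ M) (G : ℕ) :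
    EB_kap R β K G M * (M : ℝ) ^ G ≤ β / (16 * (R + 1)) := by
  have hM0 : (0 : ℝ) < M := by exact_mod_cast hM
  have h1 : EB_kap R β K G M ≤ β / (16 * (R + 1)) / (M : ℝ) ^ G := (min_le_right _ _).trans (min_le_right _ _)
  have h2 : (0 : ℝ) < (M : ℝ) ^ G := by positivity
  exact (le_div_iff₀ h2).1 h1

theorem EB_ord_le {R : ℕ} {β : ℝ} {K : ℕ → ℕ → ℝ} (M : ℕ) (G : ℕ) :
    M ≤ EB_ord R β K G M ∧ 2 / EB_kap R β K G M ≤ EB_ord R β K G M ∧ 16 * (R + 1) / β ≤ EB_ord R β K G M := by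
  have h0 : ⌈max (2 / EB_kap R β K G M) (16 * (R + 1) / β)⌉₊ ≤ EB_ord R β K G M := le_max_right _ _
  have h1 : max (2 / EB_kap R β K G M) (16 * (R + 1) / β) ≤ (EB_ord R β K G M : ℝ) :=
    (Nat.le_ceil _).trans (Nat.cast_le.2 h0)
  exact ⟨le_max_left _ _, (le_max_left _ _).trans h1, (le_max_right _ _).trans h1⟩

theorem EB_main (R : ℕ) (β : ℝ) (hβ : 0 < β) (K : ℕ → ℕ → ℝ) (hK : ∀ G M, 0 < K G M) (M0 : ℕ) (hM0 : 1 ≤ M0)
    {N : ℕ} [NeZero N] (f : Fin R → ZMod N → ℝ) (hf : ∀ a x, |f a x| ≤ 1) (Γ0 Γ : Finset (ZMod N)) (M B1 : ℕ)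
    (h1 : Γ0 ⊆ Γ) (h2 : Γ.card ≤ B1) (h3 : M0 ≤ M) (h4 : M ≤ B1)
    (h5 : ∀ n ∈ Γ, n ∉ Γ0 → ∃ a, 1 / (B1 : ℝ) < ‖ft (f a) n‖)
    (h6 : EB_E f (EB_new f (EB_kap R β K Γ.card M) Γ) (EB_ord R β K Γ.card M) ≤ EB_E f Γ M + β / 2) :
    EB_C β K M0 B1 f Γ0 := by
  have hM : 1 ≤ M := hM0.trans h3
  have hκ := EB_kap_pos (R := R) hβ hK hM Γ.card
  obtain ⟨ho1, ho2, ho3⟩ := EB_ord_le (R := R) (β := β) (K := K) M Γ.card
  have hM' : 1 ≤ EB_ord R β K Γ.card M := hM.trans ho1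
  have hM'0 : (0 : ℝ) < EB_ord R β K Γ.card M := by exact_mod_cast hM'
  have hκ2 : 2 / (EB_ord R β K Γ.card M : ℝ) ≤ EB_kap R β K Γ.card M := by
    rw [div_le_iff₀ hM'0]
    rw [div_le_iff₀ hκ] at ho2
    linarith
  have hβ2 : 2 / (EB_ord R β K Γ.card M : ℝ) ≤ β / (8 * (R + 1)) := by
    rw [div_le_div_iff₀ hM'0 (by positivity)]
    rw [div_le_iff₀ hβ] at ho3
    linarith
  have hs := EB_step f hf Γ hM hM' hβ hκ ((min_le_right _ _).trans (min_le_left _ _)) (EB_kap_mul hM Γ.card) hβ2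
  refine ⟨Γ, EB_new f (EB_kap R β K Γ.card M) Γ, M, EB_ord R β K Γ.card M, h1, h2, h3, h4, hM', h5, ?_, ?_⟩
  · intro a n
    refine (unif (f a) (hf a) _ _ hM' (EB_kap R β K Γ.card M) hκ.le ?_ n).trans ?_
    · intro n hn
      by_contra h
      exact hn ((EB_new_mem _ _ _ n).2 (Or.inr ⟨a, not_le.1 h⟩))
    · exact (max_le le_rfl hκ2).trans (min_le_left _ _)
  · linarith

/-- a bound for the next step -/
noncomputable def EB_T (R : ℕ) (β : ℝ) (K : ℕ → ℕ → ℝ) (G M : ℕ) : ℕ :=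
  ⌈(R : ℝ) / EB_kap R β K G M ^ 2⌉₊ + EB_ord R β K G M + ⌈1 / EB_kap R β K G M⌉₊

theorem EB_sup (T : ℕ → ℕ → ℕ) (B1 : ℕ) : ∃ S : ℕ, ∀ G M : ℕ, G ≤ B1 → M ≤ B1 → T G M ≤ S := by
  refine ⟨(range (B1 + 1)).sup fun G => (range (B1 + 1)).sup fun M => T G M, ?_⟩
  intro G M hG hM
  have h1 : G ∈ range (B1 + 1) := Finset.mem_range.2 (by omega)
  have h2 : M ∈ range (B1 + 1) := Finset.mem_range.2 (by omega)
  have h3 : T G M ≤ (range (B1 + 1)).sup fun M => T G M := Finset.le_sup (f := fun M => T G M) h2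
  have h4 : ((range (B1 + 1)).sup fun M => T G M) ≤
    (range (B1 + 1)).sup fun G => (range (B1 + 1)).sup fun M => T G M :=
    Finset.le_sup (f := fun G => (range (B1 + 1)).sup fun M => T G M) h1
  exact le_trans h3 h4

theorem EB_ind (R : ℕ) (β : ℝ) (hβ : 0 < β) (K : ℕ → ℕ → ℝ) (hK : ∀ G M, 0 < K G M) (M0 : ℕ) (hM0 : 1 ≤ M0) (J : ℕ) :
    ∀ B1 : ℕ, 1 ≤ B1 → ∃ B : ℕ, 1 ≤ B ∧ ∀ (N : ℕ) [NeZero N] (f : Fin R → ZMod N → ℝ), (∀ a x, |f a x| ≤ 1) →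
      ∀ (Γ0 Γ : Finset (ZMod N)) (M : ℕ), Γ0 ⊆ Γ → Γ.card ≤ B1 → M0 ≤ M → M ≤ B1 →
      (∀ n ∈ Γ, n ∉ Γ0 → ∃ a, 1 / (B1 : ℝ) < ‖ft (f a) n‖) → (R : ℝ) - J * (β / 2) ≤ EB_E f Γ M →
      EB_C β K M0 B f Γ0 := by
  induction J with
  | zero =>
    intro B1 hB1
    refine ⟨B1, hB1, ?_⟩
    intro N _ f hf Γ0 Γ M h1 h2 h3 h4 h5 h6
    refine EB_main R β hβ K hK M0 hM0 f hf Γ0 Γ M B1 h1 h2 h3 h4 h5 ?_
    have hM : 1 ≤ M := hM0.trans h3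
    have ho1 := (EB_ord_le (R := R) (β := β) (K := K) M Γ.card).1
    have hM' : 1 ≤ EB_ord R β K Γ.card M := hM.trans ho1
    have h7 := EB_E_le f hf (EB_new f (EB_kap R β K Γ.card M) Γ) _ hM'
    simp only [Nat.cast_zero, zero_mul, sub_zero] at h6
    linarith
  | succ J ih =>
    intro B1 hB1
    obtain ⟨S, hS⟩ : ∃ S : ℕ, ∀ G M : ℕ, G ≤ B1 → M ≤ B1 → EB_T R β K G M ≤ S := by
      exact EB_sup (EB_T R β K) B1
    obtain ⟨B, hB, hB'⟩ := ih (B1 + S) (by omega)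
    refine ⟨max B B1, hB.trans (le_max_left _ _), ?_⟩
    intro N _ f hf Γ0 Γ M h1 h2 h3 h4 h5 h6
    have hM : 1 ≤ M := hM0.trans h3
    by_cases h7 : EB_E f (EB_new f (EB_kap R β K Γ.card M) Γ) (EB_ord R β K Γ.card M) ≤ EB_E f Γ M + β / 2
    · exact EB_C_mono hB1 (le_max_right _ _) (EB_main R β hβ K hK M0 hM0 f hf Γ0 Γ M B1 h1 h2 h3 h4 h5 h7)
    · rw [not_le] at h7
      have hκ := EB_kap_pos (R := R) hβ hK hM Γ.card
      have ho1 := (EB_ord_le (R := R) (β := β) (K := K) M Γ.card).1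
      have hT := hS Γ.card M h2 h4
      have hT1 : ⌈(R : ℝ) / EB_kap R β K Γ.card M ^ 2⌉₊ ≤ S := by
        unfold EB_T at hT
        omega
      have hT2 : EB_ord R β K Γ.card M ≤ S := by
        unfold EB_T at hT
        omega
      have hT3 : ⌈1 / EB_kap R β K Γ.card M⌉₊ ≤ S := by
        unfold EB_T at hT
        omega
      refine EB_C_mono hB (le_max_left _ _) (hB' N f hf Γ0 (EB_new f (EB_kap R β K Γ.card M) Γ)
        (EB_ord R β K Γ.card M) ?_ ?_ (h3.trans ho1) (by omega) ?_ ?_)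
      · intro n hn
        exact (EB_new_mem _ _ _ n).2 (Or.inl (h1 hn))
      · have h8 := EB_new_card f hf hκ Γ
        have h9 : (R : ℝ) / EB_kap R β K Γ.card M ^ 2 ≤ S :=
          (Nat.le_ceil _).trans (by exact_mod_cast hT1)
        have h10 : (Γ.card : ℝ) ≤ B1 := by exact_mod_cast h2
        have h11 : ((EB_new f (EB_kap R β K Γ.card M) Γ).card : ℝ) ≤ ((B1 + S : ℕ) : ℝ) := by
          push_cast
          linarith
        exact_mod_cast h11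
      · intro n hn hn0
        rcases (EB_new_mem _ _ _ n).1 hn with h | ⟨a, ha⟩
        · obtain ⟨a, ha⟩ := h5 n h hn0
          refine ⟨a, lt_of_le_of_lt ?_ ha⟩
          have hB0 : (0 : ℝ) < B1 := by exact_mod_cast hB1
          refine one_div_le_one_div_of_le hB0 ?_
          push_cast
          linarith [(Nat.cast_nonneg S : (0 : ℝ) ≤ (S : ℝ))]
        · refine ⟨a, lt_of_le_of_lt ?_ ha⟩
          have h9 : 1 / EB_kap R β K Γ.card M ≤ ((B1 + S : ℕ) : ℝ) := by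
            refine (Nat.le_ceil _).trans ?_
            exact_mod_cast hT3.trans (Nat.le_add_left _ _)
          have h10 : (0 : ℝ) < ((B1 + S : ℕ) : ℝ) := lt_of_lt_of_le (by positivity) h9
          rw [div_le_iff₀ h10]
          rw [div_le_iff₀ hκ] at h9
          linarith
      · push_cast at h6
        linarith

theorem decomposition (R : ℕ) (β : ℝ) (hβ : 0 < β) (K : ℕ → ℕ → ℝ) (hK : ∀ G M, 0 < K G M) (M0 : ℕ) (hM0 : 1 ≤ M0) :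
    ∃ B : ℕ, 1 ≤ B ∧ ∀ (N : ℕ) [NeZero N] (f : Fin R → ZMod N → ℝ), (∀ a x, |f a x| ≤ 1) → ∀ Γ0 : Finset (ZMod N), Γ0.card ≤ 1 →
      ∃ (Γ Γ' : Finset (ZMod N)) (M M' : ℕ), Γ0 ⊆ Γ ∧ Γ.card ≤ B ∧ M0 ≤ M ∧ M ≤ B ∧ 1 ≤ M' ∧
        (∀ n ∈ Γ, n ∉ Γ0 → ∃ a, 1 / (B : ℝ) < ‖ft (f a) n‖) ∧
        (∀ a n, ‖ft (fun x => f a x - cv (f a) (nu Γ' M') x) n‖ ≤ K Γ.card M) ∧
        ∑ a, av (fun x => (cv (f a) (nu Γ' M') x - cv (f a) (nu Γ M) x) ^ 2) ≤ β := by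
  obtain ⟨J, hJ⟩ := exists_nat_ge ((R : ℝ) / (β / 2))
  obtain ⟨B, hB, hB'⟩ := EB_ind R β hβ K hK M0 hM0 J M0 hM0
  refine ⟨B, hB, ?_⟩
  intro N _ f hf Γ0 hΓ0
  refine hB' N f hf Γ0 Γ0 M0 (Finset.Subset.refl _) (hΓ0.trans hM0) le_rfl le_rfl ?_ ?_
  · intro n hn hn0
    exact absurd hn hn0
  · have h1 := EB_E_nonneg f Γ0 M0
    rw [div_le_iff₀ (by positivity)] at hJ
    linarith

end H86LP
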