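import Pool.Agent.H86.LP.Defs

/-!
# FA: Fourier analysis on `ZMod N`

`ch` is `ZMod.stdAddChar`, an additive character with values of norm 1 (`AddChar.norm_apply`, `map_add_eq_mul`, `map_neg_eq_conj`), and `∑_n ch (n * x) = N [x = 0]`
(`AddChar.sum_mulShift`, `ZMod.isPrimitive_stdAddChar`). Everything else is expanding finite sums.
* `parseval`: `∑_n |ft f n|^2 = N^(-2) ∑_{x,y} f x f y ∑_n ch (n (y - x)) = N^(-1) ∑ f^2`.
* `card_spec`: `κ^2 #{..} ≤ ∑ |ft f n|^2 = av f^2 ≤ 1`.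
* `ch_val`: `|1 - ch n| = 2 |sin (π n/N)| ≥ 4 |n|/N` for `|n| ≤ N/2` (`Real.mul_le_sin` or concavity: `sin (π u) ≥ 2u` on `[0, 1/2]`), and `≤ 2π |n|/N`. `ZMod.stdAddChar_coe`, `ZMod.coe_valMinAbs`.
-/

set_option autoImplicit false

open Finset

namespace H86LP

variable {N : ℕ} [NeZero N]

theorem ch_zero : ch (0 : ZMod N) = 1 := AddChar.map_zero_eq_one _

theorem ch_add (x y : ZMod N) : ch (x + y) = ch x * ch y := AddChar.map_add_eq_mul _ x y

theorem ch_neg (x : ZMod N) : ch (-x) = (starRingEnd ℂ) (ch x) := AddChar.map_neg_eq_conj _ x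

theorem norm_ch (x : ZMod N) : ‖ch x‖ = 1 := AddChar.norm_apply _ x

theorem sum_ch (x : ZMod N) : ∑ n : ZMod N, ch (n * x) = if x = 0 then (N : ℂ) else 0 := by
  have h := AddChar.sum_mulShift (R' := ℂ) x (ZMod.isPrimitive_stdAddChar N)
  unfold ch
  rw [h, ZMod.card]
  split_ifs <;> simp

theorem FA_mul_sub_one (a b : ℂ) (hb : ‖b‖ = 1) : ‖a * b - 1‖ ≤ ‖a - 1‖ + ‖b - 1‖ := by
  have h : a * b - 1 = (a - 1) * b + (b - 1) := by ring
  rw [h]
  refine (norm_add_le _ _).trans ?_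
  rw [norm_mul, hb, mul_one]

theorem ch_sub_one_le_mul (k : ℕ) (x : ZMod N) : ‖ch ((k : ZMod N) * x) - 1‖ ≤ k * ‖ch x - 1‖ := by
  induction k with
  | zero => simp [ch_zero]
  | succ k ih =>
    have h : ((k + 1 : ℕ) : ZMod N) * x = (k : ZMod N) * x + x := by push_cast; ring
    rw [h, ch_add]
    refine (FA_mul_sub_one _ _ (norm_ch x)).trans ?_
    push_cast
    linarith

theorem ch_add_sub_one_le (x y : ZMod N) : ‖ch (x + y) - 1‖ ≤ ‖ch x - 1‖ + ‖ch y - 1‖ := by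
  rw [ch_add]
  exact FA_mul_sub_one _ _ (norm_ch y)

theorem ch_neg_sub_one (x : ZMod N) : ‖ch (-x) - 1‖ = ‖ch x - 1‖ := by
  have h : (starRingEnd ℂ) (ch x) - 1 = (starRingEnd ℂ) (ch x - 1) := by
    rw [map_sub, map_one]
  rw [ch_neg, h, RCLike.norm_conj]

theorem FA_ch_int (j : ℤ) : ch (j : ZMod N) = Complex.exp (Complex.I * ((2 * Real.pi * j / N : ℝ) : ℂ)) := by
  unfold ch
  rw [ZMod.stdAddChar_coe]
  congr 1
  push_cast
  ring

theorem ch_lower (x : ZMod N) : 4 * |(x.valMinAbs : ℝ)| / N ≤ ‖ch x - 1‖ := by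
  have hN : (0 : ℝ) < N := by exact_mod_cast NeZero.pos N
  have hx : ch x = ch ((x.valMinAbs : ℤ) : ZMod N) := by rw [ZMod.coe_valMinAbs]
  obtain ⟨j, hj⟩ : ∃ j : ℤ, j = x.valMinAbs := ⟨_, rfl⟩
  have hmem := x.valMinAbs_mem_Ioc
  rw [hx, ← hj, FA_ch_int, Complex.norm_exp_I_mul_ofReal_sub_one]
  rw [← hj] at hmem
  have h1 : -(N : ℝ) ≤ j * 2 := by exact_mod_cast hmem.1.le
  have h2 : (j : ℝ) * 2 ≤ N := by exact_mod_cast hmem.2
  have hpi := Real.pi_pos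
  have h3 : |(j : ℝ)| * 2 ≤ N := by
    rw [← abs_two, ← abs_mul, abs_le]
    exact ⟨h1, h2⟩
  have e1 : 2 * Real.pi * j / N / 2 = Real.pi * j / N := by ring
  have e2 : |Real.pi * j / N| = Real.pi * |(j : ℝ)| / N := by
    rw [abs_div, abs_mul, abs_of_pos hpi, abs_of_pos hN]
  have h4 : |Real.pi * j / N| ≤ Real.pi / 2 := by
    rw [e2, div_le_div_iff₀ hN two_pos]
    nlinarith
  have h5 := Real.mul_abs_le_abs_sin h4
  rw [e1, norm_mul, Real.norm_eq_abs, Real.norm_eq_abs, abs_two]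
  rw [e2] at h5
  have e3 : 2 / Real.pi * (Real.pi * |(j : ℝ)| / N) = 2 * |(j : ℝ)| / N := by
    field_simp
  rw [e3] at h5
  have e4 : 4 * |(j : ℝ)| / N = 2 * (2 * |(j : ℝ)| / N) := by ring
  rw [e4]
  linarith

theorem ch_upper (x : ZMod N) (j : ℤ) (hj : (j : ZMod N) = x) : ‖ch x - 1‖ ≤ 2 * Real.pi * |(j : ℝ)| / N := by
  have hN : (0 : ℝ) < N := by exact_mod_cast NeZero.pos N
  rw [← hj, FA_ch_int]
  refine Real.norm_exp_I_mul_ofReal_sub_one_le.trans (le_of_eq ?_)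
  rw [Real.norm_eq_abs, abs_div, abs_mul, abs_mul, abs_two, abs_of_pos Real.pi_pos, abs_of_pos hN]

theorem FA_sum_ch_sub (x y : ZMod N) : ∑ n : ZMod N, ch (n * (x - y)) = if y = x then (N : ℂ) else 0 := by
  rw [sum_ch]
  by_cases h : y = x
  · rw [if_pos (by rw [h, sub_self]), if_pos h]
  · rw [if_neg (fun h2 => h (sub_eq_zero.1 h2).symm), if_neg h]

theorem ft_inv (f : ZMod N → ℝ) (x : ZMod N) : (f x : ℂ) = ∑ n, ft f n * ch (n * x) := by
  have hN : (N : ℂ) ≠ 0 := by exact_mod_cast NeZero.ne N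
  have h1 : ∀ n : ZMod N, ft f n * ch (n * x) = (∑ y, (f y : ℂ) * ch (n * (x - y))) / N := by
    intro n
    rw [ft, div_mul_eq_mul_div, sum_mul]
    congr 1
    refine sum_congr rfl fun y _ => ?_
    rw [mul_assoc, ← ch_add]
    congr 2
    ring
  simp only [h1]
  rw [← sum_div, sum_comm]
  have h2 : ∀ y : ZMod N, ∑ n : ZMod N, (f y : ℂ) * ch (n * (x - y)) = if y = x then (f y : ℂ) * N else 0 := by
    intro y
    rw [← mul_sum, FA_sum_ch_sub]
    split_ifs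
    · rfl
    · rw [mul_zero]
  simp only [h2]
  rw [sum_ite_eq' univ x (fun y => (f y : ℂ) * N), if_pos (mem_univ x), mul_div_assoc, div_self hN, mul_one]

theorem FA_conj_ft (f : ZMod N → ℝ) (n : ZMod N) :
    (starRingEnd ℂ) (ft f n) = (∑ y, (f y : ℂ) * ch (n * y)) / N := by
  rw [ft, map_div₀, map_sum, Complex.conj_natCast]
  congr 1
  refine sum_congr rfl fun y _ => ?_
  rw [map_mul, Complex.conj_ofReal, ← ch_neg, neg_neg]

theorem parseval (f : ZMod N → ℝ) : ∑ n, ‖ft f n‖ ^ 2 = av (fun x => f x ^ 2) := by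
  have h1 : ∀ n : ZMod N, ((‖ft f n‖ ^ 2 : ℝ) : ℂ) = (∑ y, (f y : ℂ) * (ft f n * ch (n * y))) / N := by
    intro n
    have h2 : ((‖ft f n‖ ^ 2 : ℝ) : ℂ) = ft f n * (starRingEnd ℂ) (ft f n) := by
      rw [Complex.mul_conj, Complex.normSq_eq_norm_sq]
    rw [h2, FA_conj_ft, ← mul_div_assoc, mul_sum]
    congr 1
    refine sum_congr rfl fun y _ => ?_
    ring
  have h3 : ((∑ n, ‖ft f n‖ ^ 2 : ℝ) : ℂ) = ((av (fun x => f x ^ 2) : ℝ) : ℂ) := by
    rw [Complex.ofReal_sum]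
    rw [sum_congr rfl fun n _ => h1 n, ← sum_div, sum_comm]
    rw [av, Complex.ofReal_div, Complex.ofReal_sum, Complex.ofReal_natCast]
    congr 1
    refine sum_congr rfl fun y _ => ?_
    rw [← mul_sum, ← ft_inv, Complex.ofReal_pow, pow_two]
  exact_mod_cast h3

theorem ft_cv (f g : ZMod N → ℝ) (n : ZMod N) : ft (cv f g) n = ft f n * ft g n := by
  have h1 : ∀ x : ZMod N, ((cv f g x : ℝ) : ℂ) * ch (-(n * x)) =
      (∑ y, ((f (x - y) : ℂ) * ch (-(n * (x - y)))) * ((g y : ℂ) * ch (-(n * y)))) / N := by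
    intro x
    rw [cv, av, Complex.ofReal_div, Complex.ofReal_sum, Complex.ofReal_natCast, div_mul_eq_mul_div, sum_mul]
    congr 1
    refine sum_congr rfl fun y _ => ?_
    have h2 : ch (-(n * x)) = ch (-(n * (x - y))) * ch (-(n * y)) := by
      rw [← ch_add]
      congr 1
      ring
    rw [h2, Complex.ofReal_mul]
    ring
  have h2 : ∀ y : ZMod N, ∑ x, (f (x - y) : ℂ) * ch (-(n * (x - y))) = ∑ x, (f x : ℂ) * ch (-(n * x)) := by
    intro y
    exact Equiv.sum_comp (Equiv.subRight y) (fun x => (f x : ℂ) * ch (-(n * x)))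
  rw [ft]
  rw [sum_congr rfl fun x _ => h1 x, ← sum_div, sum_comm]
  have h3 : ∀ y : ZMod N, ∑ x, ((f (x - y) : ℂ) * ch (-(n * (x - y)))) * ((g y : ℂ) * ch (-(n * y))) =
      (∑ x, (f x : ℂ) * ch (-(n * x))) * ((g y : ℂ) * ch (-(n * y))) := by
    intro y
    rw [← sum_mul, h2 y]
  rw [sum_congr rfl fun y _ => h3 y, ← mul_sum, ft, ft]
  ring

theorem ft_sub (f g : ZMod N → ℝ) (n : ZMod N) : ft (fun x => f x - g x) n = ft f n - ft g n := by
  rw [ft, ft, ft, ← sub_div, ← sum_sub_distrib]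
  congr 1
  refine sum_congr rfl fun x _ => ?_
  rw [Complex.ofReal_sub]
  ring

theorem card_spec (f : ZMod N → ℝ) (hf : ∀ x, |f x| ≤ 1) (κ : ℝ) (hκ : 0 < κ) :
    ((univ.filter (fun n => κ < ‖ft f n‖)).card : ℝ) ≤ 1 / κ ^ 2 := by
  have hN : (0 : ℝ) < N := by exact_mod_cast NeZero.pos N
  rw [le_div_iff₀ (by positivity)]
  have h1 : ((univ.filter (fun n => κ < ‖ft f n‖)).card : ℝ) * κ ^ 2 ≤
      ∑ n ∈ univ.filter (fun n => κ < ‖ft f n‖), ‖ft f n‖ ^ 2 := by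
    rw [← nsmul_eq_mul, ← sum_const]
    refine sum_le_sum fun n hn => ?_
    rw [mem_filter] at hn
    exact pow_le_pow_left₀ hκ.le hn.2.le 2
  have h2 : ∑ n ∈ univ.filter (fun n => κ < ‖ft f n‖), ‖ft f n‖ ^ 2 ≤ ∑ n, ‖ft f n‖ ^ 2 :=
    sum_le_sum_of_subset_of_nonneg (filter_subset _ _) fun n _ _ => by positivity
  have h3 : av (fun x => f x ^ 2) ≤ 1 := by
    rw [av, div_le_one hN]
    calc ∑ x, f x ^ 2 ≤ ∑ _x : ZMod N, (1 : ℝ) := by
          refine sum_le_sum fun x _ => ?_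
          rw [← sq_abs]
          exact pow_le_one₀ (abs_nonneg _) (hf x)
      _ = N := by rw [sum_const, card_univ, ZMod.card, nsmul_eq_mul, mul_one]
  rw [parseval] at h2
  linarith

end H86LP
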