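import Pool.Agent.H86.LP.FA

/-!
# FB: bilinear bound and low frequencies

* `bilinear`: insert `U (y - x) = ∑_n ft U n ch (n y) ch (- n x)` (`ft_inv`): the double average is `∑_n ft U n * conj (ft G n) * (ft H n)` up to conjugations
  (`av_y G y ch (n y) = conj (ft G n)`, `av_x H x ch (- n x) = ft H n`), so it is at most `κ ∑_n |ft G n| |ft H n| ≤ κ (∑ |ft G|^2)^(1/2) (∑ |ft H|^2)^(1/2)` (Cauchy-Schwarz, `parseval`).
* `low_freq`: `(1 - ch (-n)) ft f n = N^(-1) ∑_x (f x - f (x-1)) ch (- n x)` (shift `x → x - 1`), norm at most `s/N` as `|f x - f (x-1)| ≤ 1`; `ch_lower`.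
-/

set_option autoImplicit false

open Finset

namespace H86LP

variable {N : ℕ} [NeZero N]

theorem bilinear (U G H : ZMod N → ℝ) (κ : ℝ) (hκ : 0 ≤ κ) (hU : ∀ n, ‖ft U n‖ ≤ κ) :
    |av (fun x => av (fun y => G y * H x * U (y - x)))| ≤
      κ * (Real.sqrt (av (fun x => G x ^ 2)) * Real.sqrt (av (fun x => H x ^ 2))) := by
  have hN : (0 : ℝ) < N := Nat.cast_pos.2 (NeZero.pos N)
  have hNc : (N : ℂ) ≠ 0 := Nat.cast_ne_zero.2 (NeZero.ne N)
  have e : ((av (fun x => av (fun y => G y * H x * U (y - x))) : ℝ) : ℂ) =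
      ∑ n, ft U n * ((starRingEnd ℂ) (ft G n) * ft H n) := by
    have e1 : ∀ n : ZMod N, (starRingEnd ℂ) (ft G n) * ft H n =
        (∑ x : ZMod N, ∑ y : ZMod N, (G y : ℂ) * (H x : ℂ) * ch (n * (y - x))) / (N * N) := by
      intro n
      unfold ft
      rw [map_div₀, map_sum, Complex.conj_natCast, div_mul_div_comm, sum_mul_sum, sum_comm]
      congr 1
      refine sum_congr rfl fun x _ => sum_congr rfl fun y _ => ?_
      rw [map_mul, Complex.conj_ofReal, ch_neg (n * y), Complex.conj_conj, mul_sub, sub_eq_add_neg, ch_add]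
      ring
    have e2 : ∑ n, ft U n * ((starRingEnd ℂ) (ft G n) * ft H n) =
        (∑ x : ZMod N, ∑ y : ZMod N, (G y : ℂ) * (H x : ℂ) * (U (y - x) : ℂ)) / (N * N) := by
      simp only [e1, ft_inv U, ← mul_div_assoc]
      rw [← sum_div]
      congr 1
      simp only [mul_sum]
      rw [sum_comm]
      refine sum_congr rfl fun x _ => ?_
      rw [sum_comm]
      refine sum_congr rfl fun y _ => sum_congr rfl fun n _ => ?_
      ring
    rw [e2]
    unfold av
    push_cast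
    simp only [div_eq_mul_inv, sum_mul, mul_inv]
    refine sum_congr rfl fun x _ => sum_congr rfl fun y _ => ?_
    ring
  rw [← Real.norm_eq_abs, ← Complex.norm_real, e]
  calc ‖∑ n, ft U n * ((starRingEnd ℂ) (ft G n) * ft H n)‖
      ≤ ∑ n, ‖ft U n * ((starRingEnd ℂ) (ft G n) * ft H n)‖ := norm_sum_le _ _
    _ ≤ ∑ n, κ * (‖ft G n‖ * ‖ft H n‖) := sum_le_sum fun n _ => by
        rw [norm_mul, norm_mul, RCLike.norm_conj]
        exact mul_le_mul_of_nonneg_right (hU n) (by positivity)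
    _ = κ * ∑ n, ‖ft G n‖ * ‖ft H n‖ := by rw [mul_sum]
    _ ≤ _ := by
        refine mul_le_mul_of_nonneg_left ?_ hκ
        have h := Real.sum_mul_le_sqrt_mul_sqrt univ (fun n => ‖ft G n‖) (fun n => ‖ft H n‖)
        rwa [parseval, parseval] at h

theorem low_freq (f : ZMod N → ℝ) (hf : ∀ x, f x = 0 ∨ f x = 1) (s : ℕ)
    (hs : (univ.filter (fun x => f x ≠ f (x - 1))).card ≤ s) (n : ZMod N) :
    4 * |(n.valMinAbs : ℝ)| * ‖ft f n‖ ≤ s := by
  have hN : (0 : ℝ) < N := Nat.cast_pos.2 (NeZero.pos N)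
  have hNc : (N : ℂ) ≠ 0 := Nat.cast_ne_zero.2 (NeZero.ne N)
  have e1 : (N : ℂ) * ft f n = ∑ x : ZMod N, (f x : ℂ) * ch (-(n * x)) := by
    unfold ft
    rw [mul_div_cancel₀ _ hNc]
  have e2 : ch (-n) * ((N : ℂ) * ft f n) = ∑ x : ZMod N, (f (x - 1) : ℂ) * ch (-(n * x)) := by
    rw [e1, mul_sum]
    have h := Equiv.sum_comp (Equiv.addRight (1 : ZMod N)) (fun x : ZMod N => (f (x - 1) : ℂ) * ch (-(n * x)))
    rw [← h]
    refine sum_congr rfl fun x _ => ?_
    simp only [Equiv.coe_addRight, add_sub_cancel_right]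
    rw [mul_add, mul_one, neg_add, ch_add]
    ring
  have e3 : (1 - ch (-n)) * ((N : ℂ) * ft f n) = ∑ x : ZMod N, ((f x - f (x - 1) : ℝ) : ℂ) * ch (-(n * x)) := by
    rw [sub_mul, one_mul, e2, e1, ← sum_sub_distrib]
    refine sum_congr rfl fun x _ => ?_
    push_cast
    ring
  have h1 : ‖(1 - ch (-n)) * ((N : ℂ) * ft f n)‖ ≤ s := by
    rw [e3]
    calc ‖∑ x : ZMod N, ((f x - f (x - 1) : ℝ) : ℂ) * ch (-(n * x))‖
        ≤ ∑ x : ZMod N, ‖((f x - f (x - 1) : ℝ) : ℂ) * ch (-(n * x))‖ := norm_sum_le _ _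
      _ ≤ ∑ x : ZMod N, (if f x ≠ f (x - 1) then (1 : ℝ) else 0) := sum_le_sum fun x _ => by
          rw [norm_mul, norm_ch, mul_one, Complex.norm_real, Real.norm_eq_abs]
          rcases hf x with h | h <;> rcases hf (x - 1) with h' | h' <;> simp [h, h']
      _ = ((univ.filter (fun x => f x ≠ f (x - 1))).card : ℝ) := by
          rw [sum_ite, sum_const_zero, add_zero, sum_const, nsmul_eq_mul, mul_one]
      _ ≤ s := by exact_mod_cast hs
  rw [norm_mul, norm_mul, ← norm_neg, neg_sub, ch_neg_sub_one, Complex.norm_natCast] at h1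
  have h2 := ch_lower n
  have h3 : 4 * |(n.valMinAbs : ℝ)| ≤ ‖ch n - 1‖ * N := by
    rwa [div_le_iff₀ hN] at h2
  calc 4 * |(n.valMinAbs : ℝ)| * ‖ft f n‖ ≤ ‖ch n - 1‖ * N * ‖ft f n‖ :=
        mul_le_mul_of_nonneg_right h3 (norm_nonneg _)
    _ = ‖ch n - 1‖ * (N * ‖ft f n‖) := by ring
    _ ≤ s := h1

end H86LP
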