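import Pool.Agent.H86.LP.Defs

/-!
# IA: the upper Banach density is attained approximately at one scale

`F T = sup_{y ≥ 0} vol(C ∩ [y, y+T])/T ∈ [0, 1]` for `T ≥ 1`, `D = inf_{T ≥ 1} F T`, so `D ≤ 1`. `d ≤ F T1` for every `T1 ≥ 1`: for a window of length `T` with `vol > d T` cover `[y, y+T]` by
`⌈T/T1⌉ ≤ T/T1 + 1` windows `[y + m T1, y + (m+1) T1]`: `d T < (T/T1 + 1) T1 F T1`, i.e. `d < F T1 (1 + T1/T)`, `T` arbitrarily large. Hence `d ≤ D`.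
`Q0` with `F Q0 ≤ D + δ`. For `T = max T0 1`: `F T ≥ D`, so some window has `vol ≥ (F T - δ) T ≥ (D - δ) T`.
-/

set_option autoImplicit false

open MeasureTheory

namespace H86LP

/-- the measure of a window -/
noncomputable def IA_v (C : Set ℝ) (y T : ℝ) : ℝ := (volume (C ∩ Set.Icc y (y + T))).toReal

lemma IA_fin (C : Set ℝ) (y T : ℝ) : volume (C ∩ Set.Icc y (y + T)) ≠ ⊤ :=
  ((measure_mono Set.inter_subset_right).trans_lt measure_Icc_lt_top).ne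

lemma IA_nn (C : Set ℝ) (y T : ℝ) : 0 ≤ IA_v C y T := ENNReal.toReal_nonneg

lemma IA_le (C : Set ℝ) (y : ℝ) {T : ℝ} (hT : 0 ≤ T) : IA_v C y T ≤ T := by
  unfold IA_v
  have h1 : volume (C ∩ Set.Icc y (y + T)) ≤ ENNReal.ofReal T := by
    refine (measure_mono Set.inter_subset_right).trans ?_
    rw [Real.volume_Icc]
    refine ENNReal.ofReal_le_ofReal ?_
    linarith
  exact ENNReal.toReal_le_of_le_ofReal hT h1

lemma IA_mono (C : Set ℝ) (y : ℝ) {T T' : ℝ} (h : T ≤ T') : IA_v C y T ≤ IA_v C y T' := by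
  unfold IA_v
  refine ENNReal.toReal_mono (IA_fin C y T') (measure_mono ?_)
  exact Set.inter_subset_inter_right C (Set.Icc_subset_Icc le_rfl (by linarith))

lemma IA_add (C : Set ℝ) (y : ℝ) {T T' : ℝ} (hT : 0 ≤ T) (hT' : 0 ≤ T') :
    IA_v C y (T + T') ≤ IA_v C y T + IA_v C (y + T) T' := by
  unfold IA_v
  rw [← ENNReal.toReal_add (IA_fin _ _ _) (IA_fin _ _ _)]
  refine ENNReal.toReal_mono (ENNReal.add_ne_top.2 ⟨IA_fin _ _ _, IA_fin _ _ _⟩) ?_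
  refine (measure_mono ?_).trans (measure_union_le _ _)
  rintro x ⟨hx, h1, h2⟩
  rcases le_total x (y + T) with h | h
  · exact Or.inl ⟨hx, h1, h⟩
  · exact Or.inr ⟨hx, h, by linarith⟩

/-- the supremum over the windows of length `T` -/
noncomputable def IA_F (C : Set ℝ) (T : ℝ) : ℝ := sSup ((fun y => IA_v C y T / T) '' Set.Ici 0)

lemma IA_bdd (C : Set ℝ) {T : ℝ} (hT : 0 < T) : BddAbove ((fun y => IA_v C y T / T) '' Set.Ici 0) := by
  refine ⟨1, ?_⟩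
  rintro _ ⟨y, _, rfl⟩
  show IA_v C y T / T ≤ 1
  rw [div_le_one hT]
  exact IA_le C y hT.le

lemma IA_ne (C : Set ℝ) (T : ℝ) : ((fun y => IA_v C y T / T) '' Set.Ici 0).Nonempty :=
  ⟨_, 0, Set.self_mem_Ici, rfl⟩

lemma IA_F_le (C : Set ℝ) {T : ℝ} (hT : 0 < T) : IA_F C T ≤ 1 := by
  refine csSup_le (IA_ne C T) ?_
  rintro _ ⟨y, _, rfl⟩
  show IA_v C y T / T ≤ 1
  rw [div_le_one hT]
  exact IA_le C y hT.le

lemma IA_v_le (C : Set ℝ) {T : ℝ} (hT : 0 < T) {y : ℝ} (hy : 0 ≤ y) : IA_v C y T ≤ IA_F C T * T := by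
  rw [← div_le_iff₀ hT]
  exact le_csSup (IA_bdd C hT) ⟨y, hy, rfl⟩

lemma IA_F_nn (C : Set ℝ) {T : ℝ} (hT : 0 < T) : 0 ≤ IA_F C T := by
  have h1 := IA_v_le C hT (le_refl (0 : ℝ))
  have h2 := IA_nn C 0 T
  by_contra hc
  push Not at hc
  nlinarith

lemma IA_cov (C : Set ℝ) {T : ℝ} (hT : 0 < T) (N : ℕ) : ∀ y : ℝ, 0 ≤ y → IA_v C y (N * T) ≤ N * (IA_F C T * T) := by
  induction N with
  | zero =>
    intro y _
    have := IA_le C y (le_refl (0 : ℝ))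
    simpa using this
  | succ N ih =>
    intro y hy
    have h1 : ((N + 1 : ℕ) : ℝ) * T = T + N * T := by push_cast; ring
    rw [h1]
    have h2 := IA_add C y hT.le (T' := N * T) (by positivity)
    have h3 := IA_v_le C hT hy
    have h4 := ih (y + T) (by linarith)
    have h5 : ((N + 1 : ℕ) : ℝ) * (IA_F C T * T) = IA_F C T * T + N * (IA_F C T * T) := by push_cast; ring
    rw [h5]
    linarith

theorem density_scale (C : Set ℝ) (hC : MeasurableSet C) (d : ℝ)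
    (h : ∀ T0 : ℝ, ∃ T, T0 ≤ T ∧ 0 < T ∧ ∃ y, 0 ≤ y ∧ d * T < (volume (C ∩ Set.Icc y (y + T))).toReal) (δ : ℝ) (hδ : 0 < δ) :
    ∃ D : ℝ, d ≤ D ∧ D ≤ 1 ∧ ∃ Q0 : ℝ, 1 ≤ Q0 ∧
      (∀ y, 0 ≤ y → (volume (C ∩ Set.Icc y (y + Q0))).toReal ≤ (D + δ) * Q0) ∧
      ∀ T0 : ℝ, ∃ T, T0 ≤ T ∧ ∃ y, 0 ≤ y ∧ (D - δ) * T ≤ (volume (C ∩ Set.Icc y (y + T))).toReal := by
  have hd : ∀ T1 : ℝ, 1 ≤ T1 → d ≤ IA_F C T1 := by
    intro T1 hT1
    by_contra hlt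
    push Not at hlt
    have hT10 : 0 < T1 := by linarith
    obtain ⟨T, hT0, hT, y, hy, hv⟩ := h (T1 * IA_F C T1 / (d - IA_F C T1))
    rw [div_le_iff₀ (by linarith)] at hT0
    have h1 : T ≤ (⌈T / T1⌉₊ : ℝ) * T1 := by
      rw [← div_le_iff₀ hT10]
      exact Nat.le_ceil _
    have h2 : (⌈T / T1⌉₊ : ℝ) * T1 ≤ T + T1 := by
      have h3 := (Nat.ceil_lt_add_one (show 0 ≤ T / T1 by positivity)).le
      calc (⌈T / T1⌉₊ : ℝ) * T1 ≤ (T / T1 + 1) * T1 := mul_le_mul_of_nonneg_right h3 hT10.le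
        _ = T + T1 := by field_simp
    have h3 := IA_cov C hT10 ⌈T / T1⌉₊ y hy
    have h4 := (IA_mono C y h1).trans h3
    have h5 := IA_F_nn C hT10
    have hv' : d * T < IA_v C y T := hv
    have h6 : (⌈T / T1⌉₊ : ℝ) * (IA_F C T1 * T1) ≤ (T + T1) * IA_F C T1 := by
      calc (⌈T / T1⌉₊ : ℝ) * (IA_F C T1 * T1) = (⌈T / T1⌉₊ : ℝ) * T1 * IA_F C T1 := by ring
        _ ≤ _ := mul_le_mul_of_nonneg_right h2 h5
    nlinarith
  have hbd : BddBelow (IA_F C '' Set.Ici 1) := by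
    refine ⟨0, ?_⟩
    rintro _ ⟨T, hT, rfl⟩
    exact IA_F_nn C (lt_of_lt_of_le one_pos hT)
  have hne : (IA_F C '' Set.Ici 1).Nonempty := ⟨_, 1, Set.self_mem_Ici, rfl⟩
  refine ⟨sInf (IA_F C '' Set.Ici 1), ?_, ?_, ?_⟩
  · refine le_csInf hne ?_
    rintro _ ⟨T, hT, rfl⟩
    exact hd T hT
  · exact (csInf_le hbd ⟨1, Set.self_mem_Ici, rfl⟩).trans (IA_F_le C one_pos)
  · obtain ⟨_, ⟨Q0, hQ0, rfl⟩, hQ⟩ := exists_lt_of_csInf_lt hne
      (show sInf (IA_F C '' Set.Ici 1) < sInf (IA_F C '' Set.Ici 1) + δ by linarith)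
    have hQ0' : (0 : ℝ) < Q0 := lt_of_lt_of_le one_pos hQ0
    refine ⟨Q0, hQ0, fun y hy => ?_, fun T0 => ?_⟩
    · exact (IA_v_le C hQ0' hy).trans (mul_le_mul_of_nonneg_right hQ.le hQ0'.le)
    · have hT : (0 : ℝ) < max T0 1 := lt_of_lt_of_le one_pos (le_max_right _ _)
      have h1 : sInf (IA_F C '' Set.Ici 1) ≤ IA_F C (max T0 1) := 
        csInf_le hbd ⟨max T0 1, Set.mem_Ici.2 (le_max_right _ _), rfl⟩
      obtain ⟨_, ⟨y, hy, rfl⟩, hlt⟩ := exists_lt_of_lt_csSup (IA_ne C (max T0 1))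
        (show sInf (IA_F C '' Set.Ici 1) - δ < sSup ((fun y => IA_v C y (max T0 1) / (max T0 1)) '' Set.Ici 0) from
          lt_of_lt_of_le (by linarith) h1)
      refine ⟨max T0 1, le_max_left _ _, y, hy, ?_⟩
      have h2 : sInf (IA_F C '' Set.Ici 1) - δ < IA_v C y (max T0 1) / (max T0 1) := hlt
      rw [lt_div_iff₀ hT] at h2
      exact h2.le

end H86LP
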