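import Pool.Agent.H86.LP.Defs

/-!
# IB: choice of the windows

`dr C Q x` is the density of `C` in `[x, x + Q]`; it is continuous in `x` (`|vol(C ∩ [x,x+Q]) - vol(C ∩ [x',x'+Q])| ≤ 2 |x - x'|`), `0 ≤ dr ≤ 1`.
Induction on the number of points: given `z 0 = 0, z 1, .., z (k-1) ≥ 0` (all `≤ B0`) we choose `z k ≥ B0 + L0`. Let `B = B0 + 2 L0 + Q0`, `T` huge, `[y, y+T]` with `vol(C ∩ [y,y+T]) ≥ (D - δ) T`, `y ≥ 0`.
For `z ∈ J = [y + B, y + T - B]` put `Φ(z) = ∑_{i<k} ∫_{-L0}^{L0} (D + δ - dr C Q0 (z - z i + t)) dt`; the integrand is `≥ 0` (`hup`, `z - z i + t ≥ 0`). Fubini: for fixed `i, t` (`x0 = z i - t`, `|x0| ≤ B0 + L0`)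
`∫_J dr C Q0 (z - x0) dz = Q0^(-1) ∫_0^Q0 vol(C ∩ (J - x0 + u)) du ≥ vol(C ∩ [y, y+T]) - 4 B ≥ (D - δ) T - 4 B`
(`dr C Q0 x = Q0^(-1) ∫_0^Q0 1_C(x + u) du`, `J - x0 + u` contains `[y + 2B, y + T - 2B]`). So the average of `Φ` over `J` is `≤ k 2 L0 ((D + δ) - ((D - δ) T - 4B)/(T - 2B)) ≤ 2 k L0 (3 δ)` for `T` large.
Some `z ∈ J` has `Φ(z) ≤ 6 k δ L0 ≤ 8 r δ L0`; each summand is `≥ 0`, and `max 0 (D - dr) ≤ D + δ - dr`.
-/

set_option autoImplicit false

open MeasureTheory

namespace H86LP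

/-- density of `C` in `[x, x + Q]` -/
noncomputable def dr (C : Set ℝ) (Q x : ℝ) : ℝ := (volume (C ∩ Set.Icc x (x + Q))).toReal / Q

/-- the primitive of the indicator of `C` -/
noncomputable def IB_F (C : Set ℝ) (x : ℝ) : ℝ := ∫ t in (0:ℝ)..x, C.indicator (fun _ => (1:ℝ)) t

theorem IB_int (C : Set ℝ) (hC : MeasurableSet C) (a b : ℝ) :
    IntervalIntegrable (C.indicator (fun _ => (1:ℝ))) volume a b := by
  rw [intervalIntegrable_iff]
  have h : IntegrableOn (fun _ : ℝ => (1:ℝ)) (Set.uIoc a b) volume :=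
    integrableOn_const (by
      rw [Set.uIoc]
      exact measure_Ioc_lt_top.ne)
  exact h.indicator hC

theorem IB_sub (C : Set ℝ) (hC : MeasurableSet C) (a b : ℝ) :
    IB_F C b - IB_F C a = ∫ t in a..b, C.indicator (fun _ => (1:ℝ)) t :=
  intervalIntegral.integral_interval_sub_left (IB_int C hC _ _) (IB_int C hC _ _)

theorem IB_vol (C : Set ℝ) (hC : MeasurableSet C) {a b : ℝ} (hab : a ≤ b) :
    (volume (C ∩ Set.Icc a b)).toReal = IB_F C b - IB_F C a := by
  rw [IB_sub C hC, intervalIntegral.integral_of_le hab]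
  have h1 : volume (C ∩ Set.Icc a b) = volume (C ∩ Set.Ioc a b) :=
    measure_congr ((ae_eq_refl C).inter Ioc_ae_eq_Icc.symm)
  rw [h1, integral_indicator hC, Measure.restrict_restrict hC]
  simp [Measure.real]

theorem IB_mono (C : Set ℝ) (hC : MeasurableSet C) : Monotone (IB_F C) := by
  intro a b hab
  have h := IB_vol C hC hab
  have h2 : (0:ℝ) ≤ (volume (C ∩ Set.Icc a b)).toReal := ENNReal.toReal_nonneg
  linarith

theorem IB_lip (C : Set ℝ) (hC : MeasurableSet C) {a b : ℝ} (hab : a ≤ b) :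
    IB_F C b - IB_F C a ≤ b - a := by
  rw [← IB_vol C hC hab]
  have h1 : volume (C ∩ Set.Icc a b) ≤ volume (Set.Icc a b) := measure_mono Set.inter_subset_right
  rw [Real.volume_Icc] at h1
  exact ENNReal.toReal_le_of_le_ofReal (by linarith) h1

theorem IB_cont (C : Set ℝ) (hC : MeasurableSet C) : Continuous (IB_F C) :=
  intervalIntegral.continuous_primitive (fun a b => IB_int C hC a b) 0

theorem IB_dr (C : Set ℝ) (hC : MeasurableSet C) {Q : ℝ} (hQ : 0 ≤ Q) (x : ℝ) :
    dr C Q x = (IB_F C (x + Q) - IB_F C x) / Q := by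
  rw [dr, IB_vol C hC (by linarith)]

theorem dr_cont (C : Set ℝ) (hC : MeasurableSet C) (Q : ℝ) (hQ : 0 < Q) : Continuous (dr C Q) := by
  have h : dr C Q = fun x => (IB_F C (x + Q) - IB_F C x) / Q := by
    funext x
    exact IB_dr C hC hQ.le x
  rw [h]
  have h1 := IB_cont C hC
  fun_prop

theorem IB_avg (C : Set ℝ) (hC : MeasurableSet C) {Q : ℝ} (hQ : 0 < Q) (a b s : ℝ) :
    IB_F C (b + s) - IB_F C (a + s + Q) ≤ ∫ z in a..b, dr C Q (z + s) := by
  have hF := IB_cont C hC
  have hI : ∀ u v, IntervalIntegrable (IB_F C) volume u v := fun u v => hF.intervalIntegrable u v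
  have e1 : ∀ z, dr C Q (z + s) = (IB_F C (z + (s + Q)) - IB_F C (z + s)) / Q := by
    intro z
    rw [IB_dr C hC hQ.le, add_assoc]
  simp only [e1]
  rw [intervalIntegral.integral_div, intervalIntegral.integral_sub
    (by exact Continuous.intervalIntegrable (by fun_prop) _ _)
    (by exact Continuous.intervalIntegrable (by fun_prop) _ _),
    intervalIntegral.integral_comp_add_right, intervalIntegral.integral_comp_add_right]
  have h1 := intervalIntegral.integral_add_adjacent_intervals (hI (a + s) (a + (s + Q)))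
    (hI (a + (s + Q)) (b + (s + Q)))
  have h2 := intervalIntegral.integral_add_adjacent_intervals (hI (a + s) (b + s))
    (hI (b + s) (b + (s + Q)))
  have h3 : Q * IB_F C (b + s) ≤ ∫ x in (b + s)..(b + (s + Q)), IB_F C x := by
    have h4 : ∫ _x in (b + s)..(b + (s + Q)), IB_F C (b + s) = Q * IB_F C (b + s) := by
      rw [intervalIntegral.integral_const, smul_eq_mul]
      ring
    rw [← h4]
    refine intervalIntegral.integral_mono_on (by linarith) (by simp) (hI _ _) ?_
    intro x hx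
    exact IB_mono C hC hx.1
  have h5 : ∫ x in (a + s)..(a + (s + Q)), IB_F C x ≤ Q * IB_F C (a + s + Q) := by
    have h4 : ∫ _x in (a + s)..(a + (s + Q)), IB_F C (a + s + Q) = Q * IB_F C (a + s + Q) := by
      rw [intervalIntegral.integral_const, smul_eq_mul]
      ring
    rw [← h4]
    refine intervalIntegral.integral_mono_on (by linarith) (hI _ _) (by simp) ?_
    intro x hx
    refine IB_mono C hC ?_
    have := hx.2
    linarith
  rw [le_div_iff₀ hQ]
  linarith

theorem IB_step (C : Set ℝ) (hC : MeasurableSet C) (D δ Q0 : ℝ) (hQ : 1 ≤ Q0) (hδ : 0 < δ) (hD : D ≤ 1)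
    (hup : ∀ y, 0 ≤ y → dr C Q0 y ≤ D + δ)
    (hlo : ∀ T0 : ℝ, ∃ T, T0 ≤ T ∧ ∃ y, 0 ≤ y ∧ (D - δ) * T ≤ (volume (C ∩ Set.Icc y (y + T))).toReal)
    (r : ℕ) (L0 : ℝ) (hL : 1 ≤ L0) (k : ℕ) (hk : k < r) (z : ℕ → ℝ) (B0 : ℝ) (hB0 : 0 ≤ B0)
    (hz : ∀ i < k, 0 ≤ z i ∧ z i ≤ B0) :
    ∃ w, 0 ≤ w ∧ ∀ i < k, ∫ t in (-L0)..L0, max 0 (D - dr C Q0 (w - z i + t)) ≤ 8 * r * δ * L0 := by
  have hQp : 0 < Q0 := by linarith
  have hdc := dr_cont C hC Q0 hQp
  have hDδ : 0 ≤ D + δ := by
    have h1 := hup 0 le_rfl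
    have h2 : 0 ≤ dr C Q0 0 := by
      unfold dr
      exact div_nonneg ENNReal.toReal_nonneg hQp.le
    linarith
  set B : ℝ := B0 + 2 * L0 + Q0 with hB
  have hBp : 0 < B := by linarith
  obtain ⟨T, hT, y, hy, hvol⟩ := hlo ((4 * B + 6 * δ * B) / δ + 2 * B + 1)
  have hT1 : 4 * B + 6 * δ * B ≤ δ * T := by
    have h1 : (4 * B + 6 * δ * B) / δ ≤ T := by linarith
    rw [div_le_iff₀ hδ] at h1
    linarith
  have hT2 : 2 * B < T := by
    have h1 : 0 ≤ (4 * B + 6 * δ * B) / δ := by positivity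
    linarith
  rw [IB_vol C hC (by linarith)] at hvol
  set φ : ℕ → ℝ → ℝ := fun i w => ∫ t in (-L0)..L0, (D + δ - dr C Q0 (w - z i + t)) with hφ
  have hL0 : -L0 ≤ L0 := by linarith
  -- the average of `φ i`
  have hφc : ∀ i, Continuous (φ i) := by
    intro i
    rw [hφ]
    exact intervalIntegral.continuous_parametric_intervalIntegral_of_continuous'
      (f := fun w t => D + δ - dr C Q0 (w - z i + t)) (by fun_prop) _ _
  have havg : ∀ i < k, ∫ w in (y + B)..(y + T - B), φ i w ≤ 6 * δ * L0 * (T - 2 * B) := by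
    intro i hi
    obtain ⟨hz1, hz2⟩ := hz i hi
    have e1 : ∫ w in (y + B)..(y + T - B), φ i w =
        ∫ t in (-L0)..L0, ∫ w in (y + B)..(y + T - B), (D + δ - dr C Q0 (w - z i + t)) := by
      rw [hφ]
      refine MeasureTheory.intervalIntegral_intervalIntegral_swap
        (F := fun w t => D + δ - dr C Q0 (w - z i + t)) ?_
      have hcont : Continuous (Function.uncurry fun w t => D + δ - dr C Q0 (w - z i + t)) := by
        fun_prop
      refine (hcont.continuousOn.integrableOn_compact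
        (isCompact_uIcc.prod isCompact_uIcc : IsCompact
          (Set.uIcc (y + B) (y + T - B) ×ˢ Set.uIcc (-L0) L0))).mono_set ?_
      exact Set.prod_mono Set.uIoc_subset_uIcc Set.uIoc_subset_uIcc
    rw [e1]
    have e2 : ∫ _t in (-L0)..L0, (2 * δ * T + 4 * B) = 2 * L0 * (2 * δ * T + 4 * B) := by
      rw [intervalIntegral.integral_const, smul_eq_mul]
      ring
    have h3 : ∫ t in (-L0)..L0, ∫ w in (y + B)..(y + T - B), (D + δ - dr C Q0 (w - z i + t)) ≤
        ∫ _t in (-L0)..L0, (2 * δ * T + 4 * B) := by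
      refine intervalIntegral.integral_mono_on hL0 ?_ (by simp) ?_
      · refine Continuous.intervalIntegrable ?_ _ _
        exact intervalIntegral.continuous_parametric_intervalIntegral_of_continuous'
          (f := fun t w => D + δ - dr C Q0 (w - z i + t)) (by fun_prop) _ _
      · intro t ht
        rw [intervalIntegral.integral_sub (by simp)
          (Continuous.intervalIntegrable (by fun_prop) _ _), intervalIntegral.integral_const,
          smul_eq_mul]
        have h4 := IB_avg C hC hQp (y + B) (y + T - B) (t - z i)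
        have e5 : ∀ w, w + (t - z i) = w - z i + t := fun w => by ring
        simp only [e5] at h4
        have h6 : IB_F C (y + T) - IB_F C (y + T - B - z i + t) ≤ y + T - (y + T - B - z i + t) := by
          refine IB_lip C hC ?_
          have := ht.2
          linarith
        have h7 : IB_F C (y + B - z i + t + Q0) - IB_F C y ≤ y + B - z i + t + Q0 - y := by
          refine IB_lip C hC ?_
          have := ht.1
          linarith
        have h8 : 0 ≤ (D + δ) * B := by positivity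
        have := ht.1
        have := ht.2
        nlinarith
    refine h3.trans ?_
    rw [e2]
    nlinarith
  have hex : ∃ w ∈ Set.Icc (y + B) (y + T - B), ∑ i ∈ Finset.range k, φ i w ≤ 8 * r * δ * L0 := by
    by_contra hcon
    push Not at hcon
    have h1 : ∫ _w in (y + B)..(y + T - B), 8 * r * δ * L0 ≤
        ∫ w in (y + B)..(y + T - B), ∑ i ∈ Finset.range k, φ i w := by
      refine intervalIntegral.integral_mono_on (by linarith) (by simp) ?_ ?_
      · exact Continuous.intervalIntegrable (continuous_finsetSum _ fun i _ => hφc i) _ _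
      · intro w hw
        exact (hcon w hw).le
    rw [intervalIntegral.integral_finsetSum (fun i _ => (hφc i).intervalIntegrable _ _),
      intervalIntegral.integral_const, smul_eq_mul] at h1
    have h2 : ∑ i ∈ Finset.range k, ∫ w in (y + B)..(y + T - B), φ i w ≤
        k * (6 * δ * L0 * (T - 2 * B)) := by
      refine (Finset.sum_le_card_nsmul _ _ _ fun i hi => havg i (Finset.mem_range.1 hi)).trans ?_
      rw [Finset.card_range, nsmul_eq_mul]
    have hkr : (k : ℝ) + 1 ≤ r := by exact_mod_cast hk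
    have hk0 : (0 : ℝ) ≤ k := Nat.cast_nonneg k
    have hP : 0 < δ * L0 * (T - 2 * B) := by
      have : 0 < T - 2 * B := by linarith
      positivity
    have h3 : (y + T - B - (y + B)) * (8 * r * δ * L0) = 8 * r * (δ * L0 * (T - 2 * B)) := by ring
    have h4 : (k : ℝ) * (6 * δ * L0 * (T - 2 * B)) = 6 * k * (δ * L0 * (T - 2 * B)) := by ring
    rw [h3] at h1
    rw [h4] at h2
    have h5 : 6 * (k : ℝ) * (δ * L0 * (T - 2 * B)) < 8 * r * (δ * L0 * (T - 2 * B)) :=
      mul_lt_mul_of_pos_right (by linarith) hP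
    linarith
  obtain ⟨w, hw, hsum⟩ := hex
  have hnn : ∀ i < k, ∀ t ∈ Set.Icc (-L0) L0, 0 ≤ D + δ - dr C Q0 (w - z i + t) := by
    intro i hi t ht
    obtain ⟨hz1, hz2⟩ := hz i hi
    have h1 := hup (w - z i + t) (by have := hw.1; have := ht.1; linarith)
    linarith
  have hφn : ∀ i ∈ Finset.range k, 0 ≤ φ i w := by
    intro i hi
    exact intervalIntegral.integral_nonneg hL0 (hnn i (Finset.mem_range.1 hi))
  refine ⟨w, by have := hw.1; linarith, ?_⟩
  intro i hi
  have h1 : ∫ t in (-L0)..L0, max 0 (D - dr C Q0 (w - z i + t)) ≤ φ i w := by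
    refine intervalIntegral.integral_mono_on hL0
      (Continuous.intervalIntegrable (by fun_prop) _ _)
      (Continuous.intervalIntegrable (by fun_prop) _ _) ?_
    intro t ht
    refine max_le (hnn i hi t ht) ?_
    linarith
  exact (h1.trans (Finset.single_le_sum hφn (Finset.mem_range.2 hi))).trans hsum

theorem choose_z (C : Set ℝ) (hC : MeasurableSet C) (D δ Q0 : ℝ) (hQ : 1 ≤ Q0) (hδ : 0 < δ) (hD : D ≤ 1)
    (hup : ∀ y, 0 ≤ y → dr C Q0 y ≤ D + δ)
    (hlo : ∀ T0 : ℝ, ∃ T, T0 ≤ T ∧ ∃ y, 0 ≤ y ∧ (D - δ) * T ≤ (volume (C ∩ Set.Icc y (y + T))).toReal)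
    (r : ℕ) (L0 : ℝ) (hL : 1 ≤ L0) :
    ∃ z : Fin r → ℝ, ∀ i k, i < k → ∫ t in (-L0)..L0, max 0 (D - dr C Q0 (z k - z i + t)) ≤ 8 * r * δ * L0 := by
  have key : ∀ m : ℕ, m ≤ r → ∃ z : ℕ → ℝ, (∀ i < m, 0 ≤ z i) ∧ ∀ k < m, ∀ i < k,
      ∫ t in (-L0)..L0, max 0 (D - dr C Q0 (z k - z i + t)) ≤ 8 * r * δ * L0 := by
    intro m
    induction m with
    | zero =>
      intro _
      exact ⟨fun _ => 0, fun i hi => absurd hi (Nat.not_lt_zero _),
        fun k hk => absurd hk (Nat.not_lt_zero _)⟩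
    | succ m ih =>
      intro hm
      obtain ⟨z, hz, hzz⟩ := ih (by omega)
      have hB : ∀ i < m, z i ≤ ∑ j ∈ Finset.range m, z j := by
        intro i hi
        exact Finset.single_le_sum (f := z) (fun j hj => hz j (Finset.mem_range.1 hj))
          (Finset.mem_range.2 hi)
      obtain ⟨w, hw, hw2⟩ := IB_step C hC D δ Q0 hQ hδ hD hup hlo r L0 hL m (by omega) z
        (∑ j ∈ Finset.range m, z j)
        (Finset.sum_nonneg fun j hj => hz j (Finset.mem_range.1 hj))
        (fun i hi => ⟨hz i hi, hB i hi⟩)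
      refine ⟨fun i => if i = m then w else z i, ?_, ?_⟩
      · intro i hi
        by_cases h : i = m
        · simp only [h, if_true]
          exact hw
        · simp only [h, if_false]
          exact hz i (by omega)
      · intro k hk i hi
        have him : i ≠ m := by omega
        by_cases h : k = m
        · subst h
          simp only [if_true, if_neg him]
          exact hw2 i hi
        · simp only [if_neg him, if_neg h]
          exact hzz k (by omega) i hi
  obtain ⟨z, _, hz⟩ := key r le_rfl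
  exact ⟨fun i => z i, fun i k hik => hz k k.2 i hik⟩

end H86LP
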