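import Pool.Agent.H86.LP.SB
import Pool.Agent.H86.LP.IB

/-!
# IC: approximation by cells

`O = {t : z + t ∈ C}` open, `I = [-L0/2, L0/2]`, `S_n` the set of the integers `u` with `[L0 u/n, L0 (u+1)/n] ⊆ O`, `C_n` the union of these cells (`⊆ O`), `Q0 = L0/Λ'`, `w = n/Λ'`, `t_j = L0 j/n`.
* `vol((O ∩ I) \ C_n) → 0` as `n → ∞`: every `t ∈ O` is in `C_n` for all large `n` (a ball around `t` is in `O`; `t` is in a cell of length `L0/n`); dominated convergence (`tendsto_measure...` or `lintegral` of the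
  indicators, `vol I < ∞`). Choose `n0` with `vol((O ∩ I) \ C_n) ≤ η Q0/4` and `Λ'/n ≤ η/4` for `n ≥ n0`.
* `dz S_n w j = vol(C_n ∩ [t_j, t_j + Q0])/Q0` (`[t_j, t_j + Q0]` consists of `w` whole cells, a cell in `S_n` contributes `L0/n`, the others `0`; `w L0/n = Q0` because `Λ' ∣ n`).
* for `|j| ≤ n/5` and `t ∈ [t_j, t_(j+1)]`: `[t, t + Q0] ⊆ I` (`1/5 + 2/80 < 1/2`), so `dr C Q0 (z + t) = vol(O ∩ [t, t+Q0])/Q0 ≤ vol(C_n ∩ [t, t+Q0])/Q0 + η/4 ≤ dz S_n w j + Λ'/n + η/4` (shift by at most `L0/n`: change at most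
  `(L0/n)/Q0 = Λ'/n`), so `max 0 (D - dz S_n w j) ≤ max 0 (D - dr C Q0 (z + t)) + η/2`. Average over `t ∈ [t_j, t_(j+1)]` and sum over the at most `2n/5 + 1 ≤ n` values of `j`; the intervals are disjoint and
  contained in `[-L0, L0]`.
-/

set_option autoImplicit false

open Finset MeasureTheory

namespace H86LP

open Filter Topology

/-- The index of the cell of a point. -/
noncomputable def IC_u (L0 : ℝ) (n : ℕ) (t : ℝ) : ℤ := ⌊(n : ℝ) * t / L0⌋

theorem IC_meas (L0 : ℝ) (n : ℕ) : Measurable (IC_u L0 n) := by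
  unfold IC_u
  exact Int.measurable_floor.comp (by fun_prop)

theorem IC_mem {L0 : ℝ} (hL : 0 < L0) {n : ℕ} (hn : 0 < n) (t : ℝ) (j : ℤ) :
    IC_u L0 n t = j ↔ L0 * j / n ≤ t ∧ t < L0 * (j + 1) / n := by
  have hn' : (0 : ℝ) < n := by exact_mod_cast hn
  unfold IC_u
  rw [Int.floor_eq_iff, le_div_iff₀ hL, div_lt_iff₀ hL, div_le_iff₀ hn', lt_div_iff₀ hn']
  constructor
  · rintro ⟨h1, h2⟩
    exact ⟨by linarith, by linarith⟩
  · rintro ⟨h1, h2⟩
    exact ⟨by linarith, by linarith⟩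

theorem IC_bad (O : Set ℝ) (hO : IsOpen O) {L0 : ℝ} (hL : 0 < L0) {ε : ℝ} (hε : 0 < ε) :
    ∃ n0 : ℕ, ∀ n : ℕ, n0 ≤ n → volume.real {s : ℝ | s ∈ Set.Icc (-L0 / 2) (L0 / 2) ∧ s ∈ O ∧
      ¬ Set.Icc (L0 * (IC_u L0 n s) / n) (L0 * (IC_u L0 n s + 1) / n) ⊆ O} ≤ ε := by
  obtain ⟨B, hB⟩ : ∃ B : ℕ → Set ℝ, B = fun n => {s : ℝ | s ∈ Set.Icc (-L0 / 2) (L0 / 2) ∧ s ∈ O ∧
      ¬ Set.Icc (L0 * (IC_u L0 n s) / n) (L0 * (IC_u L0 n s + 1) / n) ⊆ O} := ⟨_, rfl⟩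
  have hBm : ∀ n, MeasurableSet (B n) := by
    intro n
    rw [hB]
    refine measurableSet_Icc.inter (hO.measurableSet.inter (MeasurableSet.compl ?_))
    exact (IC_meas L0 n) (MeasurableSet.of_discrete (s := {u : ℤ | Set.Icc (L0 * (u : ℝ) / n) (L0 * ((u : ℝ) + 1) / n) ⊆ O}))
  have hBI : ∀ n, B n ⊆ Set.Icc (-L0 / 2) (L0 / 2) := by
    intro n s hs
    rw [hB] at hs
    exact hs.1
  have hlim := tendsto_measure_iInter_atTop (μ := volume) (s := fun N : ℕ => ⋃ n ∈ Set.Ici N, B n)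
    (fun N => (MeasurableSet.biUnion (Set.to_countable _) fun n _ => hBm n).nullMeasurableSet)
    (fun N N' h => Set.biUnion_subset_biUnion_left (Set.Ici_subset_Ici.2 h))
    ⟨0, ((measure_mono (Set.iUnion₂_subset fun n _ => hBI n)).trans_lt
      (by rw [Real.volume_Icc]; exact ENNReal.ofReal_lt_top)).ne⟩
  have hemp : ⋂ N : ℕ, ⋃ n ∈ Set.Ici N, B n = ∅ := by
    refine Set.eq_empty_iff_forall_notMem.2 fun s hs => ?_
    rw [Set.mem_iInter] at hs
    have hsO : s ∈ O := by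
      obtain ⟨n, -, hn⟩ := Set.mem_iUnion₂.1 (hs 0)
      rw [hB] at hn
      exact hn.2.1
    obtain ⟨δ, hδ, hball⟩ := Metric.isOpen_iff.1 hO s hsO
    obtain ⟨N, hN⟩ := exists_nat_gt (L0 / δ)
    have hN0 : (0 : ℝ) < N := lt_of_le_of_lt (div_nonneg hL.le hδ.le) hN
    obtain ⟨n, hn, hn2⟩ := Set.mem_iUnion₂.1 (hs N)
    rw [hB] at hn2
    refine hn2.2.2 fun x hx => hball ?_
    have hnN : (N : ℝ) ≤ n := by exact_mod_cast hn
    have hn0 : (0 : ℝ) < n := lt_of_lt_of_le hN0 hnN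
    have h1 := (IC_mem hL (n := n) (by exact_mod_cast hn0) s (IC_u L0 n s)).1 rfl
    rw [div_lt_iff₀ hδ] at hN
    have h2 : L0 / n < δ := by
      rw [div_lt_iff₀ hn0]
      nlinarith
    have h3 : L0 * (IC_u L0 n s + 1) / n = L0 * (IC_u L0 n s) / n + L0 / n := by ring
    rw [Metric.mem_ball, Real.dist_eq, abs_lt]
    obtain ⟨h4, h5⟩ := hx
    obtain ⟨h6, h7⟩ := h1
    constructor <;> linarith
  rw [hemp, measure_empty] at hlim
  have hev := hlim.eventually (gt_mem_nhds (ENNReal.ofReal_pos.2 hε))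
  obtain ⟨n0, hn0⟩ := eventually_atTop.1 hev
  refine ⟨n0, fun n hn => ?_⟩
  have h1 := hn0 n hn
  have h2 : volume (B n) ≤ ENNReal.ofReal ε :=
    (measure_mono (Set.subset_biUnion_of_mem (u := B) (Set.mem_Ici.2 le_rfl))).trans h1.le
  have h3 : volume.real (B n) ≤ ε := ENNReal.toReal_le_of_le_ofReal hε.le h2
  rw [hB] at h3
  exact h3

theorem IC_vol {L0 : ℝ} (hL : 0 < L0) {n : ℕ} (hn : 0 < n) (j : ℤ) :
    {t : ℝ | IC_u L0 n t = j} = Set.Ico (L0 * j / n) (L0 * (j + 1) / n) := by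
  ext t
  exact IC_mem hL hn t j

theorem IC_volr {L0 : ℝ} (hL : 0 < L0) {n : ℕ} (hn : 0 < n) (j : ℤ) :
    volume.real {t : ℝ | IC_u L0 n t = j} = L0 / n := by
  rw [IC_vol hL hn, Real.volume_real_Ico_of_le]
  · ring
  · have hn' : (0 : ℝ) < n := by exact_mod_cast hn
    gcongr
    linarith

theorem IC_dr (C : Set ℝ) (Q z t : ℝ) :
    dr C Q (z + t) = volume.real ({t | z + t ∈ C} ∩ Set.Icc t (t + Q)) / Q := by
  unfold dr
  have h1 : {t | z + t ∈ C} ∩ Set.Icc t (t + Q) = (fun h => z + h) ⁻¹' (C ∩ Set.Icc (z + t) (z + t + Q)) := by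
    ext s
    simp only [Set.mem_inter_iff, Set.mem_ofPred_eq, Set.mem_Icc, Set.mem_preimage]
    constructor
    · rintro ⟨h1, h2, h3⟩
      exact ⟨h1, by linarith, by linarith⟩
    · rintro ⟨h1, h2, h3⟩
      exact ⟨h1, by linarith, by linarith⟩
  rw [h1, Measure.real, measure_preimage_add]

open Classical in
theorem IC_one (O : Set ℝ) {L0 : ℝ} (hL : 0 < L0) {n w : ℕ} (hn : 0 < n) {Q : ℝ} (hQ : (w : ℝ) * (L0 / n) = Q)
    (S : Set ℤ) (hS : S = {u : ℤ | Set.Icc (L0 * (u : ℝ) / n) (L0 * ((u : ℝ) + 1) / n) ⊆ O}) {β t : ℝ} (j : ℤ)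
    (hw : 0 < w)
    (hβ : volume.real {s : ℝ | s ∈ Set.Icc (-L0 / 2) (L0 / 2) ∧ s ∈ O ∧
      ¬ Set.Icc (L0 * (IC_u L0 n s) / n) (L0 * (IC_u L0 n s + 1) / n) ⊆ O} ≤ β)
    (ht : IC_u L0 n t = j) (hI : Set.Icc t (t + Q) ⊆ Set.Icc (-L0 / 2) (L0 / 2)) :
    volume.real (O ∩ Set.Icc t (t + Q)) ≤ β + (w * dz S w j + 1) * (L0 / n) := by
  have hn' : (0 : ℝ) < n := by exact_mod_cast hn
  have hw' : (0 : ℝ) < w := by exact_mod_cast hw
  obtain ⟨F, hF⟩ : ∃ F : Finset ℤ, F = (Finset.Icc j (j + w)).filter (fun u => u ∈ S) := ⟨_, rfl⟩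
  have hsub : O ∩ Set.Icc t (t + Q) ⊆ {s : ℝ | s ∈ Set.Icc (-L0 / 2) (L0 / 2) ∧ s ∈ O ∧
      ¬ Set.Icc (L0 * (IC_u L0 n s) / n) (L0 * (IC_u L0 n s + 1) / n) ⊆ O} ∪
      ⋃ u ∈ F, {s : ℝ | IC_u L0 n s = u} := by
    rintro s ⟨hsO, hs⟩
    by_cases hc : Set.Icc (L0 * (IC_u L0 n s) / n) (L0 * (IC_u L0 n s + 1) / n) ⊆ O
    · refine Or.inr (Set.mem_iUnion₂.2 ⟨IC_u L0 n s, ?_, rfl⟩)
      obtain ⟨h1, h2⟩ := (IC_mem hL hn t j).1 ht
      obtain ⟨h3, h4⟩ := (IC_mem hL hn s (IC_u L0 n s)).1 rfl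
      rw [hF, mem_filter, Finset.mem_Icc]
      refine ⟨⟨?_, ?_⟩, by rw [hS]; exact hc⟩
      · have h5 : L0 * (j : ℝ) / n < L0 * (IC_u L0 n s + 1) / n := lt_of_le_of_lt (h1.trans hs.1) h4
        rw [div_lt_div_iff_of_pos_right hn'] at h5
        have h6 := lt_of_mul_lt_mul_left h5 hL.le
        have h7 : j < IC_u L0 n s + 1 := by exact_mod_cast h6
        omega
      · have h5 : L0 * (IC_u L0 n s : ℝ) / n < L0 * ((j : ℝ) + w + 1) / n := by
          have e : L0 * ((j : ℝ) + w + 1) / n = L0 * (j + 1) / n + w * (L0 / n) := by ring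
          rw [e, hQ]
          linarith [hs.2]
        rw [div_lt_div_iff_of_pos_right hn'] at h5
        have h6 := lt_of_mul_lt_mul_left h5 hL.le
        have h7 : IC_u L0 n s < j + w + 1 := by exact_mod_cast h6
        omega
    · exact Or.inl ⟨hI hs, hsO, hc⟩
  have hfin : volume ({s : ℝ | s ∈ Set.Icc (-L0 / 2) (L0 / 2) ∧ s ∈ O ∧
      ¬ Set.Icc (L0 * (IC_u L0 n s) / n) (L0 * (IC_u L0 n s + 1) / n) ⊆ O} ∪
      ⋃ u ∈ F, {s : ℝ | IC_u L0 n s = u}) ≠ ⊤ := by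
    refine (measure_union_lt_top ?_ ?_).ne
    · refine (measure_mono (fun s hs => hs.1)).trans_lt (b := volume (Set.Icc (-L0 / 2) (L0 / 2))) ?_
      rw [Real.volume_Icc]
      exact ENNReal.ofReal_lt_top
    · refine measure_biUnion_lt_top F.finite_toSet fun u _ => ?_
      rw [IC_vol hL hn, Real.volume_Ico]
      exact ENNReal.ofReal_lt_top
  refine (measureReal_mono hsub hfin).trans ((measureReal_union_le _ _).trans (add_le_add hβ ?_))
  refine (measureReal_biUnion_finset_le _ _).trans ?_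
  simp only [IC_volr hL hn]
  rw [sum_const, nsmul_eq_mul]
  refine mul_le_mul_of_nonneg_right ?_ (by positivity)
  have h1 : F ⊆ insert (j + w) ((Finset.Ico j (j + w)).filter (fun u => u ∈ S)) := by
    intro u hu
    rw [hF, mem_filter, Finset.mem_Icc] at hu
    rw [mem_insert, mem_filter, Finset.mem_Ico]
    by_cases h : u = j + w
    · exact Or.inl h
    · exact Or.inr ⟨⟨hu.1.1, lt_of_le_of_ne hu.1.2 h⟩, hu.2⟩
  have h2 := (card_le_card h1).trans (card_insert_le _ _)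
  have h3 : (w : ℝ) * dz S w j = (((Finset.Ico j (j + w)).filter (fun u => u ∈ S)).card : ℝ) := by
    unfold dz
    field_simp
  rw [h3]
  exact_mod_cast h2

theorem cell_approx (C : Set ℝ) (hC : IsOpen C) (L0 : ℝ) (hL : 0 < L0) (Λ' : ℕ) (hΛ : 80 ≤ Λ') (D : ℝ) (z η : ℝ) (hη : 0 < η) :
    ∃ n0 : ℕ, ∀ n : ℕ, n0 ≤ n → 20 * Λ' ∣ n →
      ∑ j ∈ Finset.Icc (-((n / 5 : ℕ) : ℤ)) ((n / 5 : ℕ) : ℤ),
        max 0 (D - dz {u : ℤ | Set.Icc (L0 * u / n) (L0 * (u + 1) / n) ⊆ {t | z + t ∈ C}} (n / Λ') j) ≤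
      n / L0 * (∫ t in (-L0)..L0, max 0 (D - dr C (L0 / Λ') (z + t))) + η * n := by
  have hΛ0 : (0 : ℝ) < Λ' := by
    have : (80 : ℝ) ≤ Λ' := by exact_mod_cast hΛ
    linarith
  have hQ0 : 0 < L0 / Λ' := by positivity
  have hO : IsOpen {t : ℝ | z + t ∈ C} := hC.preimage (continuous_const.add continuous_id)
  obtain ⟨n1, hn1⟩ := IC_bad {t : ℝ | z + t ∈ C} hO hL (ε := η * (L0 / Λ') / 4) (by positivity)
  obtain ⟨n2, hn2⟩ := exists_nat_ge (4 * Λ' / η)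
  refine ⟨max 1 (max n1 n2), fun n hn hdvd => ?_⟩
  have hn0 : 0 < n := lt_of_lt_of_le one_pos ((le_max_left _ _).trans hn)
  have hn' : (0 : ℝ) < n := by exact_mod_cast hn0
  have hb := hn1 n ((le_max_left _ _).trans ((le_max_right _ _).trans hn))
  have hnΛ : Λ' / n ≤ η / 4 := by
    have h1 : (n2 : ℝ) ≤ n := by exact_mod_cast (le_max_right _ _).trans ((le_max_right _ _).trans hn)
    have h2 := hn2.trans h1
    rw [div_le_iff₀ hη] at h2
    rw [div_le_iff₀ hn']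
    linarith
  obtain ⟨w, hw⟩ : ∃ w, n = Λ' * w := (dvd_trans (dvd_mul_left Λ' 20) hdvd)
  have hwdiv : n / Λ' = w := by
    rw [hw]
    exact Nat.mul_div_cancel_left w (by omega)
  have hw0 : 0 < w := Nat.pos_of_ne_zero fun h => by
    rw [h, mul_zero] at hw
    omega
  have hn1600 : 1600 ≤ n := by
    have h1 := Nat.le_of_dvd hn0 hdvd
    omega
  have hn1600' : (1600 : ℝ) ≤ n := by exact_mod_cast hn1600
  have hQ : (w : ℝ) * (L0 / n) = L0 / Λ' := by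
    rw [hw]
    push_cast
    have : (w : ℝ) ≠ 0 := by exact_mod_cast hw0.ne'
    field_simp
  rw [hwdiv]
  obtain ⟨S, hS⟩ : ∃ S : Set ℤ, S = {u : ℤ | Set.Icc (L0 * (u : ℝ) / n) (L0 * ((u : ℝ) + 1) / n) ⊆ {t | z + t ∈ C}} :=
    ⟨_, rfl⟩
  rw [← hS]
  obtain ⟨f, hf⟩ : ∃ f : ℝ → ℝ, f = fun t => max 0 (D - dr C (L0 / Λ') (z + t)) := ⟨_, rfl⟩
  have hfc : Continuous f := by
    rw [hf]
    exact continuous_const.max (continuous_const.sub ((dr_cont C hC.measurableSet _ hQ0).comp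
      (continuous_const.add continuous_id)))
  have hf0 : ∀ t, 0 ≤ f t := fun t => by
    rw [hf]
    exact le_max_left _ _
  have hm5 : ((n / 5 : ℕ) : ℝ) ≤ n / 5 := Nat.cast_div_le
  have hrange : ∀ j ∈ Finset.Icc (-((n / 5 : ℕ) : ℤ)) ((n / 5 : ℕ) : ℤ), ∀ t : ℝ, IC_u L0 n t = j →
      -L0 / 5 ≤ t ∧ t ≤ L0 / 4 := by
    intro j hj t ht
    obtain ⟨h1, h2⟩ := (IC_mem hL hn0 t j).1 ht
    rw [Finset.mem_Icc] at hj
    have h3 : -((n : ℝ) / 5) ≤ j := by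
      have h5 := (Int.cast_le (R := ℝ)).2 hj.1
      rw [Int.cast_neg, Int.cast_natCast] at h5
      linarith
    have h4 : (j : ℝ) ≤ n / 5 := by
      have h5 := (Int.cast_le (R := ℝ)).2 hj.2
      rw [Int.cast_natCast] at h5
      linarith
    rw [div_le_iff₀ hn'] at h1
    rw [lt_div_iff₀ hn'] at h2
    constructor
    · refine le_of_mul_le_mul_right ?_ hn'
      nlinarith
    · refine le_of_mul_le_mul_right ?_ hn'
      nlinarith
  have hpt : ∀ j ∈ Finset.Icc (-((n / 5 : ℕ) : ℤ)) ((n / 5 : ℕ) : ℤ), ∀ t : ℝ, IC_u L0 n t = j →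
      max 0 (D - dz S w j) ≤ f t + η / 2 := by
    intro j hj t ht
    obtain ⟨h1, h2⟩ := hrange j hj t ht
    have hQle : L0 / Λ' ≤ L0 / 80 := by
      have : (80 : ℝ) ≤ Λ' := by exact_mod_cast hΛ
      gcongr
    have h3 := IC_one {t : ℝ | z + t ∈ C} hL (t := t) hn0 hQ S hS j hw0 hb ht (by
      intro s hs
      rw [Set.mem_Icc] at hs ⊢
      constructor <;> linarith [hs.1, hs.2])
    have h4 : dr C (L0 / Λ') (z + t) ≤ dz S w j + η / 2 := by
      rw [IC_dr, div_le_iff₀ hQ0]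
      refine h3.trans ?_
      have e : (w * dz S w j + 1) * (L0 / n) = dz S w j * (w * (L0 / n)) + L0 / n := by ring
      rw [e, hQ]
      have h5 : L0 / n ≤ η / 4 * (L0 / Λ') := by
        have h6 := mul_le_mul_of_nonneg_right hnΛ hQ0.le
        have h7 : (Λ' : ℝ) / n * (L0 / Λ') = L0 / n := by field_simp
        linarith
      linarith
    rw [hf]
    refine max_le ?_ ?_
    · have := le_max_left 0 (D - dr C (L0 / Λ') (z + t))
      simp only
      linarith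
    · have := le_max_right 0 (D - dr C (L0 / Λ') (z + t))
      simp only
      linarith
  have hAm : ∀ j : ℤ, MeasurableSet {t : ℝ | IC_u L0 n t = j} := fun j => by
    rw [IC_vol hL hn0]
    exact measurableSet_Ico
  have hfi : ∀ j : ℤ, IntegrableOn f {t : ℝ | IC_u L0 n t = j} := by
    intro j
    rw [IC_vol hL hn0]
    exact (hfc.integrableOn_Icc).mono_set Set.Ico_subset_Icc_self
  have hone : ∀ j ∈ Finset.Icc (-((n / 5 : ℕ) : ℤ)) ((n / 5 : ℕ) : ℤ),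
      max 0 (D - dz S w j) * (L0 / n) ≤ (∫ t in {t : ℝ | IC_u L0 n t = j}, f t) + η / 2 * (L0 / n) := by
    intro j hj
    have hfinj : volume {t : ℝ | IC_u L0 n t = j} ≠ ⊤ := by
      rw [IC_vol hL hn0, Real.volume_Ico]
      exact ENNReal.ofReal_ne_top
    have h1 : ∫ t in {t : ℝ | IC_u L0 n t = j}, (max 0 (D - dz S w j)) ≤
        ∫ t in {t : ℝ | IC_u L0 n t = j}, (f t + η / 2) := by
      refine setIntegral_mono_on (integrableOn_const hfinj) ((hfi j).add (integrableOn_const hfinj))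
        (hAm j) fun t ht => hpt j hj t ht
    rw [integral_add (hfi j) (integrableOn_const hfinj), setIntegral_const, setIntegral_const, smul_eq_mul,
      smul_eq_mul, IC_volr hL hn0] at h1
    linarith
  have hsum := sum_le_sum hone
  rw [sum_add_distrib, ← sum_mul, sum_const, nsmul_eq_mul, ← integral_biUnion_finset _ (fun j _ => hAm j) (by
    intro i _ j _ hij
    refine Set.disjoint_left.2 fun t h1 h2 => hij ?_
    exact h1.symm.trans h2) (fun j _ => hfi j)] at hsum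
  have hle : ∫ t in ⋃ j ∈ Finset.Icc (-((n / 5 : ℕ) : ℤ)) ((n / 5 : ℕ) : ℤ), {t : ℝ | IC_u L0 n t = j}, f t ≤
      ∫ t in (-L0)..L0, f t := by
    rw [intervalIntegral.integral_of_le (by linarith)]
    refine setIntegral_mono_set ((hfc.integrableOn_Icc).mono_set Set.Ioc_subset_Icc_self)
      (Eventually.of_forall fun t => hf0 t) (Eventually.of_forall fun t ht => ?_)
    obtain ⟨j, hj, hjt⟩ := Set.mem_iUnion₂.1 ht
    obtain ⟨h1, h2⟩ := hrange j hj t hjt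
    exact ⟨by linarith, by linarith⟩
  have hcard : ((Finset.Icc (-((n / 5 : ℕ) : ℤ)) ((n / 5 : ℕ) : ℤ)).card : ℝ) ≤ n := by
    rw [Int.card_Icc]
    have h1 : ((((n / 5 : ℕ) : ℤ) + 1 - -((n / 5 : ℕ) : ℤ)).toNat) ≤ n := by omega
    exact_mod_cast h1
  have h5 : (∑ j ∈ Finset.Icc (-((n / 5 : ℕ) : ℤ)) ((n / 5 : ℕ) : ℤ), max 0 (D - dz S w j)) * (L0 / n) ≤
      (∫ t in (-L0)..L0, f t) + n * (η / 2 * (L0 / n)) := by
    refine hsum.trans (add_le_add hle ?_)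
    exact mul_le_mul_of_nonneg_right hcard (by positivity)
  have h6 : ∑ j ∈ Finset.Icc (-((n / 5 : ℕ) : ℤ)) ((n / 5 : ℕ) : ℤ), max 0 (D - dz S w j) ≤
      ((∫ t in (-L0)..L0, f t) + n * (η / 2 * (L0 / n))) / (L0 / n) := by
    rw [le_div_iff₀ (by positivity)]
    exact h5
  refine h6.trans ?_
  have h7 : ((∫ t in (-L0)..L0, f t) + n * (η / 2 * (L0 / n))) / (L0 / n) =
      n / L0 * (∫ t in (-L0)..L0, f t) + η / 2 * n := by
    field_simp
  rw [h7, hf]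
  have h8 : η / 2 * n ≤ η * n := by nlinarith
  linarith

end H86LP
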