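import Pool.Agent.H86.LP.IA
import Pool.Agent.H86.LP.IC

/-!
# ID: assembly of the combinatorial theorem (PI helper86)
-/

set_option autoImplicit false

open Finset MeasureTheory

namespace H86LP

theorem ID_aux (r : ℕ) (hr : 2 ≤ r) (C : Set ℝ) (hC : IsOpen C) (hfree : ¬ ∃ y : Fin r → ℝ, ∀ i k, i < k → y k - y i ∈ C)
    (ε : ℝ) (hε : 0 < ε) (hε1 : ε ≤ 1) : ∃ T0 : ℝ, 0 < T0 ∧ ∀ T, T0 ≤ T → ∀ y : ℝ, 0 ≤ y →
      (volume (C ∩ Set.Icc y (y + T))).toReal ≤ (1 - 2 / (r : ℝ) + ε) * T := by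
  by_contra hcon
  push Not at hcon
  have hrr : (0 : ℝ) < r := by
    have : 0 < r := by omega
    exact_mod_cast this
  have hC' : MeasurableSet C := hC.measurableSet
  have h : ∀ T0 : ℝ, ∃ T, T0 ≤ T ∧ 0 < T ∧ ∃ y, 0 ≤ y ∧ (1 - 2 / (r : ℝ) + ε) * T < (volume (C ∩ Set.Icc y (y + T))).toReal := by
    intro T0
    obtain ⟨T, hT, y, hy, hv⟩ := hcon (max T0 1) (lt_of_lt_of_le one_pos (le_max_right _ _))
    exact ⟨T, (le_max_left _ _).trans hT, lt_of_lt_of_le one_pos ((le_max_right _ _).trans hT), y, hy, hv⟩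
  obtain ⟨δc, hδc, Λ, hΛ, H⟩ := cells r hr ε hε hε1
  obtain ⟨n0, hn0⟩ := H Λ le_rfl
  obtain ⟨δ, hδ⟩ : ∃ δ : ℝ, δ = δc / (16 * r) := ⟨_, rfl⟩
  have hδ0 : 0 < δ := by rw [hδ]; positivity
  obtain ⟨D, hdD, hD1, Q0, hQ0, hup, hlo⟩ := density_scale C hC' (1 - 2 / (r : ℝ) + ε) h δ hδ0
  have hQ0p : 0 < Q0 := by linarith
  have hΛr : (80 : ℝ) ≤ Λ := by exact_mod_cast hΛ
  have hΛ0 : (0 : ℝ) < Λ := by linarith
  obtain ⟨L0, hL0⟩ : ∃ L0 : ℝ, L0 = Q0 * Λ := ⟨_, rfl⟩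
  have hL01 : 1 ≤ L0 := by
    rw [hL0]
    nlinarith
  have hL00 : 0 < L0 := by linarith
  have hLQ : L0 / Λ = Q0 := by rw [hL0]; field_simp
  obtain ⟨z, hz⟩ := choose_z C hC' D δ Q0 hQ0 hδ0 hD1 (by
    intro y hy
    unfold dr
    rw [div_le_iff₀ hQ0p]
    exact hup y hy) hlo r L0 hL01
  have hz' : ∀ i k, i < k → ∫ t in (-L0)..L0, max 0 ((1 - 2 / (r : ℝ) + ε) - dr C (L0 / Λ) (z k - z i + t)) ≤ δc / 2 * L0 := by
    intro i k hik
    rw [hLQ]
    have hcont : ∀ D' : ℝ, Continuous (fun t : ℝ => max 0 (D' - dr C Q0 (z k - z i + t))) := by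
      intro D'
      have h1 : Continuous (fun t : ℝ => dr C Q0 (z k - z i + t)) :=
        (dr_cont C hC' Q0 hQ0p).comp (continuous_const.add continuous_id)
      exact continuous_const.max (continuous_const.sub h1)
    have h2 : ∫ t in (-L0)..L0, max 0 ((1 - 2 / (r : ℝ) + ε) - dr C Q0 (z k - z i + t)) ≤
        ∫ t in (-L0)..L0, max 0 (D - dr C Q0 (z k - z i + t)) := by
      refine intervalIntegral.integral_mono (by linarith) ((hcont _).intervalIntegrable _ _) ((hcont _).intervalIntegrable _ _) ?_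
      intro t
      exact max_le_max le_rfl (by linarith)
    refine h2.trans ((hz i k hik).trans (le_of_eq ?_))
    rw [hδ]
    field_simp
    norm_num
  choose nn hnn using fun a : Fin r × Fin r => cell_approx C hC L0 hL00 Λ hΛ (1 - 2 / (r : ℝ) + ε) (z a.2 - z a.1) (δc / 2)
    (by positivity)
  obtain ⟨n, hn⟩ : ∃ n : ℕ, n = 20 * Λ * (n0 + ∑ a, nn a + 1) := ⟨_, rfl⟩
  have hdvd : 20 * Λ ∣ n := ⟨_, hn⟩
  have hnb : n0 + ∑ a, nn a + 1 ≤ n := by
    rw [hn]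
    exact Nat.le_mul_of_pos_left _ (by omega)
  have hnpos : (0 : ℝ) < n := by
    have : 0 < n := by omega
    exact_mod_cast this
  obtain ⟨y, hy⟩ := hn0 n (by omega) hdvd
    (fun i k => {u : ℤ | Set.Icc (L0 * u / n) (L0 * (u + 1) / n) ⊆ {t | z k - z i + t ∈ C}}) (by
      intro i k hik
      have h1 : nn (i, k) ≤ ∑ a, nn a := Finset.single_le_sum (f := nn) (fun _ _ => Nat.zero_le _) (Finset.mem_univ (i, k))
      refine (hnn (i, k) n (by omega) hdvd).trans ?_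
      have h2 := hz' i k hik
      have h3 : (n : ℝ) / L0 * (∫ t in (-L0)..L0, max 0 ((1 - 2 / (r : ℝ) + ε) - dr C (L0 / Λ) (z k - z i + t))) ≤
          n / L0 * (δc / 2 * L0) := mul_le_mul_of_nonneg_left h2 (by positivity)
      have h4 : (n : ℝ) / L0 * (δc / 2 * L0) = δc / 2 * n := by field_simp
      simp only
      linarith)
  refine hfree ⟨fun i => z i + L0 * y i / n, fun i k hik => ?_⟩
  have h1 := hy i k hik
  have h2 : L0 * (y k - y i) / n ∈ Set.Icc (L0 * (⌊y k - y i⌋ : ℝ) / n) (L0 * ((⌊y k - y i⌋ : ℝ) + 1) / n) := by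
    constructor
    · have := Int.floor_le (y k - y i)
      gcongr
    · have := (Int.lt_floor_add_one (y k - y i)).le
      gcongr
  have h3 : z k - z i + L0 * (y k - y i) / n ∈ C := h1 h2
  have h4 : z k + L0 * y k / n - (z i + L0 * y i / n) = z k - z i + L0 * (y k - y i) / n := by ring
  show z k + L0 * y k / n - (z i + L0 * y i / n) ∈ C
  rw [h4]
  exact h3

/-- If no `r` real numbers have all their differences in the open set `C` then `C` has upper Banach density at most `1 - 2/r`. -/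
theorem banach_density (r : ℕ) (hr : 2 ≤ r) (C : Set ℝ) (hC : IsOpen C) (hfree : ¬ ∃ y : Fin r → ℝ, ∀ i k, i < k → y k - y i ∈ C)
    (ε : ℝ) (hε : 0 < ε) : ∃ T0 : ℝ, 0 < T0 ∧ ∀ T, T0 ≤ T → ∀ y : ℝ, 0 ≤ y →
      (volume (C ∩ Set.Icc y (y + T))).toReal ≤ (1 - 2 / (r : ℝ) + ε) * T := by
  obtain ⟨T0, hT0, H⟩ := ID_aux r hr C hC hfree (min ε 1) (lt_min hε one_pos) (min_le_right _ _)
  refine ⟨T0, hT0, fun T hT y hy => (H T hT y hy).trans ?_⟩
  have h1 := min_le_left ε 1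
  have h2 : 0 ≤ T := by linarith
  exact mul_le_mul_of_nonneg_right (by linarith) h2

end H86LP
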