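import Pool.Agent.H86.LP.FA

/-!
# KA: positivity of the kernels

Call `g : ZMod N → ℝ` positive definite if `ft g n = a_n` with real `a_n ≥ 0` for all `n` (`PD`).
* `PD_mul`: `ft (g h) n = ∑_m ft g m * ft h (n - m)` (`ft_inv` for `g`), so `g h` is positive definite, and `av (g h) = ft (g h) 0 ≥ ft g 0 * ft h 0 = av g * av h` (the term `m = 0`).
* `PD_fj`: `fj M (γ y) = M^(-1) ∑_{k,k' < M} ch ((k - k') γ y)`, so `ft (..) n = M^(-1) #{(k,k') : (k - k') γ = n} ≥ 0`, and at `n = 0` it is `≥ 1` (the `M` pairs `k = k'`).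
* `PD_ker`: induction on `Γ`. `one_le_av_ker`, `av_ker_erase` from `PD_mul`: `av (ker Γ M) ≥ av (ker (Γ.erase γ) M) * av (fj M (γ ·)) ≥ av (ker (Γ.erase γ) M)`.
* `ker_le`: `fj M y ≤ M` (triangle inequality).
-/

set_option autoImplicit false

open Finset

namespace H86LP

variable {N : ℕ} [NeZero N]

/-- positive definite -/
def PD (g : ZMod N → ℝ) : Prop := ∀ n, ∃ a : ℝ, 0 ≤ a ∧ ft g n = (a : ℂ)

theorem ft_zero (g : ZMod N → ℝ) : ft g 0 = (av g : ℂ) := by
  unfold ft av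
  have h : ∀ x : ZMod N, (g x : ℂ) * ch (-(0 * x)) = (g x : ℂ) := by
    intro x
    rw [zero_mul, neg_zero, ch_zero, mul_one]
  rw [sum_congr rfl fun x _ => h x]
  push_cast
  rfl

theorem KA_ft_mul (g h : ZMod N → ℝ) (n : ZMod N) :
    ft (fun y => g y * h y) n = ∑ m, ft g m * ft h (n - m) := by
  have h1 : ∀ x : ZMod N, ((g x * h x : ℝ) : ℂ) * ch (-(n * x)) =
      ∑ m, ft g m * ((h x : ℂ) * ch (-((n - m) * x))) := by
    intro x
    rw [Complex.ofReal_mul, ft_inv g x, sum_mul, sum_mul]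
    refine sum_congr rfl fun m _ => ?_
    have h2 : -((n - m) * x) = m * x + -(n * x) := by ring
    rw [h2, ch_add]
    ring
  have h3 : ft (fun y => g y * h y) n = (∑ x, ((g x * h x : ℝ) : ℂ) * ch (-(n * x))) / N := rfl
  rw [h3, sum_congr rfl fun x _ => h1 x, sum_comm, sum_div]
  refine sum_congr rfl fun m _ => ?_
  have h4 : ft h (n - m) = (∑ x, (h x : ℂ) * ch (-((n - m) * x))) / N := rfl
  rw [h4, ← mul_sum]
  ring

theorem PD_mul (g h : ZMod N → ℝ) (hg : PD g) (hh : PD h) :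
    PD (fun y => g y * h y) ∧ av g * av h ≤ av (fun y => g y * h y) := by
  choose a ha0 ha using hg
  choose b hb0 hb using hh
  have key : ∀ n, ft (fun y => g y * h y) n = ((∑ m, a m * b (n - m) : ℝ) : ℂ) := by
    intro n
    rw [KA_ft_mul]
    push_cast
    exact sum_congr rfl fun m _ => by rw [ha m, hb (n - m)]
  refine ⟨fun n => ⟨_, sum_nonneg fun m _ => mul_nonneg (ha0 m) (hb0 _), key n⟩, ?_⟩
  have h0 : av (fun y => g y * h y) = ∑ m, a m * b (0 - m) := by
    have := key 0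
    rw [ft_zero] at this
    exact_mod_cast this
  have h1 : av g = a 0 := by
    have := ha 0
    rw [ft_zero] at this
    exact_mod_cast this
  have h2 : av h = b 0 := by
    have := hb 0
    rw [ft_zero] at this
    exact_mod_cast this
  rw [h0, h1, h2]
  have h3 := single_le_sum (f := fun m => a m * b (0 - m))
    (fun m _ => mul_nonneg (ha0 m) (hb0 _)) (mem_univ (0 : ZMod N))
  simpa using h3

theorem fj_nonneg (M : ℕ) (y : ZMod N) : 0 ≤ fj M y := by
  unfold fj
  positivity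

theorem fj_le (M : ℕ) (y : ZMod N) : fj M y ≤ M := by
  unfold fj
  have h1 : ‖∑ k ∈ range M, ch ((k : ZMod N) * y)‖ ≤ M := by
    refine (norm_sum_le _ _).trans ?_
    have h2 : ∀ k ∈ range M, ‖ch ((k : ZMod N) * y)‖ = 1 := fun k _ => norm_ch _
    rw [sum_congr rfl h2]
    simp
  rcases Nat.eq_zero_or_pos M with h | h
  · subst h
    simp
  · have hM : (0 : ℝ) < M := by exact_mod_cast h
    rw [div_le_iff₀ hM]
    have := pow_le_pow_left₀ (norm_nonneg _) h1 2
    nlinarith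

theorem KA_fj_eq (M : ℕ) (γ y : ZMod N) : (fj M (γ * y) : ℂ) =
    (∑ k ∈ range M, ∑ l ∈ range M, ch (y * (((k : ZMod N) - (l : ZMod N)) * γ))) / M := by
  unfold fj
  push_cast
  rw [← Complex.mul_conj', map_sum, sum_mul_sum]
  congr 1
  refine sum_congr rfl fun k _ => sum_congr rfl fun l _ => ?_
  rw [← ch_neg, ← ch_add]
  congr 1
  ring

theorem KA_ft_fj (M : ℕ) (γ n : ZMod N) : ft (fun y => fj M (γ * y)) n =
    (((∑ k ∈ range M, ∑ l ∈ range M, (if ((k : ZMod N) - (l : ZMod N)) * γ - n = 0 then (1 : ℝ) else 0)) /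
      M : ℝ) : ℂ) := by
  have hN : (N : ℂ) ≠ 0 := by exact_mod_cast NeZero.ne N
  have h1 : ft (fun y => fj M (γ * y)) n =
      (∑ y, (fj M (γ * y) : ℂ) * ch (-(n * y))) / N := rfl
  have h2 : ∀ y : ZMod N, (fj M (γ * y) : ℂ) * ch (-(n * y)) =
      (∑ k ∈ range M, ∑ l ∈ range M, ch (y * (((k : ZMod N) - (l : ZMod N)) * γ - n))) / M := by
    intro y
    rw [KA_fj_eq, div_mul_eq_mul_div, sum_mul]
    congr 1
    refine sum_congr rfl fun k _ => ?_
    rw [sum_mul]
    refine sum_congr rfl fun l _ => ?_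
    rw [← ch_add]
    congr 1
    ring
  rw [h1, sum_congr rfl fun y _ => h2 y, ← sum_div, sum_comm]
  have h3 : ∀ k ∈ range M, (∑ y : ZMod N, ∑ l ∈ range M,
      ch (y * (((k : ZMod N) - (l : ZMod N)) * γ - n))) =
      ∑ l ∈ range M, (if ((k : ZMod N) - (l : ZMod N)) * γ - n = 0 then (N : ℂ) else 0) := by
    intro k _
    rw [sum_comm]
    exact sum_congr rfl fun l _ => sum_ch _
  rw [sum_congr rfl h3]
  push_cast
  rw [div_right_comm, sum_div]
  congr 1
  refine sum_congr rfl fun k _ => ?_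
  rw [sum_div]
  refine sum_congr rfl fun l _ => ?_
  by_cases h : ((k : ZMod N) - (l : ZMod N)) * γ - n = 0
  · rw [if_pos h, if_pos h, div_self hN, Complex.ofReal_one]
  · rw [if_neg h, if_neg h, zero_div, Complex.ofReal_zero]

theorem PD_fj (M : ℕ) (hM : 1 ≤ M) (γ : ZMod N) : PD (fun y => fj M (γ * y)) ∧ 1 ≤ av (fun y => fj M (γ * y)) := by
  have hM0 : (0 : ℝ) < M := by exact_mod_cast hM
  constructor
  · intro n
    refine ⟨_, ?_, KA_ft_fj M γ n⟩
    refine div_nonneg (sum_nonneg fun k _ => sum_nonneg fun l _ => ?_) hM0.le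
    split_ifs <;> norm_num
  · have h1 := KA_ft_fj M γ 0
    rw [ft_zero] at h1
    have h2 : av (fun y => fj M (γ * y)) = (∑ k ∈ range M, ∑ l ∈ range M,
        (if ((k : ZMod N) - (l : ZMod N)) * γ - 0 = 0 then (1 : ℝ) else 0)) / M := by exact_mod_cast h1
    rw [h2, le_div_iff₀ hM0, one_mul]
    have h3 : ∀ k ∈ range M, (1 : ℝ) ≤ ∑ l ∈ range M,
        (if ((k : ZMod N) - (l : ZMod N)) * γ - 0 = 0 then (1 : ℝ) else 0) := by
      intro k hk
      have h4 := single_le_sum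
        (f := fun l : ℕ => if ((k : ZMod N) - (l : ZMod N)) * γ - 0 = 0 then (1 : ℝ) else 0)
        (fun l _ => by
          split_ifs <;> norm_num) hk
      simpa using h4
    have h5 := sum_le_sum h3
    simpa using h5

theorem KA_ker_empty (M : ℕ) : ker (∅ : Finset (ZMod N)) M = fun _ => 1 := by
  funext y
  unfold ker
  rw [prod_empty]

theorem KA_ker_insert (Γ : Finset (ZMod N)) (M : ℕ) (γ : ZMod N) (hγ : γ ∉ Γ) :
    ker (insert γ Γ) M = fun y => fj M (γ * y) * ker Γ M y := by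
  funext y
  unfold ker
  rw [prod_insert hγ]

theorem PD_ker (Γ : Finset (ZMod N)) (M : ℕ) (hM : 1 ≤ M) : PD (ker Γ M) := by
  induction Γ using Finset.induction_on with
  | empty =>
    rw [KA_ker_empty]
    intro n
    refine ⟨if n = 0 then 1 else 0, by split_ifs <;> norm_num, ?_⟩
    have hN : (N : ℂ) ≠ 0 := by exact_mod_cast NeZero.ne N
    have h1 : ft (fun _ => (1 : ℝ)) n = (∑ x : ZMod N, ((1 : ℝ) : ℂ) * ch (-(n * x))) / N := rfl
    have h2 : ∀ x : ZMod N, ((1 : ℝ) : ℂ) * ch (-(n * x)) = ch (x * (-n)) := by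
      intro x
      rw [Complex.ofReal_one, one_mul]
      congr 1
      ring
    rw [h1, sum_congr rfl fun x _ => h2 x, sum_ch]
    by_cases h : n = 0
    · rw [if_pos h, if_pos (by rw [h, neg_zero]), div_self hN, Complex.ofReal_one]
    · rw [if_neg h, if_neg (by simpa using h), zero_div, Complex.ofReal_zero]
  | insert γ Γ hγ ih =>
    rw [KA_ker_insert Γ M γ hγ]
    exact (PD_mul _ _ (PD_fj M hM γ).1 ih).1

theorem ker_nonneg (Γ : Finset (ZMod N)) (M : ℕ) (y : ZMod N) : 0 ≤ ker Γ M y := by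
  unfold ker
  exact prod_nonneg fun γ _ => fj_nonneg M _

theorem ker_le (Γ : Finset (ZMod N)) (M : ℕ) (y : ZMod N) : ker Γ M y ≤ (M : ℝ) ^ Γ.card := by
  unfold ker
  rw [← prod_const]
  exact prod_le_prod (fun γ _ => fj_nonneg M _) fun γ _ => fj_le M _

theorem one_le_av_ker (Γ : Finset (ZMod N)) (M : ℕ) (hM : 1 ≤ M) : 1 ≤ av (ker Γ M) := by
  induction Γ using Finset.induction_on with
  | empty =>
    rw [KA_ker_empty]
    have hN : (N : ℝ) ≠ 0 := by exact_mod_cast NeZero.ne N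
    unfold av
    simp [ZMod.card, hN]
  | insert γ Γ hγ ih =>
    rw [KA_ker_insert Γ M γ hγ]
    have h1 := (PD_mul _ _ (PD_fj M hM γ).1 (PD_ker Γ M hM)).2
    have h2 := (PD_fj M hM γ).2
    have h3 : (1 : ℝ) * 1 ≤ av (fun y => fj M (γ * y)) * av (ker Γ M) :=
      mul_le_mul h2 ih zero_le_one (zero_le_one.trans h2)
    linarith

theorem av_ker_erase (Γ : Finset (ZMod N)) (M : ℕ) (hM : 1 ≤ M) (γ : ZMod N) (hγ : γ ∈ Γ) :
    av (ker (Γ.erase γ) M) ≤ av (ker Γ M) := by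
  have h0 : ker Γ M = fun y => fj M (γ * y) * ker (Γ.erase γ) M y := by
    rw [← KA_ker_insert (Γ.erase γ) M γ (notMem_erase γ Γ), insert_erase hγ]
  rw [h0]
  have h1 := (PD_mul _ _ (PD_fj M hM γ).1 (PD_ker (Γ.erase γ) M hM)).2
  have h2 := (PD_fj M hM γ).2
  have h3 := one_le_av_ker (Γ.erase γ) M hM
  have h4 : 1 * av (ker (Γ.erase γ) M) ≤
      av (fun y => fj M (γ * y)) * av (ker (Γ.erase γ) M) :=
    mul_le_mul_of_nonneg_right h2 (zero_le_one.trans h3)
  linarith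

end H86LP
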