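import Pool.Agent.H86.LP.KA

/-!
# KB: the normalised kernel

* `nu_nonneg`, `av_nu`, `nu_le` from `ker_nonneg`, `one_le_av_ker`, `ker_le`. `nu_neg`: `fj M (-y) = fj M y` (conjugation).
* `fj_mul`: `fj M y * ‖ch y - 1‖^2 = ‖ch (M y) - 1‖^2/M ≤ 4/M` (geometric sum, `ch (k y) = (ch y)^k`).
* `nu_moment`: `av (nu * ‖ch (γ y) - 1‖^2) = (av (ker Γ M))^(-1) av (ker (Γ.erase γ) M * (fj M (γ y) * ‖ch (γ y) - 1‖^2)) ≤ (4/M) av (ker (Γ.erase γ) M)/av (ker Γ M) ≤ 4/M` (`av_ker_erase`).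
* `ker_lip`: the Lipschitz bound `|ker Γ M (y + t) - ker Γ M y| ≤ M^(|Γ| + 1) dG Γ t`. Induction on `Γ`: `|fj M (γ (y + t)) - fj M (γ y)| ≤ M^2 ‖ch (γ t) - 1‖`
  (`fj M (γ y) = M^(-1) ∑_{k,k'} ch ((k - k') γ y)`, `‖ch ((k - k') γ t) - 1‖ ≤ M ‖ch (γ t) - 1‖`), `0 ≤ fj ≤ M`, `0 ≤ ker ≤ M^|Γ|`; product rule
  `|a' b' - a b| ≤ |a' - a| b' + a |b' - b|`.
* `nu_lip`: divide by `av (ker Γ M) ≥ 1`.
* `cv_lip`: `cv f (nu Γ M) (x + t) - cv f (nu Γ M) x = av_y f y (nu (x + t - y) - nu (x - y))` (substitution `y → x - y`), `|f| ≤ 1`.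
* `cv_bounds`: `0 ≤ f ≤ 1` gives `0 ≤ cv f (nu Γ M) ≤ 1` (`nu ≥ 0`, `av nu = 1`).
-/

set_option autoImplicit false

open Finset

namespace H86LP

variable {N : ℕ} [NeZero N]

theorem KB_Npos : (0 : ℝ) < N := by
  exact_mod_cast Nat.pos_of_ne_zero (NeZero.ne N)

theorem KB_av_mono {f g : ZMod N → ℝ} (h : ∀ y, f y ≤ g y) : av f ≤ av g := by
  unfold av
  exact div_le_div_of_nonneg_right (Finset.sum_le_sum fun y _ => h y) KB_Npos.le

theorem KB_av_nonneg {f : ZMod N → ℝ} (h : ∀ y, 0 ≤ f y) : 0 ≤ av f := by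
  unfold av
  exact div_nonneg (Finset.sum_nonneg fun y _ => h y) KB_Npos.le

theorem KB_av_mul (c : ℝ) (f : ZMod N → ℝ) : av (fun y => c * f y) = c * av f := by
  unfold av
  rw [← Finset.mul_sum, mul_div_assoc]

theorem KB_av_const (c : ℝ) : av (fun _ : ZMod N => c) = c := by
  unfold av
  have h := (KB_Npos (N := N)).ne'
  rw [Finset.sum_const, Finset.card_univ, ZMod.card, nsmul_eq_mul]
  field_simp

theorem KB_av_sub (f g : ZMod N → ℝ) : av (fun y => f y - g y) = av f - av g := by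
  unfold av
  rw [Finset.sum_sub_distrib, sub_div]

theorem KB_av_abs {f : ZMod N → ℝ} {B : ℝ} (h : ∀ y, |f y| ≤ B) : |av f| ≤ B := by
  rw [abs_le]
  constructor
  · have := KB_av_mono (f := fun _ : ZMod N => -B) (g := f) (fun y => (abs_le.1 (h y)).1)
    rwa [KB_av_const] at this
  · have := KB_av_mono (f := f) (g := fun _ : ZMod N => B) (fun y => (abs_le.1 (h y)).2)
    rwa [KB_av_const] at this

theorem KB_Apos (Γ : Finset (ZMod N)) (M : ℕ) (hM : 1 ≤ M) : 0 < av (ker Γ M) :=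
  lt_of_lt_of_le one_pos (one_le_av_ker Γ M hM)

theorem KB_ch_norm (x : ZMod N) : ‖ch x‖ = 1 := by
  unfold ch
  exact AddChar.norm_apply _ _

theorem KB_ch_nat (k : ℕ) (y : ZMod N) : ch ((k : ZMod N) * y) = ch y ^ k := by
  unfold ch
  rw [← nsmul_eq_mul, AddChar.map_nsmul_eq_pow]

theorem KB_pow (z : ℂ) (hz : ‖z‖ = 1) (k : ℕ) : ‖z ^ k - 1‖ ≤ k * ‖z - 1‖ := by
  induction k with
  | zero => simp
  | succ k ih =>
    have h : z ^ (k + 1) - 1 = z * (z ^ k - 1) + (z - 1) := by ring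
    rw [h]
    refine (norm_add_le _ _).trans ?_
    rw [norm_mul, hz, one_mul]
    push_cast
    linarith

theorem nu_nonneg (Γ : Finset (ZMod N)) (M : ℕ) (hM : 1 ≤ M) (y : ZMod N) : 0 ≤ nu Γ M y := by
  unfold nu
  exact div_nonneg (ker_nonneg Γ M y) (KB_Apos Γ M hM).le

theorem av_nu (Γ : Finset (ZMod N)) (M : ℕ) (hM : 1 ≤ M) : av (nu Γ M) = 1 := by
  have hA := KB_Apos Γ M hM
  have h : nu Γ M = fun y => (av (ker Γ M))⁻¹ * ker Γ M y := by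
    funext y; unfold nu; rw [div_eq_inv_mul]
  rw [h, KB_av_mul]
  exact inv_mul_cancel₀ hA.ne'

theorem nu_le (Γ : Finset (ZMod N)) (M : ℕ) (hM : 1 ≤ M) (y : ZMod N) : nu Γ M y ≤ (M : ℝ) ^ Γ.card := by
  unfold nu
  exact (div_le_self (ker_nonneg Γ M y) (one_le_av_ker Γ M hM)).trans (ker_le Γ M y)

theorem KB_ch_neg (x : ZMod N) : ch (-x) = (starRingEnd ℂ) (ch x) := by
  unfold ch
  exact AddChar.map_neg_eq_conj _ _

theorem nu_neg (Γ : Finset (ZMod N)) (M : ℕ) (y : ZMod N) : nu Γ M (-y) = nu Γ M y := by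
  have h1 : ∀ z : ZMod N, fj M (-z) = fj M z := by
    intro z
    unfold fj
    have h : ∑ k ∈ range M, ch ((k : ZMod N) * (-z)) = (starRingEnd ℂ) (∑ k ∈ range M, ch ((k : ZMod N) * z)) := by
      rw [map_sum]
      refine Finset.sum_congr rfl fun k _ => ?_
      rw [mul_neg, KB_ch_neg]
    rw [h, RCLike.norm_conj]
  unfold nu ker
  congr 1
  refine Finset.prod_congr rfl fun γ _ => ?_
  rw [mul_neg, h1]

theorem fj_mul (M : ℕ) (hM : 1 ≤ M) (y : ZMod N) : fj M y * ‖ch y - 1‖ ^ 2 ≤ 4 / M := by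
  have hM0 : (0 : ℝ) < M := by exact_mod_cast hM
  have h : (∑ k ∈ range M, ch ((k : ZMod N) * y)) * (ch y - 1) = ch y ^ M - 1 := by
    simp_rw [KB_ch_nat]
    exact geom_sum_mul _ _
  have h2 : ‖ch y ^ M - 1‖ ≤ 2 := by
    refine (norm_sub_le _ _).trans ?_
    rw [norm_pow, KB_ch_norm, one_pow, norm_one]; norm_num
  unfold fj
  rw [div_mul_eq_mul_div, ← mul_pow, ← norm_mul, h]
  refine div_le_div_of_nonneg_right ?_ hM0.le
  nlinarith [norm_nonneg (ch y ^ M - 1)]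

theorem nu_moment (Γ : Finset (ZMod N)) (M : ℕ) (hM : 1 ≤ M) (γ : ZMod N) (hγ : γ ∈ Γ) :
    av (fun y => nu Γ M y * ‖ch (γ * y) - 1‖ ^ 2) ≤ 4 / M := by
  have hA := KB_Apos Γ M hM
  have hM0 : (0 : ℝ) < M := by exact_mod_cast hM
  have h1 : ∀ y, nu Γ M y * ‖ch (γ * y) - 1‖ ^ 2 ≤ (4 / M / av (ker Γ M)) * ker (Γ.erase γ) M y := by
    intro y
    have h2 : ker Γ M y = fj M (γ * y) * ker (Γ.erase γ) M y := by
      unfold ker
      exact (Finset.mul_prod_erase Γ (fun γ => fj M (γ * y)) hγ).symm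
    have h3 := fj_mul M hM (γ * y)
    have h4 := ker_nonneg (Γ.erase γ) M y
    unfold nu
    rw [h2, div_mul_eq_mul_div, div_mul_eq_mul_div]
    refine div_le_div_of_nonneg_right ?_ hA.le
    calc fj M (γ * y) * ker (Γ.erase γ) M y * ‖ch (γ * y) - 1‖ ^ 2
        = (fj M (γ * y) * ‖ch (γ * y) - 1‖ ^ 2) * ker (Γ.erase γ) M y := by ring
      _ ≤ 4 / M * ker (Γ.erase γ) M y := mul_le_mul_of_nonneg_right h3 h4
  refine (KB_av_mono h1).trans ?_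
  rw [KB_av_mul]
  have h5 := av_ker_erase Γ M hM γ hγ
  rw [div_mul_eq_mul_div, div_le_iff₀ hA]
  exact mul_le_mul_of_nonneg_left h5 (by positivity)

theorem KB_fj_lip (M : ℕ) (hM : 1 ≤ M) (u s : ZMod N) : |fj M (u + s) - fj M u| ≤ (M : ℝ) ^ 2 * ‖ch s - 1‖ := by
  have hM0 : (0 : ℝ) < M := by exact_mod_cast hM
  set S : ZMod N → ℂ := fun v => ∑ k ∈ range M, ch ((k : ZMod N) * v) with hS
  have hSb : ∀ v, ‖S v‖ ≤ M := by
    intro v
    refine (norm_sum_le _ _).trans ?_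
    simp [KB_ch_norm]
  have hsum : ∀ m : ℕ, ∑ k ∈ range m, (k : ℝ) ≤ (m : ℝ) ^ 2 / 2 := by
    intro m
    induction m with
    | zero => simp
    | succ m ih => rw [Finset.sum_range_succ]; push_cast; nlinarith
  have hd : ‖S (u + s) - S u‖ ≤ (M : ℝ) ^ 2 / 2 * ‖ch s - 1‖ := by
    have e : S (u + s) - S u = ∑ k ∈ range M, ch ((k : ZMod N) * u) * (ch s ^ k - 1) := by
      simp only [hS]
      rw [← Finset.sum_sub_distrib]
      refine Finset.sum_congr rfl fun k _ => ?_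
      rw [← KB_ch_nat k s, mul_add]
      unfold ch
      rw [AddChar.map_add_eq_mul]
      ring
    rw [e]
    refine (norm_sum_le _ _).trans ?_
    calc ∑ k ∈ range M, ‖ch ((k : ZMod N) * u) * (ch s ^ k - 1)‖ ≤ ∑ k ∈ range M, (k : ℝ) * ‖ch s - 1‖ := by
          refine Finset.sum_le_sum fun k _ => ?_
          rw [norm_mul, KB_ch_norm, one_mul]
          exact KB_pow _ (KB_ch_norm s) k
      _ = (∑ k ∈ range M, (k : ℝ)) * ‖ch s - 1‖ := by rw [Finset.sum_mul]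
      _ ≤ _ := mul_le_mul_of_nonneg_right (hsum M) (norm_nonneg _)
  have hf : ∀ v, fj M v = ‖S v‖ ^ 2 / M := fun v => rfl
  rw [hf, hf, ← sub_div, abs_div, abs_of_pos hM0, div_le_iff₀ hM0]
  have h1 : |‖S (u + s)‖ - ‖S u‖| ≤ ‖S (u + s) - S u‖ := abs_norm_sub_norm_le _ _
  have h2 : ‖S (u + s)‖ ^ 2 - ‖S u‖ ^ 2 = (‖S (u + s)‖ - ‖S u‖) * (‖S (u + s)‖ + ‖S u‖) := by ring
  rw [h2, abs_mul, abs_of_nonneg (show 0 ≤ ‖S (u + s)‖ + ‖S u‖ by positivity)]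
  have h3 : ‖S (u + s)‖ + ‖S u‖ ≤ 2 * M := by linarith [hSb (u + s), hSb u]
  calc |‖S (u + s)‖ - ‖S u‖| * (‖S (u + s)‖ + ‖S u‖) ≤ ((M : ℝ) ^ 2 / 2 * ‖ch s - 1‖) * (2 * M) :=
        mul_le_mul (h1.trans hd) h3 (by positivity) (by positivity)
    _ = (M : ℝ) ^ 2 * ‖ch s - 1‖ * M := by ring

theorem ker_lip (Γ : Finset (ZMod N)) (M : ℕ) (hM : 1 ≤ M) (y t : ZMod N) :
    |ker Γ M (y + t) - ker Γ M y| ≤ (M : ℝ) ^ (Γ.card + 1) * dG Γ t := by
  classical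
  have hM0 : (0 : ℝ) < M := by exact_mod_cast hM
  induction Γ using Finset.induction_on with
  | empty => simp [ker, dG]
  | insert γ Γ hγ ih =>
    have e : ∀ z, ker (insert γ Γ) M z = fj M (γ * z) * ker Γ M z := by
      intro z; unfold ker; rw [Finset.prod_insert hγ]
    have e2 : dG (insert γ Γ) t = ‖ch (γ * t) - 1‖ + dG Γ t := by
      unfold dG; rw [Finset.sum_insert hγ]
    rw [e, e, e2, Finset.card_insert_of_notMem hγ, mul_add γ y t]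
    have h1 := KB_fj_lip M hM (γ * y) (γ * t)
    have h2 := fj_nonneg M (γ * y)
    have h3 := fj_le M (γ * y)
    have h4 := ker_nonneg Γ M (y + t)
    have h5 := ker_le Γ M (y + t)
    have h6 : fj M (γ * y + γ * t) * ker Γ M (y + t) - fj M (γ * y) * ker Γ M y
        = (fj M (γ * y + γ * t) - fj M (γ * y)) * ker Γ M (y + t) + fj M (γ * y) * (ker Γ M (y + t) - ker Γ M y) := by
      ring
    rw [h6]
    refine (abs_add_le _ _).trans ?_
    rw [abs_mul, abs_mul, abs_of_nonneg h4, abs_of_nonneg h2]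
    have a1 : |fj M (γ * y + γ * t) - fj M (γ * y)| * ker Γ M (y + t)
        ≤ ((M : ℝ) ^ 2 * ‖ch (γ * t) - 1‖) * (M : ℝ) ^ Γ.card :=
      mul_le_mul h1 h5 h4 (by positivity)
    have hdG : 0 ≤ dG Γ t := by unfold dG; positivity
    have a2 : fj M (γ * y) * |ker Γ M (y + t) - ker Γ M y| ≤ M * ((M : ℝ) ^ (Γ.card + 1) * dG Γ t) :=
      mul_le_mul h3 ih (abs_nonneg _) hM0.le
    calc _ ≤ ((M : ℝ) ^ 2 * ‖ch (γ * t) - 1‖) * (M : ℝ) ^ Γ.card + M * ((M : ℝ) ^ (Γ.card + 1) * dG Γ t) :=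
          add_le_add a1 a2
      _ = _ := by ring

theorem nu_lip (Γ : Finset (ZMod N)) (M : ℕ) (hM : 1 ≤ M) (y t : ZMod N) :
    |nu Γ M (y + t) - nu Γ M y| ≤ (M : ℝ) ^ (Γ.card + 1) * dG Γ t := by
  have hA := KB_Apos Γ M hM
  unfold nu
  rw [← sub_div, abs_div, abs_of_pos hA]
  exact (div_le_self (abs_nonneg _) (one_le_av_ker Γ M hM)).trans (ker_lip Γ M hM y t)

theorem KB_cv (f g : ZMod N → ℝ) (x : ZMod N) : cv f g x = av (fun y => f y * g (x - y)) := by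
  unfold cv av
  congr 1
  refine Fintype.sum_equiv (Equiv.subLeft x) _ _ fun y => ?_
  simp

theorem cv_lip (f : ZMod N → ℝ) (hf : ∀ x, |f x| ≤ 1) (Γ : Finset (ZMod N)) (M : ℕ) (hM : 1 ≤ M) (x t : ZMod N) :
    |cv f (nu Γ M) (x + t) - cv f (nu Γ M) x| ≤ (M : ℝ) ^ (Γ.card + 1) * dG Γ t := by
  rw [KB_cv, KB_cv, ← KB_av_sub]
  refine KB_av_abs fun y => ?_
  rw [← mul_sub, abs_mul]
  have h1 := nu_lip Γ M hM (x - y) t
  have h2 : x + t - y = x - y + t := by ring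
  rw [h2]
  calc |f y| * |nu Γ M (x - y + t) - nu Γ M (x - y)| ≤ 1 * |nu Γ M (x - y + t) - nu Γ M (x - y)| :=
        mul_le_mul_of_nonneg_right (hf y) (abs_nonneg _)
    _ ≤ _ := by rw [one_mul]; exact h1

theorem cv_bounds (f : ZMod N → ℝ) (hf : ∀ x, 0 ≤ f x ∧ f x ≤ 1) (Γ : Finset (ZMod N)) (M : ℕ) (hM : 1 ≤ M) (x : ZMod N) :
    0 ≤ cv f (nu Γ M) x ∧ cv f (nu Γ M) x ≤ 1 := by
  unfold cv
  constructor
  · exact KB_av_nonneg fun y => mul_nonneg (hf _).1 (nu_nonneg Γ M hM y)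
  · rw [← av_nu Γ M hM]
    exact KB_av_mono fun y => mul_le_of_le_one_left (nu_nonneg Γ M hM y) (hf _).2

end H86LP
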