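import Pool.Agent.H86.LP.KB

/-!
# KC: the Fourier transform of the kernel; energy step

* `ft_nu`: `nu` is a positive multiple of the positive definite `ker`, so `ft (nu Γ M) n` is real and `≥ 0`. `nh_le_one`: `|ft nu n| ≤ av nu = 1`.
  `sum_nh`: `∑_n ft nu n = nu 0` (`ft_inv` at `0`) `≤ M^|Γ|`.
* `nh_mem`: `1 - nh γ = av (nu (1 - Re ch (γ y))) = (1/2) av (nu ‖ch (γ y) - 1‖^2) ≤ 2/M` (`‖z - 1‖^2 = 2 (1 - Re z)` for `|z| = 1`).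
* `energy_step`: Parseval and `ft_cv`: with `F = |ft f n|^2`, `a = nh Γ M n`, `a' = nh Γ' M' n`: `∑ F (a' - a)^2 - (∑ F a'^2 - ∑ F a^2) = ∑ 2 F a (a - a')`. For `n ∈ Γ'`:
  `a (a - a') ≤ 1 - a' ≤ 2/M'`, total `≤ 2 * (2/M') * ∑ F ≤ 2 * 2/M'` (`∑ F = av f^2 ≤ 1`). For `n ∉ Γ'`: `F ≤ κ^2`, `a (a - a') ≤ a`, total `≤ 2 κ^2 ∑ a ≤ 2 κ^2 M^|Γ|`.
* `unif`: `ft (f - cv f nu) n = ft f n (1 - nh n)`.
-/

set_option autoImplicit false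

open Finset

namespace H86LP

variable {N : ℕ} [NeZero N]

theorem KC_norm_ft_le (g : ZMod N → ℝ) (n : ZMod N) : ‖ft g n‖ ≤ av (fun x => |g x|) := by
  have hN : (0 : ℝ) < (N : ℝ) := by exact_mod_cast Nat.pos_of_ne_zero (NeZero.ne N)
  unfold ft av
  rw [norm_div, Complex.norm_natCast]
  refine div_le_div_of_nonneg_right ((norm_sum_le _ _).trans (Finset.sum_le_sum fun x _ => ?_)) hN.le
  rw [norm_mul, norm_ch, mul_one, Complex.norm_real, Real.norm_eq_abs]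

theorem KC_av_le_one (g : ZMod N → ℝ) (hg : ∀ x, g x ≤ 1) : av g ≤ 1 := by
  have hN : (0 : ℝ) < (N : ℝ) := by exact_mod_cast Nat.pos_of_ne_zero (NeZero.ne N)
  unfold av
  rw [div_le_one hN]
  calc ∑ x, g x ≤ ∑ _x : ZMod N, (1 : ℝ) := Finset.sum_le_sum fun x _ => hg x
    _ = N := by rw [Finset.sum_const, Finset.card_univ, ZMod.card, nsmul_eq_mul, mul_one]

theorem KC_exists (Γ : Finset (ZMod N)) (M : ℕ) (hM : 1 ≤ M) (n : ZMod N) :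
    ∃ b : ℝ, 0 ≤ b ∧ ft (nu Γ M) n = (b : ℂ) := by
  obtain ⟨a, ha, hf⟩ := PD_ker Γ M hM n
  have hA : 1 ≤ av (ker Γ M) := one_le_av_ker Γ M hM
  have hA0 : 0 < av (ker Γ M) := by linarith
  refine ⟨a / av (ker Γ M), div_nonneg ha hA0.le, ?_⟩
  have h1 : ft (nu Γ M) n = ft (ker Γ M) n / ((av (ker Γ M) : ℝ) : ℂ) := by
    unfold ft
    rw [div_right_comm]
    congr 1
    rw [Finset.sum_div]
    refine Finset.sum_congr rfl fun x _ => ?_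
    unfold nu
    rw [Complex.ofReal_div]
    ring
  rw [h1, hf, Complex.ofReal_div]

theorem KC_av_sq_le (f : ZMod N → ℝ) (hf : ∀ x, |f x| ≤ 1) : av (fun x => f x ^ 2) ≤ 1 := by
  refine KC_av_le_one _ fun x => ?_
  rw [← sq_abs]
  exact pow_le_one₀ (abs_nonneg _) (hf x)

theorem ft_nu (Γ : Finset (ZMod N)) (M : ℕ) (hM : 1 ≤ M) (n : ZMod N) : ft (nu Γ M) n = (nh Γ M n : ℂ) := by
  obtain ⟨b, _, hb⟩ := KC_exists Γ M hM n
  unfold nh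
  rw [hb, Complex.ofReal_re]

theorem nh_nonneg (Γ : Finset (ZMod N)) (M : ℕ) (hM : 1 ≤ M) (n : ZMod N) : 0 ≤ nh Γ M n := by
  obtain ⟨b, hb0, hb⟩ := KC_exists Γ M hM n
  unfold nh
  rw [hb, Complex.ofReal_re]
  exact hb0

theorem nh_le_one (Γ : Finset (ZMod N)) (M : ℕ) (hM : 1 ≤ M) (n : ZMod N) : nh Γ M n ≤ 1 := by
  have h1 : nh Γ M n ≤ ‖ft (nu Γ M) n‖ := Complex.re_le_norm _
  have h2 := KC_norm_ft_le (nu Γ M) n
  have h3 : av (fun x => |nu Γ M x|) = 1 := by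
    rw [← av_nu Γ M hM]
    congr 1
    funext x
    exact abs_of_nonneg (nu_nonneg Γ M hM x)
  linarith

theorem sum_nh (Γ : Finset (ZMod N)) (M : ℕ) (hM : 1 ≤ M) : ∑ n, nh Γ M n ≤ (M : ℝ) ^ Γ.card := by
  have h1 : ((∑ n, nh Γ M n : ℝ) : ℂ) = ((nu Γ M 0 : ℝ) : ℂ) := by
    rw [ft_inv (nu Γ M) 0, Complex.ofReal_sum]
    refine Finset.sum_congr rfl fun n _ => ?_
    rw [mul_zero, ch_zero, mul_one, ft_nu Γ M hM n]
  have h2 : ∑ n, nh Γ M n = nu Γ M 0 := Complex.ofReal_injective h1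
  rw [h2]
  exact nu_le Γ M hM 0

theorem nh_mem (Γ : Finset (ZMod N)) (M : ℕ) (hM : 1 ≤ M) (γ : ZMod N) (hγ : γ ∈ Γ) : 1 - 2 / (M : ℝ) ≤ nh Γ M γ := by
  have hN : (0 : ℝ) < (N : ℝ) := by exact_mod_cast Nat.pos_of_ne_zero (NeZero.ne N)
  have hre : nh Γ M γ = av (fun y => nu Γ M y * (ch (γ * y)).re) := by
    unfold nh ft av
    have e1 : ((∑ x, ((nu Γ M x : ℝ) : ℂ) * ch (-(γ * x))) / (N : ℂ)).re =
        (∑ x, ((nu Γ M x : ℝ) : ℂ) * ch (-(γ * x))).re / (N : ℝ) := by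
      rw [← Complex.ofReal_natCast, Complex.div_ofReal_re]
    rw [e1, Complex.re_sum]
    congr 1
    refine Finset.sum_congr rfl fun x _ => ?_
    rw [Complex.re_ofReal_mul, ch_neg, Complex.conj_re]
  have hsq : ∀ z : ZMod N, ‖ch z - 1‖ ^ 2 = 2 * (1 - (ch z).re) := by
    intro z
    have h1 : ‖ch z‖ ^ 2 = 1 := by rw [norm_ch, one_pow]
    rw [← Complex.normSq_eq_norm_sq, Complex.normSq_apply] at h1 ⊢
    simp only [Complex.sub_re, Complex.sub_im, Complex.one_re, Complex.one_im, sub_zero]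
    nlinarith
  have h2 := nu_moment Γ M hM γ hγ
  have h3 : av (fun y => nu Γ M y * ‖ch (γ * y) - 1‖ ^ 2) = 2 * (1 - nh Γ M γ) := by
    rw [hre]
    have h4 := av_nu Γ M hM
    unfold av at h4 ⊢
    have e5 : (∑ x, nu Γ M x * ‖ch (γ * x) - 1‖ ^ 2) =
        2 * (∑ x, nu Γ M x) - 2 * (∑ x, nu Γ M x * (ch (γ * x)).re) := by
      rw [Finset.mul_sum, Finset.mul_sum, ← Finset.sum_sub_distrib]
      refine Finset.sum_congr rfl fun x _ => ?_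
      rw [hsq]
      ring
    rw [e5, sub_div, mul_div_assoc, h4]
    ring
  rw [h3] at h2
  have h6 : (4 : ℝ) / M = 2 * (2 / M) := by ring
  rw [h6] at h2
  linarith

theorem energy_step (f : ZMod N → ℝ) (hf : ∀ x, |f x| ≤ 1) (Γ Γ' : Finset (ZMod N)) (M M' : ℕ) (hM : 1 ≤ M) (hM' : 1 ≤ M')
    (κ : ℝ) (hκ : 0 ≤ κ) (hs : ∀ n, n ∉ Γ' → ‖ft f n‖ ≤ κ) :
    av (fun x => (cv f (nu Γ' M') x - cv f (nu Γ M) x) ^ 2) ≤
      av (fun x => cv f (nu Γ' M') x ^ 2) - av (fun x => cv f (nu Γ M) x ^ 2) + 2 * (2 / M' + κ ^ 2 * (M : ℝ) ^ Γ.card) := by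
  have hF : ∀ n, 0 ≤ ‖ft f n‖ ^ 2 := fun n => sq_nonneg _
  have hsumF : ∑ n, ‖ft f n‖ ^ 2 ≤ 1 := by
    rw [parseval]
    exact KC_av_sq_le f hf
  have hc : ∀ (Γ₁ : Finset (ZMod N)) (M₁ : ℕ), 1 ≤ M₁ → ∀ n,
      ft (cv f (nu Γ₁ M₁)) n = ft f n * (nh Γ₁ M₁ n : ℂ) := by
    intro Γ₁ M₁ h1 n
    rw [ft_cv, ft_nu Γ₁ M₁ h1]
  have e1 : av (fun x => (cv f (nu Γ' M') x - cv f (nu Γ M) x) ^ 2) =
      ∑ n, ‖ft f n‖ ^ 2 * (nh Γ' M' n - nh Γ M n) ^ 2 := by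
    rw [← parseval (fun x => cv f (nu Γ' M') x - cv f (nu Γ M) x)]
    refine Finset.sum_congr rfl fun n _ => ?_
    have h1 : ft (fun x => cv f (nu Γ' M') x - cv f (nu Γ M) x) n =
        ft f n * ((nh Γ' M' n - nh Γ M n : ℝ) : ℂ) := by
      rw [ft_sub, hc Γ' M' hM' n, hc Γ M hM n, Complex.ofReal_sub]
      ring
    rw [h1, norm_mul, mul_pow, Complex.norm_real, Real.norm_eq_abs, sq_abs]
  have e2 : ∀ (Γ₁ : Finset (ZMod N)) (M₁ : ℕ), 1 ≤ M₁ →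
      av (fun x => cv f (nu Γ₁ M₁) x ^ 2) = ∑ n, ‖ft f n‖ ^ 2 * nh Γ₁ M₁ n ^ 2 := by
    intro Γ₁ M₁ h1
    rw [← parseval (cv f (nu Γ₁ M₁))]
    refine Finset.sum_congr rfl fun n _ => ?_
    rw [hc Γ₁ M₁ h1 n, norm_mul, mul_pow, Complex.norm_real, Real.norm_eq_abs, sq_abs]
  rw [e1, e2 Γ' M' hM', e2 Γ M hM]
  have hM0 : (0 : ℝ) < (M' : ℝ) := by exact_mod_cast hM'
  have hterm : ∀ n, ‖ft f n‖ ^ 2 * (nh Γ' M' n - nh Γ M n) ^ 2 ≤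
      ‖ft f n‖ ^ 2 * nh Γ' M' n ^ 2 - ‖ft f n‖ ^ 2 * nh Γ M n ^ 2 +
        (2 * (2 / M') * ‖ft f n‖ ^ 2 + 2 * κ ^ 2 * nh Γ M n) := by
    intro n
    have a0 := nh_nonneg Γ M hM n
    have a1 := nh_le_one Γ M hM n
    have b0 := nh_nonneg Γ' M' hM' n
    have b1 := nh_le_one Γ' M' hM' n
    have hF0 := hF n
    have hd : ‖ft f n‖ ^ 2 * (nh Γ' M' n - nh Γ M n) ^ 2 =
        ‖ft f n‖ ^ 2 * nh Γ' M' n ^ 2 - ‖ft f n‖ ^ 2 * nh Γ M n ^ 2 +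
          2 * ‖ft f n‖ ^ 2 * (nh Γ M n * (nh Γ M n - nh Γ' M' n)) := by ring
    rw [hd]
    have hgoal : 2 * ‖ft f n‖ ^ 2 * (nh Γ M n * (nh Γ M n - nh Γ' M' n)) ≤
        2 * (2 / M') * ‖ft f n‖ ^ 2 + 2 * κ ^ 2 * nh Γ M n := by
      by_cases hn : n ∈ Γ'
      · have h1 := nh_mem Γ' M' hM' n hn
        have h2 : nh Γ M n * (nh Γ M n - nh Γ' M' n) ≤ 2 / M' := by
          have h3 : nh Γ M n * (nh Γ M n - nh Γ' M' n) ≤ 1 - nh Γ' M' n := by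
            nlinarith [mul_nonneg a0 (sub_nonneg.mpr a1), mul_nonneg b0 (sub_nonneg.mpr a1)]
          linarith
        have h4 : ‖ft f n‖ ^ 2 * (nh Γ M n * (nh Γ M n - nh Γ' M' n)) ≤ ‖ft f n‖ ^ 2 * (2 / M') :=
          mul_le_mul_of_nonneg_left h2 hF0
        have h5 : 0 ≤ κ ^ 2 * nh Γ M n := mul_nonneg (sq_nonneg _) a0
        linarith
      · have h1 : ‖ft f n‖ ^ 2 ≤ κ ^ 2 := pow_le_pow_left₀ (norm_nonneg _) (hs n hn) 2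
        have h2 : nh Γ M n * (nh Γ M n - nh Γ' M' n) ≤ nh Γ M n := by
          nlinarith [mul_nonneg a0 b0, mul_nonneg a0 (sub_nonneg.mpr a1)]
        have h3 : ‖ft f n‖ ^ 2 * (nh Γ M n * (nh Γ M n - nh Γ' M' n)) ≤ κ ^ 2 * nh Γ M n :=
          (mul_le_mul_of_nonneg_left h2 hF0).trans (mul_le_mul_of_nonneg_right h1 a0)
        have h5 : 0 ≤ 2 / (M' : ℝ) * ‖ft f n‖ ^ 2 := by positivity
        linarith
    linarith
  have hsum := Finset.sum_le_sum fun n (_ : n ∈ (Finset.univ : Finset (ZMod N))) => hterm n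
  rw [Finset.sum_add_distrib, Finset.sum_sub_distrib, Finset.sum_add_distrib, ← Finset.mul_sum,
    ← Finset.mul_sum] at hsum
  have h1 : 2 * (2 / (M' : ℝ)) * ∑ n, ‖ft f n‖ ^ 2 ≤ 2 * (2 / (M' : ℝ)) * 1 :=
    mul_le_mul_of_nonneg_left hsumF (by positivity)
  have h2 : 2 * κ ^ 2 * ∑ n, nh Γ M n ≤ 2 * κ ^ 2 * (M : ℝ) ^ Γ.card :=
    mul_le_mul_of_nonneg_left (sum_nh Γ M hM) (by positivity)
  linarith

theorem unif (f : ZMod N → ℝ) (hf : ∀ x, |f x| ≤ 1) (Γ' : Finset (ZMod N)) (M' : ℕ) (hM' : 1 ≤ M')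
    (κ : ℝ) (hκ : 0 ≤ κ) (hs : ∀ n, n ∉ Γ' → ‖ft f n‖ ≤ κ) (n : ZMod N) :
    ‖ft (fun x => f x - cv f (nu Γ' M') x) n‖ ≤ max κ (2 / M') := by
  have b0 := nh_nonneg Γ' M' hM' n
  have b1 := nh_le_one Γ' M' hM' n
  have h1 : ft (fun x => f x - cv f (nu Γ' M') x) n =
      ft f n * ((1 - nh Γ' M' n : ℝ) : ℂ) := by
    rw [ft_sub, ft_cv, ft_nu Γ' M' hM' n, Complex.ofReal_sub, Complex.ofReal_one]
    ring
  have h2 : |1 - nh Γ' M' n| = 1 - nh Γ' M' n := abs_of_nonneg (by linarith)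
  rw [h1, norm_mul, Complex.norm_real, Real.norm_eq_abs, h2]
  by_cases hn : n ∈ Γ'
  · refine le_trans ?_ (le_max_right _ _)
    have h3 := nh_mem Γ' M' hM' n hn
    have h4 : ‖ft f n‖ ≤ 1 := (KC_norm_ft_le f n).trans (KC_av_le_one _ hf)
    calc ‖ft f n‖ * (1 - nh Γ' M' n) ≤ 1 * (1 - nh Γ' M' n) :=
          mul_le_mul_of_nonneg_right h4 (by linarith)
      _ ≤ 2 / M' := by linarith
  · refine le_trans ?_ (le_max_left _ _)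
    calc ‖ft f n‖ * (1 - nh Γ' M' n) ≤ κ * 1 :=
          mul_le_mul (hs n hn) (by linarith) (by linarith) hκ
      _ = κ := mul_one _

end H86LP
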