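import Pool.Agent.H86.LP.ID

/-!
# LA: limit points of the normalised prime gaps

`LPs` is closed (standard: if `t_m → t`, `|x_n - t_m| < ε/2` for infinitely many `n`), all its elements are `≥ 0` (the gaps and `log` are `≥ 0`). `C = {t : 0 < t ∧ t ∉ LPs}` is open and no `r` real numbers have all
differences in `C` (`y k - y i > 0` for `i < k` makes `y` strictly increasing; `h`). `banach_density` with `ε`, and `vol(LPs ∩ [y,y+T]) ≥ T - vol(C ∩ [y,y+T])` (`[y,y+T] \ {0}` is contained in the union, `y ≥ 0`).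
-/

set_option autoImplicit false

open Filter MeasureTheory

namespace H86LP

/-- the finite limit points of `(p_{n+1} - p_n)/log p_n` -/
def LPs : Set ℝ := {t : ℝ | ∀ ε : ℝ, 0 < ε → ∃ᶠ n : ℕ in atTop,
  |((Nat.nth Nat.Prime (n + 1) : ℝ) - Nat.nth Nat.Prime n) / Real.log (Nat.nth Nat.Prime n) - t| < ε}

theorem isClosed_LPs : IsClosed LPs := by
  refine isClosed_of_closure_subset ?_
  intro t ht ε hε
  rw [Metric.mem_closure_iff] at ht
  obtain ⟨t', ht', hd⟩ := ht (ε / 2) (by linarith)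
  refine (ht' (ε / 2) (by linarith)).mono ?_
  intro n hn
  rw [Real.dist_eq] at hd
  have h1 := abs_lt.1 hn
  have h2 := abs_lt.1 hd
  rw [abs_lt]
  constructor <;> linarith [h1.1, h1.2, h2.1, h2.2]

theorem LA_ratio_nonneg (n : ℕ) :
    0 ≤ ((Nat.nth Nat.Prime (n + 1) : ℝ) - Nat.nth Nat.Prime n) / Real.log (Nat.nth Nat.Prime n) := by
  refine div_nonneg ?_ (Real.log_natCast_nonneg _)
  have h : Nat.nth Nat.Prime n ≤ Nat.nth Nat.Prime (n + 1) :=
    Nat.nth_monotone Nat.infinite_setOfPred_prime (Nat.le_succ n)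
  have h' : (Nat.nth Nat.Prime n : ℝ) ≤ (Nat.nth Nat.Prime (n + 1) : ℝ) := by exact_mod_cast h
  linarith

theorem LPs_nonneg (t : ℝ) (ht : t ∈ LPs) : 0 ≤ t := by
  by_contra hneg
  have hneg' : t < 0 := not_le.1 hneg
  obtain ⟨n, hn⟩ := (ht (-t) (by linarith)).exists
  have h1 := abs_lt.1 hn
  have h2 := LA_ratio_nonneg n
  linarith [h1.1, h1.2]

theorem density_of_points (r : ℕ) (hr : 2 ≤ r) (h : ∀ b : Fin r → ℝ, StrictMono b → ∃ i k, i < k ∧ b k - b i ∈ LPs)
    (ε : ℝ) (hε : 0 < ε) : ∃ T0 : ℝ, 0 < T0 ∧ ∀ T, T0 ≤ T → ∀ y : ℝ, 0 ≤ y →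
      (2 / (r : ℝ) - ε) * T ≤ (volume (LPs ∩ Set.Icc y (y + T))).toReal := by
  obtain ⟨C, hCdef⟩ : ∃ C : Set ℝ, C = {t : ℝ | 0 < t} ∩ LPsᶜ := ⟨_, rfl⟩
  have hC : IsOpen C := by
    rw [hCdef]
    exact (isOpen_lt continuous_const continuous_id).inter isClosed_LPs.isOpen_compl
  have hfree : ¬ ∃ y : Fin r → ℝ, ∀ i k, i < k → y k - y i ∈ C := by
    rintro ⟨y, hy⟩
    have hmono : StrictMono y := by
      intro i k hik
      have h1 := hy i k hik
      rw [hCdef] at h1
      have h2 : (0 : ℝ) < y k - y i := h1.1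
      linarith
    obtain ⟨i, k, hik, hmem⟩ := h y hmono
    have h1 := hy i k hik
    rw [hCdef] at h1
    exact h1.2 hmem
  obtain ⟨T0, hT0, hT⟩ := banach_density r hr C hC hfree ε hε
  refine ⟨T0, hT0, ?_⟩
  intro T hTT y hy
  have hb := hT T hTT y hy
  have hTpos : 0 ≤ T := by linarith
  have hfin : volume (Set.Icc y (y + T)) ≠ ⊤ := by
    rw [Real.volume_Icc]
    exact ENNReal.ofReal_ne_top
  have hfC : volume (C ∩ Set.Icc y (y + T)) ≠ ⊤ := measure_ne_top_of_subset Set.inter_subset_right hfin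
  have hfL : volume (LPs ∩ Set.Icc y (y + T)) ≠ ⊤ := measure_ne_top_of_subset Set.inter_subset_right hfin
  have hsub : Set.Icc y (y + T) ⊆ ((C ∩ Set.Icc y (y + T)) ∪ (LPs ∩ Set.Icc y (y + T))) ∪ {0} := by
    intro t ht
    by_cases h0 : t = 0
    · right
      exact h0
    · left
      have htpos : 0 < t := lt_of_le_of_ne (le_trans hy ht.1) (Ne.symm h0)
      by_cases hL : t ∈ LPs
      · right
        exact ⟨hL, ht⟩
      · left
        refine ⟨?_, ht⟩
        rw [hCdef]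
        exact ⟨htpos, hL⟩
  have hle : volume (Set.Icc y (y + T)) ≤ volume (C ∩ Set.Icc y (y + T)) + volume (LPs ∩ Set.Icc y (y + T)) := by
    refine (measure_mono hsub).trans ?_
    refine (measure_union_le _ _).trans ?_
    have h0 : volume ({0} : Set ℝ) = 0 := Real.volume_singleton
    rw [h0, add_zero]
    exact measure_union_le _ _
  have hle2 : T ≤ (volume (C ∩ Set.Icc y (y + T))).toReal + (volume (LPs ∩ Set.Icc y (y + T))).toReal := by
    have h1 := ENNReal.toReal_mono (ENNReal.add_ne_top.2 ⟨hfC, hfL⟩) hle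
    rw [ENNReal.toReal_add hfC hfL, Real.volume_Icc, ENNReal.toReal_ofReal (by linarith)] at h1
    linarith
  nlinarith [hb, hle2]

end H86LP
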