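import Pool.Agent.H86.LP.Defs

/-!
# RA: choice of the offsets by averaging

`n = N/8` (natural division), `n ≥ 1`, `1/n ≤ 9/N` because `N ≥ 72`. Average over `τ ∈ {0, .., n-1}^r` (`Fintype.piFinset (fun _ => range n)` or functions `Fin r → Fin n`): for a pair `i < k` the average of
`h (τ k - τ i)` is `n^(-2) ∑_{t,t' < n} h (t' - t) ≤ n^(-1) ∑_{|s| < n} h s` (each `s` has at most `n` representations), and `8 |s| ≤ N` for these `s` (`valMinAbs` of the integer `s`, `|s| < N/2`).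
Some `τ` is at most the average (`Finset.exists_le_of_sum_le`).
-/

set_option autoImplicit false

open Finset

namespace H86LP

theorem RA_mem {N n : ℕ} [NeZero N] (hn : 8 * n ≤ N) (t t' : Fin n) :
    8 * |(((t : ℕ) : ZMod N) - ((t' : ℕ) : ZMod N)).valMinAbs| ≤ N := by
  have h1 : (((t : ℕ) : ZMod N) - ((t' : ℕ) : ZMod N)).valMinAbs = ((t : ℕ) : ℤ) - ((t' : ℕ) : ℤ) := by
    rw [ZMod.valMinAbs_spec]
    have h2 := t.2
    have h3 := t'.2
    refine ⟨by push_cast; rfl, ?_, ?_⟩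
    · omega
    · omega
  rw [h1]
  have h2 := t.2
  have h3 := t'.2
  have h4 : |((t : ℕ) : ℤ) - ((t' : ℕ) : ℤ)| ≤ n := by
    rw [abs_le]
    constructor <;> omega
  omega

theorem RA_inner {N n : ℕ} [NeZero N] (hn : 8 * n ≤ N) (h : ZMod N → ℝ) (h0 : ∀ x, 0 ≤ h x) (t' : Fin n) :
    ∑ t : Fin n, h (((t : ℕ) : ZMod N) - ((t' : ℕ) : ZMod N)) ≤
      ∑ s ∈ univ.filter (fun s : ZMod N => 8 * |s.valMinAbs| ≤ N), h s := by
  classical
  have hinj : Set.InjOn (fun t : Fin n => ((t : ℕ) : ZMod N) - ((t' : ℕ) : ZMod N)) (univ : Finset (Fin n)) := by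
    intro a _ b _ hab
    have h1 : ((a : ℕ) : ZMod N) = ((b : ℕ) : ZMod N) := sub_left_injective hab
    have ha := a.2
    have hb := b.2
    have h2 : ((a : ℕ) : ZMod N).val = ((b : ℕ) : ZMod N).val := by rw [h1]
    rw [ZMod.val_natCast_of_lt (by omega), ZMod.val_natCast_of_lt (by omega)] at h2
    exact Fin.ext h2
  have h1 := sum_image (f := h) hinj
  rw [← h1]
  refine sum_le_sum_of_subset_of_nonneg ?_ (fun x _ _ => h0 x)
  intro s hs
  rw [mem_image] at hs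
  obtain ⟨t, -, rfl⟩ := hs
  exact mem_filter.2 ⟨mem_univ _, RA_mem hn t t'⟩

theorem RA_pair {r N n : ℕ} [NeZero N] (hn : 8 * n ≤ N) (h : ZMod N → ℝ) (h0 : ∀ x, 0 ≤ h x)
    (i k : Fin r) (hik : i ≠ k) :
    ∑ τ : Fin r → Fin n, h (((τ k : ℕ) : ZMod N) - ((τ i : ℕ) : ZMod N)) ≤
      (n : ℝ) ^ (r - 1) * ∑ s ∈ univ.filter (fun s : ZMod N => 8 * |s.valMinAbs| ≤ N), h s := by
  classical
  have e1 := Equiv.sum_comp (Equiv.funSplitAt k (Fin n)).symm
    (fun τ : Fin r → Fin n => h (((τ k : ℕ) : ZMod N) - ((τ i : ℕ) : ZMod N)))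
  rw [← e1, Fintype.sum_prod_type_right]
  have e2 : ∀ σ : {j // j ≠ k} → Fin n, ∑ t : Fin n,
      h (((((Equiv.funSplitAt k (Fin n)).symm (t, σ)) k : ℕ) : ZMod N) -
        ((((Equiv.funSplitAt k (Fin n)).symm (t, σ)) i : ℕ) : ZMod N)) ≤
      ∑ s ∈ univ.filter (fun s : ZMod N => 8 * |s.valMinAbs| ≤ N), h s := by
    intro σ
    refine le_trans (le_of_eq (sum_congr rfl fun t _ => ?_)) (RA_inner hn h h0 (σ ⟨i, hik⟩))
    have g1 : ((Equiv.funSplitAt k (Fin n)).symm (t, σ)) k = t := by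
      simp [Equiv.funSplitAt]
    have g2 : ((Equiv.funSplitAt k (Fin n)).symm (t, σ)) i = σ ⟨i, hik⟩ := by
      simp [Equiv.funSplitAt, hik]
    rw [g1, g2]
  refine (sum_le_sum fun σ _ => e2 σ).trans (le_of_eq ?_)
  rw [sum_const, nsmul_eq_mul, card_univ, Fintype.card_fun, Fintype.card_fin, Fintype.card_subtype_compl]
  simp

theorem exists_tau (r N : ℕ) [NeZero N] (hN : 72 ≤ N) (h : Fin r → Fin r → ZMod N → ℝ) (h0 : ∀ i k x, 0 ≤ h i k x) :
    ∃ τ : Fin r → ZMod N, ∑ a ∈ Pr r, h a.1 a.2 (τ a.2 - τ a.1) ≤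
      9 / N * ∑ a ∈ Pr r, ∑ s ∈ univ.filter (fun s : ZMod N => 8 * |s.valMinAbs| ≤ N), h a.1 a.2 s := by
  classical
  obtain ⟨n, hn⟩ : ∃ n, n = N / 8 := ⟨_, rfl⟩
  have hn1 : 8 * n ≤ N := by omega
  have hn9 : N ≤ 9 * n := by omega
  have hn0 : 0 < n := by omega
  have hne : (univ : Finset (Fin r → Fin n)).Nonempty := ⟨fun _ => ⟨0, hn0⟩, mem_univ _⟩
  have hNr : (0 : ℝ) < N := by
    have : 0 < N := by omega
    exact_mod_cast this
  have hnr : (0 : ℝ) < n := by exact_mod_cast hn0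
  have hfrac : 1 ≤ (n : ℝ) * (9 / N) := by
    rw [mul_div_assoc', le_div_iff₀ hNr, one_mul]
    have : (N : ℝ) ≤ 9 * n := by exact_mod_cast hn9
    linarith
  obtain ⟨τ, -, hτ⟩ := exists_le_of_sum_le hne (f := fun τ : Fin r → Fin n =>
    ∑ a ∈ Pr r, h a.1 a.2 (((τ a.2 : ℕ) : ZMod N) - ((τ a.1 : ℕ) : ZMod N)))
    (g := fun _ => 9 / N * ∑ a ∈ Pr r, ∑ s ∈ univ.filter (fun s : ZMod N => 8 * |s.valMinAbs| ≤ N), h a.1 a.2 s) (by
      rw [sum_comm, sum_const, nsmul_eq_mul, card_univ, Fintype.card_fun, Fintype.card_fin, Fintype.card_fin,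
        mul_sum, mul_sum]
      refine sum_le_sum fun a ha => ?_
      rw [mem_Pr] at ha
      refine (RA_pair hn1 (h a.1 a.2) (h0 a.1 a.2) a.1 a.2 ha.ne).trans ?_
      have hr : r = (r - 1) + 1 := by
        have := a.1.2
        omega
      have hs : 0 ≤ ∑ s ∈ univ.filter (fun s : ZMod N => 8 * |s.valMinAbs| ≤ N), h a.1 a.2 s :=
        sum_nonneg fun s _ => h0 _ _ _
      have hp : ((n ^ r : ℕ) : ℝ) = (n : ℝ) ^ (r - 1) * n := by
        conv_lhs => rw [hr]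
        push_cast
        rw [pow_succ]
      rw [hp, mul_assoc, ← mul_assoc (n : ℝ)]
      refine mul_le_mul_of_nonneg_left ?_ (by positivity)
      exact le_mul_of_one_le_left hs hfrac)
  exact ⟨fun i => ((τ i : ℕ) : ZMod N), hτ⟩

end H86LP
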