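import Pool.Agent.H86.LP.KB

/-!
# RB: local densities

* `dens_conv`: `dn Q (cv f nu) s = av_y nu y (dn Q f (s - y))`, so `max 0 (D - dn Q (cv f nu) s) ≤ av_y nu y max 0 (D - dn Q f (s - y))` (`av nu = 1`). Sum over `8|s| ≤ N` and split `y`:
  `16|y| ≤ N`: `s - y` runs through different points with `16 |s - y| ≤ 3N`, contribution `≤ av_y nu y * ∑_{16|x| ≤ 3N} max 0 (D - dn Q f x)`. `16|y| > N`: then `‖ch y - 1‖ ≥ 4|y|/N > 1/4`
  (`ch_lower`), so `av_y nu y 1[16|y| > N] ≤ 16 av (nu ‖ch y - 1‖^2) ≤ 64/M` (`nu_moment` for `γ = 1`), each term `≤ 1`, at most `N` values of `s`.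
* `dens_mult`: `dn (m m0) f x = m^(-1) ∑_{j < m} dn m0 f (x + j m0)`, convexity of `max 0`; `x + j m0` has `5 |x + j m0| ≤ N` because `16|x| ≤ 3N` and `80 j m0 ≤ N`
  (`valMinAbs (x + j m0) = valMinAbs x + j m0`, no wrap around).
* `sum_dn`: `∑_x dn Q g x = ∑_x g x`.
-/

set_option autoImplicit false

open Finset

namespace H86LP

variable {N : ℕ} [NeZero N]

theorem RB_abs_add (a b : ZMod N) : |(a + b).valMinAbs| ≤ |a.valMinAbs| + |b.valMinAbs| := by
  have h := ZMod.natAbs_valMinAbs_add_le a b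
  have h1 : |(a + b).valMinAbs| ≤ |a.valMinAbs + b.valMinAbs| := by
    rw [Int.abs_eq_natAbs, Int.abs_eq_natAbs]
    exact_mod_cast h
  exact h1.trans (abs_add_le _ _)

theorem RB_abs_sub (a b : ZMod N) : |(a - b).valMinAbs| ≤ |a.valMinAbs| + |b.valMinAbs| := by
  have h := RB_abs_add a (-b)
  rw [← sub_eq_add_neg] at h
  have h1 : |(-b).valMinAbs| = |b.valMinAbs| := by
    rw [Int.abs_eq_natAbs, Int.abs_eq_natAbs, ZMod.natAbs_valMinAbs_neg]
  rw [h1] at h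
  exact h

theorem RB_Npos : (0 : ℝ) < N := by
  exact_mod_cast NeZero.pos N

theorem RB_dn_nonneg {f : ZMod N → ℝ} (hf : ∀ x, 0 ≤ f x) (Q : ℕ) (x : ZMod N) : 0 ≤ dn Q f x := by
  unfold dn
  exact div_nonneg (sum_nonneg fun g _ => hf _) (Nat.cast_nonneg Q)

/-- the local density of a convolution -/
theorem RB_dn_cv (f ν : ZMod N → ℝ) (Q : ℕ) (s : ZMod N) :
    dn Q (cv f ν) s = (∑ y, ν y * dn Q f (s - y)) / N := by
  unfold dn cv av
  rw [← Finset.sum_div, div_div, mul_comm (N : ℝ) (Q : ℝ), ← div_div]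
  congr 1
  rw [Finset.sum_comm, Finset.sum_div]
  refine Finset.sum_congr rfl fun y _ => ?_
  rw [← Finset.sum_mul, mul_comm, ← mul_div_assoc]
  congr 2
  refine Finset.sum_congr rfl fun g _ => ?_
  congr 1
  ring

theorem dens_conv (f : ZMod N → ℝ) (hf : ∀ x, 0 ≤ f x ∧ f x ≤ 1) (Γ : Finset (ZMod N)) (h1 : (1 : ZMod N) ∈ Γ) (M : ℕ) (hM : 1 ≤ M)
    (Q : ℕ) (hQ : 1 ≤ Q) (D : ℝ) (hD : D ≤ 1) :
    ∑ s ∈ univ.filter (fun s : ZMod N => 8 * |s.valMinAbs| ≤ N), max 0 (D - dn Q (cv f (nu Γ M)) s) ≤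
      (∑ x ∈ univ.filter (fun x : ZMod N => 16 * |x.valMinAbs| ≤ 3 * N), max 0 (D - dn Q f x)) + 64 / M * N := by
  have hN := RB_Npos (N := N)
  obtain ⟨ν, hν⟩ : ∃ ν, ν = nu Γ M := ⟨_, rfl⟩
  have hν0 : ∀ y, 0 ≤ ν y := fun y => by rw [hν]; exact nu_nonneg Γ M hM y
  have hν1 : (∑ y, ν y) / N = 1 := by rw [hν]; exact av_nu Γ M hM
  have hν2 : (∑ y, ν y * ‖ch (1 * y) - 1‖ ^ 2) / N ≤ 4 / M := by rw [hν]; exact nu_moment Γ M hM 1 h1
  obtain ⟨h, hh⟩ : ∃ h : ZMod N → ℝ, h = fun x => max 0 (D - dn Q f x) := ⟨_, rfl⟩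
  have hh0 : ∀ x, 0 ≤ h x := fun x => by rw [hh]; exact le_max_left _ _
  have hh1 : ∀ x, h x ≤ 1 := by
    intro x
    rw [hh]
    have := RB_dn_nonneg (fun x => (hf x).1) Q x
    exact max_le (by norm_num) (by linarith)
  have hhD : ∀ x, D - dn Q f x ≤ h x := fun x => by rw [hh]; exact le_max_right _ _
  rw [← hν]
  -- pointwise
  have hp : ∀ s, max 0 (D - dn Q (cv f ν) s) ≤ (∑ y, ν y * h (s - y)) / N := by
    intro s
    refine max_le (div_nonneg (sum_nonneg fun y _ => mul_nonneg (hν0 y) (hh0 _)) hN.le) ?_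
    rw [RB_dn_cv]
    have e1 : D = (∑ y, ν y * D) / N := by
      rw [← Finset.sum_mul, mul_comm, mul_div_assoc, hν1, mul_one]
    have e2 : D - (∑ y, ν y * dn Q f (s - y)) / N = (∑ y, ν y * (D - dn Q f (s - y))) / N := by
      nth_rw 1 [e1]
      rw [← sub_div, ← Finset.sum_sub_distrib]
      congr 1
      exact Finset.sum_congr rfl fun y _ => by ring
    rw [e2]
    refine div_le_div_of_nonneg_right (Finset.sum_le_sum fun y _ => ?_) hN.le
    exact mul_le_mul_of_nonneg_left (hhD _) (hν0 y)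
  obtain ⟨T, hT⟩ : ∃ T, T = ∑ x ∈ univ.filter (fun x : ZMod N => 16 * |x.valMinAbs| ≤ 3 * N), h x := ⟨_, rfl⟩
  have hT' : ∑ x ∈ univ.filter (fun x : ZMod N => 16 * |x.valMinAbs| ≤ 3 * N), max 0 (D - dn Q f x) = T := by
    rw [hT, hh]
  have hT0 : 0 ≤ T := by rw [hT]; exact sum_nonneg fun x _ => hh0 x
  -- the inner sum
  have hin : ∀ y : ZMod N, ∑ s ∈ univ.filter (fun s : ZMod N => 8 * |s.valMinAbs| ≤ N), h (s - y) ≤
      T + 16 * N * ‖ch (1 * y) - 1‖ ^ 2 := by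
    intro y
    rcases le_or_gt (16 * |y.valMinAbs|) (N : ℤ) with hy | hy
    · have e1 : ∑ s ∈ univ.filter (fun s : ZMod N => 8 * |s.valMinAbs| ≤ N), h (s - y) =
          ∑ x ∈ (univ.filter (fun s : ZMod N => 8 * |s.valMinAbs| ≤ N)).image (fun s => s - y), h x := by
        rw [Finset.sum_image]
        intro a _ b _ hab
        exact sub_left_injective hab
      have e2 : ∑ x ∈ (univ.filter (fun s : ZMod N => 8 * |s.valMinAbs| ≤ N)).image (fun s => s - y), h x ≤ T := by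
        rw [hT]
        refine Finset.sum_le_sum_of_subset_of_nonneg ?_ (fun x _ _ => hh0 x)
        intro x hx
        obtain ⟨s, hs, rfl⟩ := Finset.mem_image.1 hx
        have hs' := (Finset.mem_filter.1 hs).2
        have h3 := RB_abs_sub s y
        exact Finset.mem_filter.2 ⟨mem_univ _, by linarith⟩
      have e3 : 0 ≤ 16 * (N : ℝ) * ‖ch (1 * y) - 1‖ ^ 2 := by positivity
      linarith
    · have e1 : ∑ s ∈ univ.filter (fun s : ZMod N => 8 * |s.valMinAbs| ≤ N), h (s - y) ≤ N := by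
        calc ∑ s ∈ univ.filter (fun s : ZMod N => 8 * |s.valMinAbs| ≤ N), h (s - y)
            ≤ ∑ s : ZMod N, h (s - y) :=
              Finset.sum_le_sum_of_subset_of_nonneg (Finset.filter_subset _ _) (fun x _ _ => hh0 _)
          _ ≤ ∑ s : ZMod N, (1 : ℝ) := Finset.sum_le_sum fun s _ => hh1 _
          _ = N := by
            rw [Finset.sum_const, Finset.card_univ, ZMod.card, nsmul_eq_mul, mul_one]
      have e2 : (1 : ℝ) / 4 ≤ ‖ch (1 * y) - 1‖ := by
        rw [one_mul]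
        refine le_trans ?_ (ch_lower y)
        rw [div_le_div_iff₀ (by norm_num) hN]
        have hy' : (N : ℝ) < 16 * |(y.valMinAbs : ℝ)| := by exact_mod_cast hy
        linarith
      have e3 : (1 : ℝ) ≤ 16 * ‖ch (1 * y) - 1‖ ^ 2 := by
        have := pow_le_pow_left₀ (by norm_num : (0 : ℝ) ≤ 1 / 4) e2 2
        norm_num at this ⊢
        linarith
      have e4 : (N : ℝ) ≤ 16 * N * ‖ch (1 * y) - 1‖ ^ 2 := by
        calc (N : ℝ) = N * 1 := by ring
          _ ≤ N * (16 * ‖ch (1 * y) - 1‖ ^ 2) := mul_le_mul_of_nonneg_left e3 hN.le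
          _ = _ := by ring
      linarith
  rw [hT']
  calc ∑ s ∈ univ.filter (fun s : ZMod N => 8 * |s.valMinAbs| ≤ N), max 0 (D - dn Q (cv f ν) s)
      ≤ ∑ s ∈ univ.filter (fun s : ZMod N => 8 * |s.valMinAbs| ≤ N), (∑ y, ν y * h (s - y)) / N :=
        Finset.sum_le_sum fun s _ => hp s
    _ = (∑ y, ν y * ∑ s ∈ univ.filter (fun s : ZMod N => 8 * |s.valMinAbs| ≤ N), h (s - y)) / N := by
        rw [← Finset.sum_div, Finset.sum_comm]
        congr 1
        exact Finset.sum_congr rfl fun y _ => by rw [Finset.mul_sum]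
    _ ≤ (∑ y, ν y * (T + 16 * N * ‖ch (1 * y) - 1‖ ^ 2)) / N := by
        refine div_le_div_of_nonneg_right (Finset.sum_le_sum fun y _ => ?_) hN.le
        exact mul_le_mul_of_nonneg_left (hin y) (hν0 y)
    _ = T * ((∑ y, ν y) / N) + 16 * N * ((∑ y, ν y * ‖ch (1 * y) - 1‖ ^ 2) / N) := by
        have e1 : ∑ y, ν y * (T + 16 * N * ‖ch (1 * y) - 1‖ ^ 2) =
            T * (∑ y, ν y) + 16 * N * (∑ y, ν y * ‖ch (1 * y) - 1‖ ^ 2) := by
          rw [Finset.mul_sum, Finset.mul_sum, ← Finset.sum_add_distrib]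
          exact Finset.sum_congr rfl fun y _ => by ring
        rw [e1, add_div, mul_div_assoc, mul_div_assoc]
    _ ≤ T * 1 + 16 * N * (4 / M) := by
        rw [hν1]
        have := mul_le_mul_of_nonneg_left hν2 (by positivity : (0 : ℝ) ≤ 16 * N)
        linarith
    _ = T + 64 / M * N := by ring

theorem RB_split (F : ℕ → ℝ) (m m0 : ℕ) :
    ∑ g ∈ range (m * m0), F g = ∑ j ∈ range m, ∑ i ∈ range m0, F (j * m0 + i) := by
  induction m with
  | zero => simp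
  | succ m ih => rw [Nat.succ_mul, Finset.sum_range_add, ih, Finset.sum_range_succ]

theorem dens_mult (f : ZMod N → ℝ) (m m0 : ℕ) (hm : 1 ≤ m) (hm0 : 1 ≤ m0) (h : 80 * (m * m0) ≤ N) (D : ℝ) :
    ∑ x ∈ univ.filter (fun x : ZMod N => 16 * |x.valMinAbs| ≤ 3 * N), max 0 (D - dn (m * m0) f x) ≤
      ∑ x ∈ univ.filter (fun x : ZMod N => 5 * |x.valMinAbs| ≤ N), max 0 (D - dn m0 f x) := by
  have hmr : (0 : ℝ) < m := by exact_mod_cast hm
  have hm0r : (0 : ℝ) < m0 := by exact_mod_cast hm0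
  obtain ⟨H, hH⟩ : ∃ H : ZMod N → ℝ, H = fun x => max 0 (D - dn m0 f x) := ⟨_, rfl⟩
  have hH0 : ∀ x, 0 ≤ H x := fun x => by rw [hH]; exact le_max_left _ _
  have hHD : ∀ x, D - dn m0 f x ≤ H x := fun x => by rw [hH]; exact le_max_right _ _
  have e1 : ∀ x, dn (m * m0) f x = (∑ j ∈ range m, dn m0 f (x + ((j * m0 : ℕ) : ZMod N))) / m := by
    intro x
    unfold dn
    rw [RB_split, ← Finset.sum_div, div_div, Nat.cast_mul, mul_comm (m0 : ℝ) (m : ℝ)]
    congr 1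
    refine Finset.sum_congr rfl fun j _ => Finset.sum_congr rfl fun i _ => ?_
    congr 1
    push_cast
    ring
  have hp : ∀ x, max 0 (D - dn (m * m0) f x) ≤ (∑ j ∈ range m, H (x + ((j * m0 : ℕ) : ZMod N))) / m := by
    intro x
    refine max_le (div_nonneg (sum_nonneg fun j _ => hH0 _) hmr.le) ?_
    rw [e1, le_div_iff₀ hmr, sub_mul, div_mul_cancel₀ _ hmr.ne']
    have e2 : D * m = ∑ j ∈ range m, D := by
      rw [Finset.sum_const, Finset.card_range, nsmul_eq_mul, mul_comm]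
    rw [e2, ← Finset.sum_sub_distrib]
    exact Finset.sum_le_sum fun j _ => hHD _
  have hin : ∀ j ∈ range m, ∑ x ∈ univ.filter (fun x : ZMod N => 16 * |x.valMinAbs| ≤ 3 * N),
      H (x + ((j * m0 : ℕ) : ZMod N)) ≤ ∑ x ∈ univ.filter (fun x : ZMod N => 5 * |x.valMinAbs| ≤ N), H x := by
    intro j hj
    have hjm : j * m0 ≤ m * m0 := Nat.mul_le_mul_right _ (Finset.mem_range.1 hj).le
    have hv : ((j * m0 : ℕ) : ZMod N).valMinAbs = ((j * m0 : ℕ) : ℤ) :=
      ZMod.valMinAbs_natCast_of_le_half (by omega)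
    have e1 : ∑ x ∈ univ.filter (fun x : ZMod N => 16 * |x.valMinAbs| ≤ 3 * N), H (x + ((j * m0 : ℕ) : ZMod N)) =
        ∑ x ∈ (univ.filter (fun x : ZMod N => 16 * |x.valMinAbs| ≤ 3 * N)).image
          (fun x => x + ((j * m0 : ℕ) : ZMod N)), H x := by
      rw [Finset.sum_image]
      intro a _ b _ hab
      exact add_left_injective _ hab
    rw [e1]
    refine Finset.sum_le_sum_of_subset_of_nonneg ?_ (fun x _ _ => hH0 x)
    intro x hx
    obtain ⟨s, hs, rfl⟩ := Finset.mem_image.1 hx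
    have hs' := (Finset.mem_filter.1 hs).2
    have h3 := RB_abs_add s ((j * m0 : ℕ) : ZMod N)
    rw [hv] at h3
    have h4 : |((j * m0 : ℕ) : ℤ)| = ((j * m0 : ℕ) : ℤ) := abs_of_nonneg (Int.natCast_nonneg _)
    rw [h4] at h3
    have h5 : 80 * ((j * m0 : ℕ) : ℤ) ≤ N := by
      have : 80 * (j * m0) ≤ N := le_trans (Nat.mul_le_mul_left _ hjm) h
      exact_mod_cast this
    exact Finset.mem_filter.2 ⟨mem_univ _, by linarith⟩
  have hfin : ∑ x ∈ univ.filter (fun x : ZMod N => 5 * |x.valMinAbs| ≤ N), max 0 (D - dn m0 f x) =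
      ∑ x ∈ univ.filter (fun x : ZMod N => 5 * |x.valMinAbs| ≤ N), H x := by rw [hH]
  rw [hfin]
  calc ∑ x ∈ univ.filter (fun x : ZMod N => 16 * |x.valMinAbs| ≤ 3 * N), max 0 (D - dn (m * m0) f x)
      ≤ ∑ x ∈ univ.filter (fun x : ZMod N => 16 * |x.valMinAbs| ≤ 3 * N),
          (∑ j ∈ range m, H (x + ((j * m0 : ℕ) : ZMod N))) / m := Finset.sum_le_sum fun x _ => hp x
    _ = (∑ j ∈ range m, ∑ x ∈ univ.filter (fun x : ZMod N => 16 * |x.valMinAbs| ≤ 3 * N),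
          H (x + ((j * m0 : ℕ) : ZMod N))) / m := by
        rw [← Finset.sum_div, Finset.sum_comm]
    _ ≤ (∑ j ∈ range m, ∑ x ∈ univ.filter (fun x : ZMod N => 5 * |x.valMinAbs| ≤ N), H x) / m :=
        div_le_div_of_nonneg_right (Finset.sum_le_sum hin) hmr.le
    _ = ∑ x ∈ univ.filter (fun x : ZMod N => 5 * |x.valMinAbs| ≤ N), H x := by
        rw [Finset.sum_const, Finset.card_range, nsmul_eq_mul, mul_comm, mul_div_assoc, div_self hmr.ne', mul_one]

theorem sum_dn (g : ZMod N → ℝ) (Q : ℕ) (hQ : 1 ≤ Q) : ∑ x, dn Q g x = ∑ x, g x := by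
  have hQr : (0 : ℝ) < Q := by exact_mod_cast hQ
  unfold dn
  rw [← Finset.sum_div, Finset.sum_comm]
  have h1 : ∀ j ∈ range Q, ∑ x : ZMod N, g (x + (j : ZMod N)) = ∑ x, g x := fun j _ =>
    Equiv.sum_comp (Equiv.addRight (j : ZMod N)) g
  rw [Finset.sum_congr rfl h1, Finset.sum_const, Finset.card_range, nsmul_eq_mul, mul_comm, mul_div_assoc,
    div_self hQr.ne', mul_one]

end H86LP
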