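import Pool.Agent.H86.LP.ZE
import Pool.Agent.H86.LP.EB
import Pool.Agent.H86.LP.DA
import Pool.Agent.H86.LP.CB
import Pool.Agent.H86.LP.RA
import Pool.Agent.H86.LP.RB

/-!
# SA: assembly at one scale (PI helper86)
-/

set_option autoImplicit false

open Finset

namespace H86LP

section
variable {N : ℕ} [NeZero N]

/-- local average of `T^2` -/
noncomputable def SA_A (Γ : Finset (ZMod N)) (M : ℕ) (T : ZMod N → ℝ) (x : ZMod N) : ℝ :=
  av (fun u => av (fun v => nu Γ M u * nu Γ M v * T (x + u - v) ^ 2))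

theorem SA_Npos : (0 : ℝ) < N := by exact_mod_cast Nat.pos_of_ne_zero (NeZero.ne N)

theorem SA_av_mono {f g : ZMod N → ℝ} (h : ∀ x, f x ≤ g x) : av f ≤ av g :=
  div_le_div_of_nonneg_right (Finset.sum_le_sum fun x _ => h x) (SA_Npos (N := N)).le

theorem SA_av_nonneg {f : ZMod N → ℝ} (h : ∀ x, 0 ≤ f x) : 0 ≤ av f :=
  div_nonneg (Finset.sum_nonneg fun x _ => h x) (SA_Npos (N := N)).le

theorem SA_av_mul (c : ℝ) (f : ZMod N → ℝ) : av (fun x => c * f x) = c * av f := by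
  unfold av
  rw [← Finset.mul_sum]
  ring

theorem SA_av_mul' (c : ℝ) (f : ZMod N → ℝ) : av (fun x => f x * c) = av f * c := by
  unfold av
  rw [← Finset.sum_mul]
  ring

theorem SA_av_sub (f g : ZMod N → ℝ) : av (fun x => f x - g x) = av f - av g := by
  unfold av
  rw [Finset.sum_sub_distrib]
  ring

theorem SA_av_comm (f : ZMod N → ZMod N → ℝ) : av (fun x => av (fun y => f x y)) = av (fun y => av (fun x => f x y)) := by
  unfold av
  rw [← Finset.sum_div, ← Finset.sum_div, Finset.sum_comm]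

theorem SA_av_shift (f : ZMod N → ℝ) (t : ZMod N) : av (fun x => f (x + t)) = av f := by
  unfold av
  rw [show (∑ x, f (x + t)) = ∑ x, f x from Equiv.sum_comp (Equiv.addRight t) f]

theorem SA_av_abs (f : ZMod N → ℝ) : |av f| ≤ av (fun x => |f x|) := by
  unfold av
  rw [abs_div, abs_of_pos (SA_Npos (N := N))]
  exact div_le_div_of_nonneg_right (Finset.abs_sum_le_sum_abs _ _) (SA_Npos (N := N)).le

theorem SA_A_nonneg (Γ : Finset (ZMod N)) (M : ℕ) (hM : 1 ≤ M) (T : ZMod N → ℝ) (x : ZMod N) : 0 ≤ SA_A Γ M T x :=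
  SA_av_nonneg fun u => SA_av_nonneg fun v => mul_nonneg (mul_nonneg (nu_nonneg Γ M hM u) (nu_nonneg Γ M hM v)) (sq_nonneg _)

theorem SA_avA (Γ : Finset (ZMod N)) (M : ℕ) (hM : 1 ≤ M) (T : ZMod N → ℝ) : av (SA_A Γ M T) = av (fun x => T x ^ 2) := by
  unfold SA_A
  rw [SA_av_comm]
  have h1 : ∀ u : ZMod N, av (fun x => av (fun v => nu Γ M u * nu Γ M v * T (x + u - v) ^ 2)) =
      nu Γ M u * av (fun x => T x ^ 2) := by
    intro u
    rw [SA_av_comm]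
    have h2 : ∀ v : ZMod N, av (fun x => nu Γ M u * nu Γ M v * T (x + u - v) ^ 2) =
        nu Γ M u * (nu Γ M v * av (fun x => T x ^ 2)) := by
      intro v
      rw [SA_av_mul, mul_assoc]
      have h3 := SA_av_shift (fun x => T x ^ 2) (u - v)
      have h4 : (fun x : ZMod N => T (x + u - v) ^ 2) = fun x => T (x + (u - v)) ^ 2 := by
        funext x
        rw [add_sub_assoc]
      rw [h4, h3]
    simp only [h2]
    rw [SA_av_mul, SA_av_mul', av_nu Γ M hM, one_mul]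
  simp only [h1]
  rw [SA_av_mul', av_nu Γ M hM, one_mul]

theorem SA_dG_neg (Γ : Finset (ZMod N)) (t : ZMod N) : dG Γ (-t) = dG Γ t := by
  unfold dG
  refine Finset.sum_congr rfl fun γ _ => ?_
  rw [mul_neg, ch_neg_sub_one]

theorem SA_dG_nonneg (Γ : Finset (ZMod N)) (t : ZMod N) : 0 ≤ dG Γ t :=
  Finset.sum_nonneg fun γ _ => norm_nonneg _

theorem SA_lipA (Γ : Finset (ZMod N)) (M : ℕ) (hM : 1 ≤ M) (T : ZMod N → ℝ) (hT : ∀ x, |T x| ≤ 1) (x t : ZMod N) :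
    |SA_A Γ M T (x + t) - SA_A Γ M T x| ≤ (M : ℝ) ^ (Γ.card + 1) * dG Γ t := by
  have e1 : SA_A Γ M T (x + t) = av (fun u => av (fun v => nu Γ M (u - t) * nu Γ M v * T (x + u - v) ^ 2)) := by
    unfold SA_A
    rw [← SA_av_shift (fun u => av (fun v => nu Γ M (u - t) * nu Γ M v * T (x + u - v) ^ 2)) t]
    have : (fun u : ZMod N => av (fun v => nu Γ M u * nu Γ M v * T (x + t + u - v) ^ 2)) =
        fun u => av (fun v => nu Γ M (u + t - t) * nu Γ M v * T (x + (u + t) - v) ^ 2) := by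
      funext u
      rw [add_sub_cancel_right]
      congr 1
      funext v
      rw [show x + t + u - v = x + (u + t) - v by ring]
    rw [this]
  rw [e1]
  unfold SA_A
  rw [← SA_av_sub]
  refine (SA_av_abs _).trans ?_
  have h1 : ∀ u : ZMod N, |av (fun v => nu Γ M (u - t) * nu Γ M v * T (x + u - v) ^ 2) -
      av (fun v => nu Γ M u * nu Γ M v * T (x + u - v) ^ 2)| ≤ (M : ℝ) ^ (Γ.card + 1) * dG Γ t := by
    intro u
    rw [← SA_av_sub]
    refine (SA_av_abs _).trans ?_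
    have h2 : ∀ v : ZMod N, |nu Γ M (u - t) * nu Γ M v * T (x + u - v) ^ 2 - nu Γ M u * nu Γ M v * T (x + u - v) ^ 2| ≤
        nu Γ M v * ((M : ℝ) ^ (Γ.card + 1) * dG Γ t) := by
      intro v
      have h3 := nu_lip Γ M hM u (-t)
      rw [SA_dG_neg, ← sub_eq_add_neg] at h3
      have h4 : T (x + u - v) ^ 2 ≤ 1 := by
        rw [← sq_abs]
        exact pow_le_one₀ (abs_nonneg _) (hT _)
      have e : nu Γ M (u - t) * nu Γ M v * T (x + u - v) ^ 2 - nu Γ M u * nu Γ M v * T (x + u - v) ^ 2 =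
          (nu Γ M (u - t) - nu Γ M u) * (nu Γ M v * T (x + u - v) ^ 2) := by ring
      have h5 := nu_nonneg Γ M hM v
      rw [e, abs_mul, abs_of_nonneg (mul_nonneg h5 (sq_nonneg (T (x + u - v))))]
      have hL : 0 ≤ (M : ℝ) ^ (Γ.card + 1) * dG Γ t := mul_nonneg (by positivity) (SA_dG_nonneg Γ t)
      calc |nu Γ M (u - t) - nu Γ M u| * (nu Γ M v * T (x + u - v) ^ 2)
          ≤ ((M : ℝ) ^ (Γ.card + 1) * dG Γ t) * (nu Γ M v * 1) := by gcongr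
        _ = nu Γ M v * ((M : ℝ) ^ (Γ.card + 1) * dG Γ t) := by ring
    refine (SA_av_mono h2).trans ?_
    rw [SA_av_mul', av_nu Γ M hM, one_mul]
  refine (SA_av_mono h1).trans (le_of_eq ?_)
  unfold av
  rw [Finset.sum_const, Finset.card_univ, ZMod.card, nsmul_eq_mul]
  rw [mul_div_cancel_left₀ _ (SA_Npos (N := N)).ne']

open Classical in
/-- the core: all data at one scale are given -/
theorem SA_core (r : ℕ) (hr : 2 ≤ r) (ε : ℝ) (hε : 0 < ε) (hε1 : ε ≤ 1) (f : Fin r → Fin r → ZMod N → ℝ)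
    (hf : ∀ i k x, f i k x = 0 ∨ f i k x = 1) (Γ Γ' : Finset (ZMod N)) (M M' Mq : ℕ) (hM : 1 ≤ M) (hM' : 1 ≤ M') (hMq1 : 1 ≤ Mq)
    (hMq : 16 * (r : ℝ) * ((Γ.card + 1 : ℕ) : ℝ) * (16 * ((Γ.card + 1 : ℕ) : ℝ) * (M : ℝ) ^ (Γ.card + 1) / ε) ^ 2 ≤ Mq)
    (κ : ℝ) (hκ0 : 0 ≤ κ) (hκ : ∀ i k, i < k → ∀ n, ‖ft (fun x => f i k x - cv (f i k) (nu Γ' M') x) n‖ ≤ κ)
    (hκ1 : ((Pr r).card : ℝ) * (κ * (Mq : ℝ) ^ Γ.card) ≤ (ε / 16) ^ (Pr r).card / 8)
    (Q p : ℕ) (hp : p.Prime) (hp1 : 32 ≤ ε * p) (hQ : 32 * (p : ℝ) ≤ ε * Q) (τ : Fin r → ZMod N)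
    (hA : ∀ i k, i < k → dn Q (SA_A Γ Mq (fun x => cv (f i k) (nu Γ' M') x - cv (f i k) (nu Γ M) x)) (τ k - τ i) ≤
      ε * (ε ^ 2 / (1024 * (Pr r).card)) / 16)
    (hP : ∀ i k, i < k → (1 - 2 / (r : ℝ) + ε) - dn Q (cv (f i k) (nu Γ M)) (τ k - τ i) ≤ ε / 4)
    (hω1 : ∀ t : ℤ, |t| ≤ (Q / p : ℕ) + 3 → (M : ℝ) ^ (Γ.card + 1) * dG Γ (t : ZMod N) ≤ ε / 8 ∧
      (Mq : ℝ) ^ (Γ.card + 1) * dG Γ (t : ZMod N) ≤ ε ^ 2 / (1024 * (Pr r).card) / 4)
    (hω2 : (M : ℝ) ^ (Γ.card + 1) * dG Γ (Q : ZMod N) ≤ ε / 8 ∧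
      (Mq : ℝ) ^ (Γ.card + 1) * dG Γ (Q : ZMod N) ≤ ε ^ 2 / (1024 * (Pr r).card) / 4) :
    ∃ Y : Fin r → ZMod N, ∀ i k, i < k → f i k (Y k - Y i) = 1 := by
  have hpos : (0 : ℝ) < (Pr r).card := by
    have : (⟨0, by omega⟩, ⟨1, by omega⟩) ∈ Pr r := by
      rw [mem_Pr]
      exact Fin.mk_lt_mk.2 (by norm_num)
    exact_mod_cast Finset.card_pos.2 ⟨_, this⟩
  obtain ⟨β', hβ'⟩ : ∃ β' : ℝ, β' = ε ^ 2 / (1024 * (Pr r).card) := ⟨_, rfl⟩
  have hβ0 : 0 < β' := by rw [hβ']; positivity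
  rw [← hβ'] at hA hω1 hω2
  obtain ⟨P, hPdef⟩ : ∃ P : Fin r → Fin r → ZMod N → ℝ, P = fun i k => cv (f i k) (nu Γ M) := ⟨_, rfl⟩
  obtain ⟨T, hTdef⟩ : ∃ T : Fin r → Fin r → ZMod N → ℝ,
    T = fun i k x => cv (f i k) (nu Γ' M') x - cv (f i k) (nu Γ M) x := ⟨_, rfl⟩
  have hPe : ∀ i k, cv (f i k) (nu Γ M) = P i k := fun i k => by rw [hPdef]
  have hTe : ∀ i k, (fun x => cv (f i k) (nu Γ' M') x - cv (f i k) (nu Γ M) x) = T i k := fun i k => by rw [hTdef]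
  have hA' : ∀ i k, i < k → dn Q (SA_A Γ Mq (T i k)) (τ k - τ i) ≤ ε * β' / 16 := by
    intro i k hik
    have := hA i k hik
    rw [hTe] at this
    exact this
  have hP' : ∀ i k, i < k → (1 - 2 / (r : ℝ) + ε) - dn Q (P i k) (τ k - τ i) ≤ ε / 4 := by
    intro i k hik
    have := hP i k hik
    rw [hPe] at this
    exact this
  have hf01 : ∀ i k x, 0 ≤ f i k x ∧ f i k x ≤ 1 := by
    intro i k x
    rcases hf i k x with h | h <;> rw [h] <;> norm_num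
  have hfabs : ∀ i k x, |f i k x| ≤ 1 := by
    intro i k x
    rw [abs_le]
    exact ⟨by linarith [(hf01 i k x).1], (hf01 i k x).2⟩
  have hPb : ∀ i k x, 0 ≤ P i k x ∧ P i k x ≤ 1 := by
    intro i k x
    rw [hPdef]
    exact cv_bounds (f i k) (hf01 i k) Γ M hM x
  have hPTe : ∀ i k x, P i k x + T i k x = cv (f i k) (nu Γ' M') x := by
    intro i k x
    rw [hPdef, hTdef]
    ring
  have hPTb : ∀ i k x, 0 ≤ P i k x + T i k x ∧ P i k x + T i k x ≤ 1 := by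
    intro i k x
    rw [hPTe]
    exact cv_bounds (f i k) (hf01 i k) Γ' M' hM' x
  have hTb : ∀ i k x, |T i k x| ≤ 1 := by
    intro i k x
    have h1 := hPb i k x
    have h2 := hPTb i k x
    rw [abs_le]
    constructor <;> linarith
  have hPl : ∀ i k x t, |P i k (x + t) - P i k x| ≤ (M : ℝ) ^ (Γ.card + 1) * dG Γ t := by
    intro i k x t
    rw [hPdef]
    exact cv_lip (f i k) (hfabs i k) Γ M hM x t
  have hAl : ∀ i k x t, |SA_A Γ Mq (T i k) (x + t) - SA_A Γ Mq (T i k) x| ≤ (Mq : ℝ) ^ (Γ.card + 1) * dG Γ t :=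
    fun i k x t => SA_lipA Γ Mq hMq1 (T i k) (hTb i k) x t
  have hA0 : ∀ i k x, 0 ≤ SA_A Γ Mq (T i k) x := fun i k x => SA_A_nonneg Γ Mq hMq1 _ x
  have hpp : 0 < p := hp.pos
  have hppr : (0 : ℝ) < p := by exact_mod_cast hpp
  have hQpos : (0 : ℝ) < Q := by
    by_contra hcon
    push Not at hcon
    nlinarith
  -- the good sets
  obtain ⟨E, hEdef⟩ : ∃ E : Fin r → Fin r → Finset ℕ, E = fun i k => (range Q).filter (fun g : ℕ =>
    ε / 2 ≤ P i k (τ k - τ i + (g : ZMod N)) ∧ SA_A Γ Mq (T i k) (τ k - τ i + (g : ZMod N)) ≤ β' / 2) := ⟨_, rfl⟩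
  have hE1 : ∀ i k, i < k → (1 - 2 / (r : ℝ) + ε / 8) * Q ≤ ((E i k).card : ℝ) := by
    intro i k hik
    obtain ⟨s, hs⟩ : ∃ s : ZMod N, s = τ k - τ i := ⟨_, rfl⟩
    have a1 := hA' i k hik
    have a2 := hP' i k hik
    rw [← hs] at a1 a2
    unfold dn at a1 a2
    rw [div_le_iff₀ hQpos] at a1
    have a3 : ((1 - 2 / (r : ℝ) + ε) - ε / 4) * Q ≤ ∑ g ∈ range Q, P i k (s + (g : ZMod N)) := by
      rw [← le_div_iff₀ hQpos]
      linarith
    -- pointwise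
    have b1 : ∀ g ∈ range Q, P i k (s + (g : ZMod N)) - ε / 2 - 2 / β' * SA_A Γ Mq (T i k) (s + (g : ZMod N)) ≤
        if (ε / 2 ≤ P i k (s + (g : ZMod N)) ∧ SA_A Γ Mq (T i k) (s + (g : ZMod N)) ≤ β' / 2) then (1 : ℝ) else 0 := by
      intro g _
      have c1 := hPb i k (s + (g : ZMod N))
      have c2 := hA0 i k (s + (g : ZMod N))
      have c3 : 0 ≤ 2 / β' * SA_A Γ Mq (T i k) (s + (g : ZMod N)) := by positivity
      split_ifs with hc
      · linarith [c1.2]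
      · by_cases hc1 : ε / 2 ≤ P i k (s + (g : ZMod N))
        · have hc2 : β' / 2 < SA_A Γ Mq (T i k) (s + (g : ZMod N)) := by
            by_contra hcon
            exact hc ⟨hc1, not_lt.1 hcon⟩
          have c4 : 1 ≤ 2 / β' * SA_A Γ Mq (T i k) (s + (g : ZMod N)) := by
            rw [div_mul_eq_mul_div, le_div_iff₀ hβ0]
            linarith
          linarith [c1.2]
        · push Not at hc1
          linarith
    have b2 := Finset.sum_le_sum b1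
    rw [Finset.sum_sub_distrib, Finset.sum_sub_distrib, Finset.sum_const, card_range, nsmul_eq_mul, ← Finset.mul_sum,
      Finset.sum_boole] at b2
    have b3 : ((E i k).card : ℝ) = (((range Q).filter (fun g : ℕ =>
        ε / 2 ≤ P i k (s + (g : ZMod N)) ∧ SA_A Γ Mq (T i k) (s + (g : ZMod N)) ≤ β' / 2)).card : ℝ) := by
      rw [hEdef, hs]
    rw [b3]
    refine le_trans ?_ b2
    have b4 : 2 / β' * ∑ g ∈ range Q, SA_A Γ Mq (T i k) (s + (g : ZMod N)) ≤ ε / 8 * Q := by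
      calc 2 / β' * ∑ g ∈ range Q, SA_A Γ Mq (T i k) (s + (g : ZMod N)) ≤ 2 / β' * (ε * β' / 16 * Q) := by gcongr
        _ = ε / 8 * Q := by
          field_simp
          ring
    nlinarith
  obtain ⟨g, hg⟩ := circle r hr (ε / 8) (by positivity) p hp (by linarith) Q (by linarith) E
    (fun i k _ => by rw [hEdef]; exact Finset.filter_subset _ _) hE1
  -- the reference points
  obtain ⟨X, hX⟩ : ∃ X : Fin r → ZMod N, X = fun i => τ i + (g i : ZMod N) := ⟨_, rfl⟩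
  have hXX : ∀ i k, i < k → ε / 4 ≤ P i k (X k - X i) ∧ SA_A Γ Mq (T i k) (X k - X i) ≤ β' := by
    intro i k hik
    obtain ⟨e, he, t, ht, hgt⟩ := hg i k hik
    rw [hEdef] at he
    obtain ⟨_, he1, he2⟩ := Finset.mem_filter.1 he
    have hw := hω1 t ht
    rcases hgt with h | h
    · have ex : X k - X i = τ k - τ i + (e : ZMod N) + (t : ZMod N) := by
        have h' : ((g k : ℤ) : ZMod N) - ((g i : ℤ) : ZMod N) = ((e : ℤ) : ZMod N) + (t : ZMod N) := by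
          rw [← Int.cast_sub, h, Int.cast_add]
        simp only [Int.cast_natCast] at h'
        rw [hX]
        simp only
        linear_combination h'
      rw [ex]
      have l1 := (abs_le.1 (hPl i k (τ k - τ i + (e : ZMod N)) (t : ZMod N))).1
      have l2 := (abs_le.1 (hAl i k (τ k - τ i + (e : ZMod N)) (t : ZMod N))).2
      constructor <;> linarith [hw.1, hw.2]
    · have ex : X k - X i + (Q : ZMod N) = τ k - τ i + (e : ZMod N) + (t : ZMod N) := by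
        have h' : ((g k : ℤ) : ZMod N) - ((g i : ℤ) : ZMod N) = ((e : ℤ) : ZMod N) - ((Q : ℤ) : ZMod N) + (t : ZMod N) := by
          rw [← Int.cast_sub, h, Int.cast_add, Int.cast_sub]
        simp only [Int.cast_natCast] at h'
        rw [hX]
        simp only
        linear_combination h'
      have l1 := (abs_le.1 (hPl i k (τ k - τ i + (e : ZMod N)) (t : ZMod N))).1
      have l2 := (abs_le.1 (hAl i k (τ k - τ i + (e : ZMod N)) (t : ZMod N))).2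
      have l3 := (abs_le.1 (hPl i k (X k - X i) (Q : ZMod N))).2
      have l4 := (abs_le.1 (hAl i k (X k - X i) (Q : ZMod N))).1
      rw [ex] at l3 l4
      constructor <;> linarith [hw.1, hw.2, hω2.1, hω2.2]
  -- counting
  have hmain := count_main r X Γ Mq hMq1 P T ε ((M : ℝ) ^ (Γ.card + 1)) hε hε1
    (by have : (0 : ℝ) < M := by exact_mod_cast hM
        positivity) (Γ.card + 1) (by omega) (by omega) hPTb (fun i k hik => (hXX i k hik).1) hPl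
    (fun i k hik => by
      rw [← hβ']
      exact (hXX i k hik).2) hMq
  have hb1 : ∀ i, av (fun y => nu Γ Mq (y - X i)) = 1 := by
    intro i
    have := SA_av_shift (nu Γ Mq) (-X i)
    rw [av_nu Γ Mq hMq1] at this
    simpa [sub_eq_add_neg] using this
  have hun := count_unif r (fun i y => nu Γ Mq (y - X i)) (fun i x => nu_nonneg Γ Mq hMq1 _) hb1 ((Mq : ℝ) ^ Γ.card)
    (fun i x => nu_le Γ Mq hMq1 _) f (fun i k x => P i k x + T i k x) hf01 hPTb κ hκ0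
    (fun i k hik n => by
      have := hκ i k hik n
      simp only [hPTe]
      exact this)
  have h3 := (abs_le.1 hun).1
  have hg0 : 0 < (ε / 16) ^ (Pr r).card := by positivity
  have hposavr : 0 < avr (fun Y : Fin r → ZMod N => (∏ i, nu Γ Mq (Y i - X i)) * ∏ a ∈ Pr r, f a.1 a.2 (Y a.2 - Y a.1)) := by
    linarith
  by_contra hcon
  push Not at hcon
  have hz : avr (fun Y : Fin r → ZMod N => (∏ i, nu Γ Mq (Y i - X i)) * ∏ a ∈ Pr r, f a.1 a.2 (Y a.2 - Y a.1)) = 0 := by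
    unfold avr
    rw [Finset.sum_eq_zero, zero_div]
    intro Y _
    obtain ⟨i, k, hik, hne⟩ := hcon Y
    have h0 : f i k (Y k - Y i) = 0 := (hf i k _).resolve_right hne
    rw [Finset.prod_eq_zero (i := (i, k)) ((mem_Pr _).2 hik) h0, mul_zero]
  rw [hz] at hposavr
  exact lt_irrefl _ hposavr

/-- frequencies in `Γ` are low, so `dG` is small at short shifts -/
theorem SA_dG_short (Γ : Finset (ZMod N)) (B : ℕ) (hΓ : Γ.card ≤ B) (W : ℝ) (hW : ∀ γ ∈ Γ, |(γ.valMinAbs : ℝ)| ≤ W) (hW0 : 0 ≤ W)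
    (t : ℤ) : dG Γ (t : ZMod N) ≤ B * (2 * Real.pi * (W * |(t : ℝ)|) / N) := by
  unfold dG
  have h1 : ∀ γ ∈ Γ, ‖ch (γ * (t : ZMod N)) - 1‖ ≤ 2 * Real.pi * (W * |(t : ℝ)|) / N := by
    intro γ hγ
    have h2 := ch_upper (γ * (t : ZMod N)) (γ.valMinAbs * t) (by rw [Int.cast_mul, ZMod.coe_valMinAbs])
    refine h2.trans ?_
    rw [Int.cast_mul, abs_mul]
    have := hW γ hγ
    gcongr
  refine (Finset.sum_le_sum h1).trans ?_
  rw [Finset.sum_const, nsmul_eq_mul]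
  gcongr

end

theorem SA_bound (B : ℕ) (Mp : ℕ → ℕ → ℕ) : ∃ Lc : ℝ, 1 ≤ Lc ∧ ∀ G M, G ≤ B → M ≤ B →
    (M : ℝ) ^ (G + 1) ≤ Lc ∧ (Mp G M : ℝ) ^ (G + 1) ≤ Lc := by
  refine ⟨1 + ∑ G ∈ range (B + 1), ∑ M ∈ range (B + 1), ((M : ℝ) ^ (G + 1) + (Mp G M : ℝ) ^ (G + 1)), ?_, ?_⟩
  · have : 0 ≤ ∑ G ∈ range (B + 1), ∑ M ∈ range (B + 1), ((M : ℝ) ^ (G + 1) + (Mp G M : ℝ) ^ (G + 1)) :=
      Finset.sum_nonneg fun G _ => Finset.sum_nonneg fun M _ => by positivity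
    linarith
  · intro G M hG hM
    have h1 : (M : ℝ) ^ (G + 1) + (Mp G M : ℝ) ^ (G + 1) ≤ ∑ M ∈ range (B + 1), ((M : ℝ) ^ (G + 1) + (Mp G M : ℝ) ^ (G + 1)) :=
      Finset.single_le_sum (f := fun M : ℕ => ((M : ℝ) ^ (G + 1) + (Mp G M : ℝ) ^ (G + 1))) (fun _ _ => by positivity)
        (mem_range.2 (by omega))
    have h2 := Finset.single_le_sum (f := fun G : ℕ => ∑ M ∈ range (B + 1), ((M : ℝ) ^ (G + 1) + (Mp G M : ℝ) ^ (G + 1)))
      (s := range (B + 1)) (fun _ _ => Finset.sum_nonneg fun _ _ => by positivity) (mem_range.2 (show G < B + 1 by omega))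
    have h3 : 0 ≤ (M : ℝ) ^ (G + 1) := by positivity
    have h4 : 0 ≤ (Mp G M : ℝ) ^ (G + 1) := by positivity
    constructor <;> linarith

theorem SA_aux (r : ℕ) (hr : 2 ≤ r) (ε : ℝ) (hε : 0 < ε) (hε1 : ε ≤ 1) (hε2 : ε ≤ 2 / (r : ℝ)) :
    ∃ δ : ℝ, 0 < δ ∧ ∃ Λ : ℕ, 80 ≤ Λ ∧ ∀ Λ' : ℕ, Λ ≤ Λ' → ∀ s : ℕ, ∃ N0 : ℕ, ∀ N : ℕ, N0 ≤ N → Λ' ∣ N → ∀ [NeZero N]
      (f : Fin r → Fin r → ZMod N → ℝ), (∀ i k x, f i k x = 0 ∨ f i k x = 1) →
      (∀ i k, (univ.filter (fun x => f i k x ≠ f i k (x - 1))).card ≤ s) →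
      (∀ i k, i < k → ∑ x ∈ univ.filter (fun x : ZMod N => 5 * |x.valMinAbs| ≤ N),
        max 0 ((1 - 2 / (r : ℝ) + ε) - dn (N / Λ') (f i k) x) ≤ δ * N) →
      ∃ Y : Fin r → ZMod N, ∀ i k, i < k → f i k (Y k - Y i) = 1 := by
  obtain ⟨R, hR⟩ : ∃ R : ℕ, R = (Pr r).card := ⟨_, rfl⟩
  have hR1 : 1 ≤ R := by
    have : (⟨0, by omega⟩, ⟨1, by omega⟩) ∈ Pr r := by
      rw [mem_Pr]
      exact Fin.mk_lt_mk.2 (by norm_num)
    rw [hR]
    exact Finset.card_pos.2 ⟨_, this⟩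
  have hRr : (0 : ℝ) < R := by exact_mod_cast hR1
  obtain ⟨g, hg⟩ : ∃ g : ℝ, g = (ε / 16) ^ R := ⟨_, rfl⟩
  have hg0 : 0 < g := by rw [hg]; positivity
  obtain ⟨Mp, hMp⟩ : ∃ Mp : ℕ → ℕ → ℕ, Mp = fun G M : ℕ =>
    ⌈16 * (r : ℝ) * ((G + 1 : ℕ) : ℝ) * (16 * ((G + 1 : ℕ) : ℝ) * (M : ℝ) ^ (G + 1) / ε) ^ 2⌉₊ + 1 := ⟨_, rfl⟩
  have hMp1 : ∀ G M : ℕ, 1 ≤ Mp G M := fun G M => by rw [hMp]; simp
  have hMp2 : ∀ G M : ℕ, 16 * (r : ℝ) * ((G + 1 : ℕ) : ℝ) * (16 * ((G + 1 : ℕ) : ℝ) * (M : ℝ) ^ (G + 1) / ε) ^ 2 ≤ (Mp G M : ℝ) := by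
    intro G M
    rw [hMp]
    simp only
    push_cast
    have := Nat.le_ceil (16 * (r : ℝ) * ((G + 1 : ℕ) : ℝ) * (16 * ((G + 1 : ℕ) : ℝ) * (M : ℝ) ^ (G + 1) / ε) ^ 2)
    push_cast at this
    linarith
  have hMpr : ∀ G M, (0 : ℝ) < Mp G M := fun G M => by exact_mod_cast hMp1 G M
  obtain ⟨K, hK⟩ : ∃ K : ℕ → ℕ → ℝ, K = fun G M => g / (8 * R * (Mp G M : ℝ) ^ G) := ⟨_, rfl⟩
  have hK0 : ∀ G M, 0 < K G M := by
    intro G M
    rw [hK]
    have := hMpr G M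
    positivity
  have hKe : ∀ G M, (R : ℝ) * (K G M * (Mp G M : ℝ) ^ G) ≤ g / 8 := by
    intro G M
    rw [hK]
    have := hMpr G M
    refine le_of_eq ?_
    field_simp
  obtain ⟨β', hβ'⟩ : ∃ β' : ℝ, β' = ε ^ 2 / (1024 * R) := ⟨_, rfl⟩
  have hβ'0 : 0 < β' := by rw [hβ']; positivity
  obtain ⟨x0, hx0⟩ : ∃ x0 : ℝ, x0 = ε * β' / 16 := ⟨_, rfl⟩
  have hx00 : 0 < x0 := by rw [hx0]; positivity
  obtain ⟨M0, hM0⟩ : ∃ M0 : ℕ, M0 = ⌈9216 * R / ε⌉₊ + 1 := ⟨_, rfl⟩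
  have hM01 : 1 ≤ M0 := by omega
  have hM02 : 9216 * R / ε ≤ (M0 : ℝ) := by
    rw [hM0]
    push_cast
    have := Nat.le_ceil (9216 * (R : ℝ) / ε)
    linarith
  obtain ⟨B, hB1, hB⟩ := decomposition R (x0 / 18) (by positivity) K hK0 M0 hM01
  obtain ⟨Lc, hLc1, hLc⟩ := SA_bound B Mp
  have hBr : (1 : ℝ) ≤ B := by exact_mod_cast hB1
  obtain ⟨ω, hω⟩ : ∃ ω : ℝ, ω = min (ε / 8) (β' / 4) / Lc := ⟨_, rfl⟩
  have hω0 : 0 < ω := by
    rw [hω]
    have : 0 < min (ε / 8) (β' / 4) := lt_min (by positivity) (by positivity)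
    positivity
  have hωL : Lc * ω = min (ε / 8) (β' / 4) := by
    rw [hω]
    field_simp
  obtain ⟨K1, hK1⟩ : ∃ K1 : ℕ, K1 = ⌈2 * Real.pi * B / ω⌉₊ + 1 := ⟨_, rfl⟩
  have hK11 : 1 ≤ K1 := by omega
  have hK12 : 2 * Real.pi * B / ω ≤ (K1 : ℝ) := by
    rw [hK1]
    push_cast
    have := Nat.le_ceil (2 * Real.pi * B / ω)
    linarith
  have hK1r : (0 : ℝ) < K1 := by exact_mod_cast hK11
  refine ⟨ε / (144 * R), by positivity, 80 * K1 ^ B, ?_, ?_⟩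
  · have := Nat.one_le_pow B K1 hK11
    omega
  intro Λ' hΛ' s
  have hK1B := Nat.one_le_pow B K1 hK11
  have hΛ1 : 80 ≤ Λ' := by omega
  have hΛr : (0 : ℝ) < Λ' := by
    have : (80 : ℝ) ≤ Λ' := by exact_mod_cast hΛ1
    linarith
  obtain ⟨W, hW⟩ : ∃ W : ℝ, W = s * B + 1 := ⟨_, rfl⟩
  have hW0 : 0 < W := by rw [hW]; positivity
  obtain ⟨p, hpge, hp⟩ := Nat.exists_infinite_primes (⌈32 / ε⌉₊ + ⌈2 * Real.pi * B * W / (40 * ω)⌉₊)
  have hp32 : 32 ≤ ε * p := by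
    have h1 : (⌈32 / ε⌉₊ : ℝ) ≤ p := by exact_mod_cast (Nat.le_add_right _ _).trans hpge
    have h2 := (Nat.le_ceil (32 / ε)).trans h1
    rw [div_le_iff₀ hε] at h2
    linarith
  have hpW : 2 * Real.pi * B * W / (40 * ω) ≤ p := by
    have h1 : (⌈2 * Real.pi * B * W / (40 * ω)⌉₊ : ℝ) ≤ p := by exact_mod_cast (Nat.le_add_left _ _).trans hpge
    exact (Nat.le_ceil _).trans h1
  have hppos : (0 : ℝ) < p := by exact_mod_cast hp.pos
  refine ⟨72 + Λ' + ⌈32 * p * Λ' / ε⌉₊ + ⌈12 * Real.pi * B * W / ω⌉₊, ?_⟩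
  intro N hN hdvd _ f hf hs hdens
  have hN72 : 72 ≤ N := by omega
  have hNΛ : Λ' ≤ N := by omega
  have hNr : (0 : ℝ) < N := by
    have : (72 : ℝ) ≤ N := by exact_mod_cast hN72
    linarith
  have hN1 : 32 * p * Λ' / ε ≤ (N : ℝ) := by
    have h1 : (⌈32 * (p : ℝ) * Λ' / ε⌉₊ : ℝ) ≤ N := by
      have : ⌈32 * (p : ℝ) * Λ' / ε⌉₊ ≤ N := by omega
      exact_mod_cast this
    exact (Nat.le_ceil _).trans h1
  have hN2 : 12 * Real.pi * B * W / ω ≤ (N : ℝ) := by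
    have h1 : (⌈12 * Real.pi * B * W / ω⌉₊ : ℝ) ≤ N := by
      have : ⌈12 * Real.pi * B * W / ω⌉₊ ≤ N := by omega
      exact_mod_cast this
    exact (Nat.le_ceil _).trans h1
  obtain ⟨m0, hm0⟩ : ∃ m0 : ℕ, m0 = N / Λ' := ⟨_, rfl⟩
  have hm0N : m0 * Λ' = N := by rw [hm0]; exact Nat.div_mul_cancel hdvd
  have hm01 : 1 ≤ m0 := by
    rcases Nat.eq_zero_or_pos m0 with h | h
    · rw [h, zero_mul] at hm0N
      omega
    · exact h
  rw [← hm0] at hdens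
  -- the decomposition
  obtain ⟨e, he⟩ : ∃ e : {x // x ∈ Pr r} ≃ Fin R, e = (Pr r).equivFin.trans (finCongr hR.symm) := ⟨_, rfl⟩
  have hfabs : ∀ i k x, |f i k x| ≤ 1 := by
    intro i k x
    rcases hf i k x with h | h <;> rw [h] <;> norm_num
  obtain ⟨Γ, Γ', M, M', hΓ1, hΓB, hMM0, hMB, hM'1, hΓs, hun, hsum⟩ := hB N
    (fun a => f (e.symm a).1.1 (e.symm a).1.2) (fun a x => hfabs _ _ x) {1} (by simp)
  have h1Γ : (1 : ZMod N) ∈ Γ := hΓ1 (Finset.mem_singleton_self _)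
  have hM1 : 1 ≤ M := hM01.trans hMM0
  have hMr : (0 : ℝ) < M := by exact_mod_cast hM1
  have hκ : ∀ i k, i < k → ∀ n, ‖ft (fun x => f i k x - cv (f i k) (nu Γ' M') x) n‖ ≤ K Γ.card M := by
    intro i k hik n
    have := hun (e ⟨(i, k), (mem_Pr _).2 hik⟩) n
    simpa using this
  have hsum' : ∑ a ∈ Pr r, av (fun x => (cv (f a.1 a.2) (nu Γ' M') x - cv (f a.1 a.2) (nu Γ M) x) ^ 2) ≤ x0 / 18 := by
    refine le_trans (le_of_eq ?_) hsum
    rw [← Finset.sum_coe_sort (Pr r) (fun a => av (fun x => (cv (f a.1 a.2) (nu Γ' M') x - cv (f a.1 a.2) (nu Γ M) x) ^ 2))]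
    exact (Equiv.sum_comp e.symm (fun b : {x // x ∈ Pr r} =>
      av (fun x => (cv (f b.1.1 b.1.2) (nu Γ' M') x - cv (f b.1.1 b.1.2) (nu Γ M) x) ^ 2))).symm
  -- low frequencies
  have hlow : ∀ γ ∈ Γ, |(γ.valMinAbs : ℝ)| ≤ W := by
    intro γ hγ
    by_cases hγ1 : γ ∈ ({1} : Finset (ZMod N))
    · rw [Finset.mem_singleton.1 hγ1]
      have h1 : |((1 : ZMod N).valMinAbs : ℝ)| ≤ 1 := by
        have hh : ((1 : ℤ) : ZMod N) = (1 : ZMod N) := Int.cast_one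
        have : (1 : ZMod N).valMinAbs = 1 := by
          refine (ZMod.valMinAbs_spec (1 : ZMod N) 1).2 ⟨hh.symm, ?_, ?_⟩
          · omega
          · omega
        rw [this]
        norm_num
      have h2 : (0 : ℝ) ≤ s * B := by positivity
      rw [hW]
      linarith
    · obtain ⟨a, ha⟩ := hΓs γ hγ hγ1
      have h1 := low_freq (f (e.symm a).1.1 (e.symm a).1.2) (hf _ _) s (hs _ _) γ
      have h2 : |(γ.valMinAbs : ℝ)| * (1 / B) ≤ s := by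
        have h3 : |(γ.valMinAbs : ℝ)| * (1 / B) ≤ |(γ.valMinAbs : ℝ)| * ‖ft (f (e.symm a).1.1 (e.symm a).1.2) γ‖ :=
          mul_le_mul_of_nonneg_left ha.le (abs_nonneg _)
        have h4 : 0 ≤ |(γ.valMinAbs : ℝ)| * ‖ft (f (e.symm a).1.1 (e.symm a).1.2) γ‖ := by positivity
        linarith
      rw [mul_one_div, div_le_iff₀ (by linarith)] at h2
      rw [hW]
      linarith
  -- the scale
  obtain ⟨m, hm1, hmK, hmp⟩ := almost_period B K1 hK11 N Γ hΓB m0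
  obtain ⟨Q, hQ⟩ : ∃ Q : ℕ, Q = m * m0 := ⟨_, rfl⟩
  rw [← hQ] at hmp
  have h80 : 80 * Q ≤ N := by
    rw [hQ]
    calc 80 * (m * m0) ≤ 80 * (K1 ^ B * m0) := by gcongr
      _ = (80 * K1 ^ B) * m0 := by ring
      _ ≤ Λ' * m0 := by gcongr
      _ = N := by rw [mul_comm]; exact hm0N
  have hQ1 : 1 ≤ Q := by rw [hQ]; exact Nat.mul_pos hm1 hm01
  have hQm : m0 ≤ Q := by rw [hQ]; exact Nat.le_mul_of_pos_left _ hm1
  have hQr : 80 * (Q : ℝ) ≤ N := by exact_mod_cast h80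
  have hQp : 32 * (p : ℝ) ≤ ε * Q := by
    have h1 : (m0 : ℝ) ≤ Q := by exact_mod_cast hQm
    have h2 : (m0 : ℝ) * Λ' = N := by exact_mod_cast hm0N
    rw [div_le_iff₀ hε] at hN1
    have h3 : 32 * (p : ℝ) * Λ' ≤ (ε * m0) * Λ' := by
      calc 32 * (p : ℝ) * Λ' ≤ N * ε := hN1
        _ = (ε * m0) * Λ' := by rw [← h2]; ring
    have h4 : 32 * (p : ℝ) ≤ ε * m0 := le_of_mul_le_mul_right h3 hΛr
    exact h4.trans (by gcongr)
  have hdQ : dG Γ (Q : ZMod N) ≤ ω := by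
    unfold dG
    refine (Finset.sum_le_sum hmp).trans ?_
    rw [Finset.sum_const, nsmul_eq_mul]
    have h1 : (Γ.card : ℝ) ≤ B := by exact_mod_cast hΓB
    calc (Γ.card : ℝ) * (2 * Real.pi / K1) ≤ B * (2 * Real.pi / K1) := by gcongr
      _ = 2 * Real.pi * B / K1 := by ring
      _ ≤ ω := by
        rw [div_le_iff₀ hK1r]
        rw [div_le_iff₀ hω0] at hK12
        linarith
  have hdt : ∀ t : ℤ, |t| ≤ (Q / p : ℕ) + 3 → dG Γ (t : ZMod N) ≤ ω := by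
    intro t ht
    refine (SA_dG_short Γ B hΓB W hlow hW0.le t).trans ?_
    have h1 : |(t : ℝ)| ≤ Q / p + 3 := by
      have h2 : ((|t| : ℤ) : ℝ) ≤ ((((Q / p : ℕ) : ℤ) + 3 : ℤ) : ℝ) := Int.cast_le.2 ht
      rw [Int.cast_abs, Int.cast_add, Int.cast_natCast] at h2
      have h0 : ((3 : ℤ) : ℝ) = 3 := by norm_num
      rw [h0] at h2
      have h3 : ((Q / p : ℕ) : ℝ) ≤ (Q : ℝ) / p := Nat.cast_div_le
      linarith
    have h4 : (Q : ℝ) / p ≤ N / (80 * p) := by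
      rw [div_le_div_iff₀ hppos (by positivity)]
      nlinarith
    have h5 : |(t : ℝ)| ≤ N / (80 * p) + 3 := by linarith
    have h6 : (B : ℝ) * (2 * Real.pi * (W * |(t : ℝ)|) / N) ≤ B * (2 * Real.pi * (W * (N / (80 * p) + 3)) / N) := by gcongr
    refine h6.trans ?_
    have h7 : (B : ℝ) * (2 * Real.pi * (W * (N / (80 * p) + 3)) / N) =
        2 * Real.pi * B * W / (80 * p) + 6 * Real.pi * B * W / N := by
      field_simp
      ring
    rw [h7]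
    have h8 : 2 * Real.pi * B * W / (80 * p) ≤ ω / 2 := by
      rw [div_le_iff₀ (by positivity)] at hpW ⊢
      linarith
    have h9 : 6 * Real.pi * B * W / N ≤ ω / 2 := by
      rw [div_le_iff₀ hω0] at hN2
      rw [div_le_iff₀ hNr]
      linarith
    linarith
  have hLcc := hLc Γ.card M hΓB hMB
  have hfin : ∀ t : ZMod N, dG Γ t ≤ ω → (M : ℝ) ^ (Γ.card + 1) * dG Γ t ≤ ε / 8 ∧
      ((Mp Γ.card M : ℕ) : ℝ) ^ (Γ.card + 1) * dG Γ t ≤ β' / 4 := by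
    intro t ht
    have h0 := SA_dG_nonneg Γ t
    have hLc0 : 0 ≤ Lc := by linarith
    constructor
    · calc (M : ℝ) ^ (Γ.card + 1) * dG Γ t ≤ Lc * ω := mul_le_mul hLcc.1 ht h0 hLc0
        _ ≤ ε / 8 := by rw [hωL]; exact min_le_left _ _
    · calc ((Mp Γ.card M : ℕ) : ℝ) ^ (Γ.card + 1) * dG Γ t ≤ Lc * ω := mul_le_mul hLcc.2 ht h0 hLc0
        _ ≤ β' / 4 := by rw [hωL]; exact min_le_right _ _
  -- choice of the translates
  obtain ⟨Mq, hMqe⟩ : ∃ Mq : ℕ, Mq = Mp Γ.card M := ⟨_, rfl⟩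
  have hMq1 : 1 ≤ Mq := by rw [hMqe]; exact hMp1 _ _
  obtain ⟨A, hAdef⟩ : ∃ A : Fin r → Fin r → ZMod N → ℝ, A = fun i k =>
    SA_A Γ Mq (fun x => cv (f i k) (nu Γ' M') x - cv (f i k) (nu Γ M) x) := ⟨_, rfl⟩
  have hA0 : ∀ i k x, 0 ≤ A i k x := by
    intro i k x
    rw [hAdef]
    exact SA_A_nonneg Γ Mq hMq1 _ x
  have hAav : ∀ i k, ∑ x, dn Q (A i k) x = N * av (fun x => (cv (f i k) (nu Γ' M') x - cv (f i k) (nu Γ M) x) ^ 2) := by
    intro i k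
    rw [sum_dn _ Q hQ1, ← SA_avA Γ Mq hMq1, hAdef]
    unfold av
    rw [mul_div_cancel₀ _ hNr.ne']
  obtain ⟨D, hD⟩ : ∃ D : ℝ, D = 1 - 2 / (r : ℝ) + ε := ⟨_, rfl⟩
  have hD1 : D ≤ 1 := by rw [hD]; linarith
  rw [← hD] at hdens
  have hf01 : ∀ i k x, 0 ≤ f i k x ∧ f i k x ≤ 1 := by
    intro i k x
    rcases hf i k x with h | h <;> rw [h] <;> norm_num
  have hPs : ∀ i k, i < k → ∑ s ∈ univ.filter (fun s : ZMod N => 8 * |s.valMinAbs| ≤ N),
      max 0 (D - dn Q (cv (f i k) (nu Γ M)) s) ≤ ε / (144 * R) * N + 64 / M * N := by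
    intro i k hik
    have h1 := dens_conv (f i k) (hf01 i k) Γ h1Γ M hM1 Q hQ1 D hD1
    have h2 := dens_mult (f i k) m m0 hm1 hm01 (by rw [← hQ]; exact h80) D
    rw [← hQ] at h2
    have h3 := hdens i k hik
    linarith
  obtain ⟨h, hh⟩ : ∃ h : Fin r → Fin r → ZMod N → ℝ, h = fun i k x =>
    dn Q (A i k) x / x0 + max 0 (D - dn Q (cv (f i k) (nu Γ M)) x) / (ε / 4) := ⟨_, rfl⟩
  have hdnA0 : ∀ i k x, 0 ≤ dn Q (A i k) x := fun i k x => RB_dn_nonneg (hA0 i k) Q x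
  have hh0 : ∀ i k x, 0 ≤ h i k x := by
    intro i k x
    rw [hh]
    have h1 := hdnA0 i k x
    have h2 : 0 ≤ max 0 (D - dn Q (cv (f i k) (nu Γ M)) x) := le_max_left _ _
    positivity
  obtain ⟨τ, hτ⟩ := exists_tau r N hN72 h hh0
  have hbig : 9 / (N : ℝ) * ∑ a ∈ Pr r, ∑ s ∈ univ.filter (fun s : ZMod N => 8 * |s.valMinAbs| ≤ N), h a.1 a.2 s ≤ 1 := by
    have h1 : ∀ a ∈ Pr r, ∑ s ∈ univ.filter (fun s : ZMod N => 8 * |s.valMinAbs| ≤ N), h a.1 a.2 s ≤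
        N * av (fun x => (cv (f a.1 a.2) (nu Γ' M') x - cv (f a.1 a.2) (nu Γ M) x) ^ 2) / x0 +
          (ε / (144 * R) * N + 64 / M * N) / (ε / 4) := by
      intro a ha
      rw [hh]
      simp only
      rw [Finset.sum_add_distrib, ← Finset.sum_div, ← Finset.sum_div]
      refine add_le_add ?_ ?_
      · refine div_le_div_of_nonneg_right ?_ hx00.le
        rw [← hAav]
        exact Finset.sum_le_sum_of_subset_of_nonneg (Finset.filter_subset _ _) fun x _ _ => hdnA0 _ _ x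
      · exact div_le_div_of_nonneg_right (hPs a.1 a.2 ((mem_Pr a).1 ha)) (by positivity)
    have h2 := Finset.sum_le_sum h1
    rw [Finset.sum_add_distrib, ← Finset.sum_div, ← Finset.mul_sum, Finset.sum_const, ← hR, nsmul_eq_mul] at h2
    have h3 : 9 / (N : ℝ) * (N * (∑ a ∈ Pr r, av (fun x => (cv (f a.1 a.2) (nu Γ' M') x - cv (f a.1 a.2) (nu Γ M) x) ^ 2)) / x0) ≤ 1 / 2 := by
      calc 9 / (N : ℝ) * (N * (∑ a ∈ Pr r, av (fun x => (cv (f a.1 a.2) (nu Γ' M') x - cv (f a.1 a.2) (nu Γ M) x) ^ 2)) / x0)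
          ≤ 9 / (N : ℝ) * (N * (x0 / 18) / x0) :=
            mul_le_mul_of_nonneg_left (div_le_div_of_nonneg_right (mul_le_mul_of_nonneg_left hsum' hNr.le) hx00.le) (by positivity)
        _ = 1 / 2 := by
          field_simp
          norm_num
    have h4 : 9 / (N : ℝ) * (R * ((ε / (144 * R) * N + 64 / M * N) / (ε / 4))) ≤ 1 / 2 := by
      have e1 : 9 / (N : ℝ) * (R * ((ε / (144 * R) * N + 64 / M * N) / (ε / 4))) = 1 / 4 + 2304 * R / (ε * M) := by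
        field_simp
        ring
      have e2 : 2304 * R / (ε * M) ≤ 1 / 4 := by
        have h5 : 9216 * R / ε ≤ (M : ℝ) := hM02.trans (by exact_mod_cast hMM0)
        rw [div_le_iff₀ hε] at h5
        rw [div_le_iff₀ (by positivity)]
        linarith
      linarith
    calc 9 / (N : ℝ) * ∑ a ∈ Pr r, ∑ s ∈ univ.filter (fun s : ZMod N => 8 * |s.valMinAbs| ≤ N), h a.1 a.2 s
        ≤ 9 / (N : ℝ) * (N * (∑ a ∈ Pr r, av (fun x => (cv (f a.1 a.2) (nu Γ' M') x - cv (f a.1 a.2) (nu Γ M) x) ^ 2)) / x0 +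
          R * ((ε / (144 * R) * N + 64 / M * N) / (ε / 4))) := mul_le_mul_of_nonneg_left h2 (by positivity)
      _ ≤ 1 := by
        rw [mul_add]
        linarith
  have hle : ∀ i k, i < k → h i k (τ k - τ i) ≤ 1 := by
    intro i k hik
    have h1 := Finset.single_le_sum (s := Pr r) (f := fun a => h a.1 a.2 (τ a.2 - τ a.1)) (fun a _ => hh0 _ _ _)
      ((mem_Pr (i, k)).2 hik)
    simp only at h1
    linarith
  have hAle : ∀ i k, i < k → dn Q (A i k) (τ k - τ i) ≤ x0 := by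
    intro i k hik
    have h1 := hle i k hik
    rw [hh] at h1
    simp only at h1
    have h2 : 0 ≤ max 0 (D - dn Q (cv (f i k) (nu Γ M)) (τ k - τ i)) / (ε / 4) :=
      div_nonneg (le_max_left _ _) (by positivity)
    have h3 : dn Q (A i k) (τ k - τ i) / x0 ≤ 1 := by linarith
    rwa [div_le_one hx00] at h3
  have hPle : ∀ i k, i < k → D - dn Q (cv (f i k) (nu Γ M)) (τ k - τ i) ≤ ε / 4 := by
    intro i k hik
    have h1 := hle i k hik
    rw [hh] at h1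
    simp only at h1
    have h2 : 0 ≤ dn Q (A i k) (τ k - τ i) / x0 := div_nonneg (hdnA0 _ _ _) hx00.le
    have h3 : max 0 (D - dn Q (cv (f i k) (nu Γ M)) (τ k - τ i)) / (ε / 4) ≤ 1 := by linarith
    rw [div_le_one (by positivity)] at h3
    exact (le_max_right _ _).trans h3
  refine SA_core r hr ε hε hε1 f hf Γ Γ' M M' Mq hM1 hM'1 hMq1 (by rw [hMqe]; exact hMp2 Γ.card M) (K Γ.card M) (hK0 _ _).le hκ ?_
    Q p hp hp32 hQp τ ?_ ?_ ?_ ?_
  · rw [← hR, ← hg, hMqe]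
    exact hKe Γ.card M
  · intro i k hik
    have h1 := hAle i k hik
    rw [hAdef, hx0, hβ', hR] at h1
    exact h1
  · intro i k hik
    have h1 := hPle i k hik
    rw [hD] at h1
    exact h1
  · intro t ht
    have h1 := hfin (t : ZMod N) (hdt t ht)
    rw [← hMqe, hβ', hR] at h1
    exact h1
  · have h1 := hfin (Q : ZMod N) hdQ
    rw [← hMqe, hβ', hR] at h1
    exact h1

theorem single_scale (r : ℕ) (hr : 2 ≤ r) (ε : ℝ) (hε : 0 < ε) (hε1 : ε ≤ 1) :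
    ∃ δ : ℝ, 0 < δ ∧ ∃ Λ : ℕ, 80 ≤ Λ ∧ ∀ Λ' : ℕ, Λ ≤ Λ' → ∀ s : ℕ, ∃ N0 : ℕ, ∀ N : ℕ, N0 ≤ N → Λ' ∣ N → ∀ [NeZero N]
      (f : Fin r → Fin r → ZMod N → ℝ), (∀ i k x, f i k x = 0 ∨ f i k x = 1) →
      (∀ i k, (univ.filter (fun x => f i k x ≠ f i k (x - 1))).card ≤ s) →
      (∀ i k, i < k → ∑ x ∈ univ.filter (fun x : ZMod N => 5 * |x.valMinAbs| ≤ N),
        max 0 ((1 - 2 / (r : ℝ) + ε) - dn (N / Λ') (f i k) x) ≤ δ * N) →
      ∃ Y : Fin r → ZMod N, ∀ i k, i < k → f i k (Y k - Y i) = 1 := by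
  have hrr : (0 : ℝ) < r := by
    have : 0 < r := by omega
    exact_mod_cast this
  obtain ⟨δ, hδ, Λ, hΛ, H⟩ := SA_aux r hr (min ε (2 / (r : ℝ))) (lt_min hε (by positivity)) ((min_le_left _ _).trans hε1)
    (min_le_right _ _)
  refine ⟨δ, hδ, Λ, hΛ, fun Λ' hΛ' s => ?_⟩
  obtain ⟨N0, hN0⟩ := H Λ' hΛ' s
  refine ⟨N0, fun N hN hd _ f hf hs hdens => hN0 N hN hd f hf hs fun i k hik => ?_⟩
  refine le_trans (Finset.sum_le_sum fun x _ => ?_) (hdens i k hik)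
  refine max_le_max le_rfl ?_
  have := min_le_left ε (2 / (r : ℝ))
  linarith

end H86LP
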