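import Pool.Agent.H86.LP.SA

/-!
# SB: from cells to real numbers

Apply `single_scale` with `ε/2`: `δ, Λ`. Given `Λ'` let `n0 ≥ max 1 (2 Λ'/ε)`. Given `n` (a multiple of `20 Λ'`, `n ≥ n0`) and `S` let `s = 2 n + 10`, `n2` with `n n2 ≥ N0 (s)`, `n2 ≥ 1`, `N = n n2`.
`f i k x = 1` if `4 |v| < N` and `⌊v/n2⌋ ∈ S i k` (`v = x.valMinAbs`, floor division `v / n2` of integers), otherwise `0`.
* sign changes: `f x ≠ f (x - 1)` implies `n2 ∣ v` or `n2 ∣ v - 1` with `4 |v - 1| = N`-type boundary (`n/4 * n2` is a multiple of `n2`) or the wrap around: at most `2 n + 10`.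
* `n/Λ'` cells: `N/Λ' = n2 (n/Λ')`. For `5 |v| ≤ N`, `v = n2 j + ρ`, `0 ≤ ρ < n2` (so `j ∈ [-n/5, n/5]`): the numbers `v, .., v + N/Λ' - 1` are `valMinAbs` of `x + g` (`N/5 + N/80 < N/4`: no wrap around and
  `4|.| < N`), they contain all points of the cells `j+1, .., j + n/Λ' - 1` and miss at most `n2` points of the cell `j`, so `dn (N/Λ') f x ≥ dz (S i k) (n/Λ') j - Λ'/n ≥ dz .. - ε/2`.
  Hence `∑_x max 0 (1 - 2/r + ε/2 - dn ..) ≤ n2 ∑_j max 0 (1 - 2/r + ε - dz ..) ≤ n2 δ n = δ N`.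
* the result `Y : Fin r → ZMod N`; `y i = (Y i - Y 0).valMinAbs / n2` (`r ≥ 2`, so `0 : Fin r` exists). For `i < k` the integers `(Y k - Y 0).valMinAbs - (Y i - Y 0).valMinAbs` and `(Y k - Y i).valMinAbs` are
  congruent mod `N` and of absolute value `< N/2` resp. `< N/4` (all `4 |(Y k - Y i).valMinAbs| < N` as `f i k (..) = 1`; for `i = 0` trivial), so they are equal; `⌊y k - y i⌋ = ⌊(Y k - Y i).valMinAbs/n2⌋ ∈ S i k`
  (`Int.floor_div..`, `Rat/Real floor of an integer quotient = integer division`).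
-/

set_option autoImplicit false

open Finset

namespace H86LP

open Classical in
/-- density of `S` in `[j, j + w)` -/
noncomputable def dz (S : Set ℤ) (w : ℕ) (j : ℤ) : ℝ := (((Finset.Ico j (j + w)).filter (fun u => u ∈ S)).card : ℝ) / w

open Classical in
/-- the function of a set of cells -/
noncomputable def SBf (N n2 : ℕ) (S : Set ℤ) (x : ZMod N) : ℝ :=
  if 4 * |x.valMinAbs| < (N : ℤ) ∧ x.valMinAbs / (n2 : ℤ) ∈ S then 1 else 0

theorem SB_vma {N : ℕ} [NeZero N] (x : ZMod N) (v : ℤ) (h : x = (v : ZMod N))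
    (h2 : -(N : ℤ) < v * 2) (h3 : v * 2 ≤ N) : x.valMinAbs = v :=
  (ZMod.valMinAbs_spec x v).2 ⟨h, h2, h3⟩

theorem SB_range {N : ℕ} [NeZero N] (x : ZMod N) :
    -(N : ℤ) < x.valMinAbs * 2 ∧ x.valMinAbs * 2 ≤ N := x.valMinAbs_mem_Ioc

theorem SB_ediv (a b q : ℤ) (hb : 0 < b) (h1 : q * b ≤ a) (h2 : a < (q + 1) * b) : a / b = q :=
  le_antisymm (Int.lt_add_one_iff.1 ((Int.ediv_lt_iff_lt_mul hb).2 h2))
    ((Int.le_ediv_iff_mul_le hb).2 h1)

theorem SB_zero {N : ℕ} (n2 : ℕ) (S : Set ℤ) (x : ZMod N) (h : (N : ℤ) ≤ 4 * |x.valMinAbs|) :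
    SBf N n2 S x = 0 := by
  unfold SBf
  rw [if_neg]
  intro h'
  omega

theorem SB_change (n n2 N : ℕ) [NeZero N] (hn2 : 1 ≤ n2) (hn : 4 ∣ n) (hn1 : 1 ≤ n)
    (hN : N = n * n2) (S : Set ℤ) :
    (univ.filter (fun x : ZMod N => SBf N n2 S x ≠ SBf N n2 S (x - 1))).card ≤ 2 * n + 10 := by
  obtain ⟨q, hq⟩ := hn
  obtain ⟨b, hb⟩ : ∃ b : ℤ, b = (n2 : ℤ) := ⟨_, rfl⟩
  obtain ⟨m, hm⟩ : ∃ m : ℤ, m = (q : ℤ) * b := ⟨_, rfl⟩
  have hb1 : 1 ≤ b := by rw [hb]; exact_mod_cast hn2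
  have hq1 : (1 : ℤ) ≤ q := by
    have : 1 ≤ q := by omega
    exact_mod_cast this
  have hN4 : (N : ℤ) = 4 * m := by
    rw [hN, hq, hm, hb]
    push_cast
    ring
  have hm1 : 1 ≤ m := by rw [hm]; nlinarith
  have hsub : (univ.filter (fun x : ZMod N => SBf N n2 S x ≠ SBf N n2 S (x - 1))) ⊆
      ((Finset.Icc (-(n : ℤ)) n).image (fun j : ℤ => ((b * j : ℤ) : ZMod N))) ∪
        {((-m + 1 : ℤ) : ZMod N)} := by
    intro x hx
    have hne := (Finset.mem_filter.1 hx).2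
    obtain ⟨v, hv⟩ : ∃ v : ℤ, v = x.valMinAbs := ⟨_, rfl⟩
    have hr := SB_range x
    rw [← hv] at hr
    have hxv : x = (v : ZMod N) := by rw [hv, ZMod.coe_valMinAbs]
    rw [Finset.mem_union, Finset.mem_image, Finset.mem_singleton]
    by_cases hw : -(N : ℤ) < (v - 1) * 2
    · have hw' : (x - 1).valMinAbs = v - 1 := by
        refine SB_vma _ _ ?_ hw (by omega)
        rw [hxv]
        push_cast
        ring
      by_cases hd : b ∣ v
      · left
        obtain ⟨j, hj⟩ := hd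
        refine ⟨j, ?_, ?_⟩
        · have hnq : (n : ℤ) = 4 * q := by rw [hq]; push_cast; ring
          rw [Finset.mem_Icc, hnq]
          rw [hN4, hm, hj] at hr
          constructor
          · by_contra hcon
            push Not at hcon
            have h1 : b * j < b * (-(4 * (q : ℤ))) := mul_lt_mul_of_pos_left hcon (by omega)
            nlinarith [hr.1]
          · by_contra hcon
            push Not at hcon
            have h1 : b * (4 * (q : ℤ)) < b * j := mul_lt_mul_of_pos_left hcon (by omega)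
            nlinarith [hr.2]
        · rw [hxv, hj]
      · by_cases hbd : v - 1 = -m
        · right
          rw [hxv]
          congr 1
          omega
        · exfalso
          apply hne
          unfold SBf
          rw [← hv, hw', ← hb]
          have h3 : v ≠ m := by
            intro h
            apply hd
            rw [h, hm]
            exact Dvd.intro_left _ rfl
          have h1 : (4 * |v| < (N : ℤ)) ↔ (4 * |v - 1| < (N : ℤ)) := by
            rw [hN4]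
            rcases abs_cases v with ⟨h4, h5⟩ | ⟨h4, h5⟩ <;>
            rcases abs_cases (v - 1) with ⟨h6, h7⟩ | ⟨h6, h7⟩ <;>
            rw [h4, h6] <;> constructor <;> intro h <;> omega
          have h2 : v / b = (v - 1) / b := by
            symm
            have h4 : b * (v / b) + v % b = v := Int.mul_ediv_add_emod v b
            have h5 : 0 ≤ v % b := Int.emod_nonneg v (by omega)
            have h6 : v % b < b := Int.emod_lt_of_pos v (by omega)
            have h7 : v % b ≠ 0 := fun h => hd (Int.dvd_of_emod_eq_zero h)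
            have h8 : (v / b + 1) * b = b * (v / b) + b := by ring
            have h9 : (v / b) * b = b * (v / b) := by ring
            refine SB_ediv _ _ _ (by omega) ?_ ?_
            · rw [h9]
              omega
            · rw [h8]
              omega
          by_cases hp : 4 * |v| < (N : ℤ) ∧ v / b ∈ S
          · have hp' : 4 * |v - 1| < (N : ℤ) ∧ (v - 1) / b ∈ S := by
              rw [← h2]
              exact ⟨h1.1 hp.1, hp.2⟩
            rw [if_pos hp, if_pos hp']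
          · have hp' : ¬ (4 * |v - 1| < (N : ℤ) ∧ (v - 1) / b ∈ S) := by
              intro h
              apply hp
              rw [← h2] at h
              exact ⟨h1.2 h.1, h.2⟩
            rw [if_neg hp, if_neg hp']
    · exfalso
      apply hne
      have hw' : (x - 1).valMinAbs = v - 1 + N := by
        refine SB_vma _ _ ?_ (by omega) (by omega)
        rw [hxv]
        push_cast
        have hNz : ((N : ℕ) : ZMod N) = 0 := ZMod.natCast_self N
        rw [hNz, add_zero]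
      rw [SB_zero, SB_zero]
      · rw [hw']
        have := le_abs_self (v - 1 + (N : ℤ))
        omega
      · rw [← hv]
        have := neg_le_abs v
        omega
  refine (Finset.card_le_card hsub).trans ((Finset.card_union_le _ _).trans ?_)
  have h1 : ((Finset.Icc (-(n : ℤ)) n).image (fun j : ℤ => ((b * j : ℤ) : ZMod N))).card ≤
      2 * n + 1 := by
    refine Finset.card_image_le.trans ?_
    rw [Int.card_Icc]
    omega
  rw [Finset.card_singleton]
  omega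

theorem SB_count (S : Set ℤ) (w b : ℕ) (v j : ℤ) (hb : 1 ≤ b) (h1 : j * b ≤ v)
    (h2 : v < (j + 1) * b) [DecidablePred (fun u => u ∈ S)]
    [DecidablePred (fun g : ℕ => (v + (g : ℤ)) / (b : ℤ) ∈ S)] :
    b * ((Finset.Ico j (j + w)).filter (fun u => u ∈ S)).card ≤
      ((range (w * b)).filter (fun g : ℕ => (v + (g : ℤ)) / (b : ℤ) ∈ S)).card + b := by
  obtain ⟨A', hA'⟩ : ∃ A' : Finset ℤ, A' = (Finset.Ico (j + 1) (j + w)).filter (fun u => u ∈ S) :=
    ⟨_, rfl⟩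
  have hA : ((Finset.Ico j (j + w)).filter (fun u => u ∈ S)).card ≤ A'.card + 1 := by
    have hs : (Finset.Ico j (j + w)).filter (fun u => u ∈ S) ⊆ insert j A' := by
      intro u hu
      rw [Finset.mem_filter, Finset.mem_Ico] at hu
      rw [Finset.mem_insert, hA', Finset.mem_filter, Finset.mem_Ico]
      by_cases hj : u = j
      · exact Or.inl hj
      · exact Or.inr ⟨⟨by omega, hu.1.2⟩, hu.2⟩
    exact (Finset.card_le_card hs).trans (Finset.card_insert_le _ _)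
  have hb0 : (0 : ℤ) < b := by exact_mod_cast hb
  have hG : (A' ×ˢ range b).card ≤
      ((range (w * b)).filter (fun g : ℕ => (v + (g : ℤ)) / (b : ℤ) ∈ S)).card := by
    have hpos : ∀ y ∈ A' ×ˢ range b, 0 ≤ (b : ℤ) * y.1 + y.2 - v ∧
        (b : ℤ) * y.1 + y.2 - v < w * b ∧ y.1 ∈ S ∧ (y.2 : ℤ) < b := by
      intro y hy
      rw [Finset.mem_product, hA', Finset.mem_filter, Finset.mem_Ico, Finset.mem_range] at hy
      obtain ⟨⟨⟨h3, h4⟩, h5⟩, h6⟩ := hy
      have h6' : (y.2 : ℤ) < b := by exact_mod_cast h6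
      have h7 : (0 : ℤ) ≤ y.2 := Int.natCast_nonneg _
      have h8 : (j + 1) * (b : ℤ) ≤ y.1 * b := mul_le_mul_of_nonneg_right h3 hb0.le
      have h9 : (y.1 + 1) * (b : ℤ) ≤ (j + w) * b := mul_le_mul_of_nonneg_right (by omega) hb0.le
      refine ⟨?_, ?_, h5, h6'⟩
      · nlinarith
      · nlinarith
    refine Finset.card_le_card_of_injOn
      (fun y => ((b : ℤ) * y.1 + y.2 - v).toNat) ?_ ?_
    · intro y hy
      obtain ⟨h3, h4, h5, h6⟩ := hpos y hy
      have h7 : ((((b : ℤ) * y.1 + y.2 - v).toNat : ℕ) : ℤ) = (b : ℤ) * y.1 + y.2 - v :=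
        Int.toNat_of_nonneg h3
      have h0 : (0 : ℤ) ≤ y.2 := Int.natCast_nonneg _
      show ((b : ℤ) * y.1 + y.2 - v).toNat ∈ (((range (w * b)).filter (fun g : ℕ =>
        (v + (g : ℤ)) / (b : ℤ) ∈ S) : Finset ℕ) : Set ℕ)
      rw [Finset.mem_coe, Finset.mem_filter, Finset.mem_range]
      refine ⟨?_, ?_⟩
      · have h8 : ((((b : ℤ) * y.1 + y.2 - v).toNat : ℕ) : ℤ) < ((w * b : ℕ) : ℤ) := by
          rw [h7]
          push_cast
          exact h4
        exact_mod_cast h8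
      · rw [h7]
        have h8 : (v + ((b : ℤ) * y.1 + y.2 - v)) / (b : ℤ) = y.1 := by
          refine SB_ediv _ _ _ hb0 ?_ ?_
          · nlinarith
          · nlinarith
        rw [h8]
        exact h5
    · intro y hy z hz hyz
      obtain ⟨h3, h4, h5, h6⟩ := hpos y hy
      obtain ⟨k3, k4, k5, k6⟩ := hpos z hz
      have h0 : (0 : ℤ) ≤ y.2 := Int.natCast_nonneg _
      have k0 : (0 : ℤ) ≤ z.2 := Int.natCast_nonneg _
      have hyz' : ((b : ℤ) * y.1 + y.2 - v).toNat = ((b : ℤ) * z.1 + z.2 - v).toNat := hyz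
      have h7 : (b : ℤ) * y.1 + y.2 - v = (b : ℤ) * z.1 + z.2 - v := by
        rw [← Int.toNat_of_nonneg h3, ← Int.toNat_of_nonneg k3, hyz']
      have h8 : y.1 = z.1 := by
        have e1 : ((b : ℤ) * y.1 + y.2) / (b : ℤ) = y.1 := by
          refine SB_ediv _ _ _ hb0 ?_ ?_
          · nlinarith
          · nlinarith
        have e2 : ((b : ℤ) * z.1 + z.2) / (b : ℤ) = z.1 := by
          refine SB_ediv _ _ _ hb0 ?_ ?_
          · nlinarith
          · nlinarith
        rw [← e1, ← e2]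
        congr 1
        linarith
      have h9 : (y.2 : ℤ) = z.2 := by
        rw [h8] at h7
        linarith
      exact Prod.ext h8 (by exact_mod_cast h9)
  rw [Finset.card_product, Finset.card_range] at hG
  calc b * ((Finset.Ico j (j + w)).filter (fun u => u ∈ S)).card ≤ b * (A'.card + 1) :=
        Nat.mul_le_mul_left _ hA
    _ = A'.card * b + b := by ring
    _ ≤ _ := by omega

theorem SB_dn (c n2 N Λ' : ℕ) [NeZero N] (hn2 : 1 ≤ n2) (hΛ : 80 ≤ Λ') (hc : 1 ≤ c)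
    (hN : N = 20 * Λ' * c * n2) (S : Set ℤ) (x : ZMod N) (hx : 5 * |x.valMinAbs| ≤ (N : ℤ)) :
    dz S (20 * c) (x.valMinAbs / (n2 : ℤ)) - 1 / (20 * c : ℕ) ≤ dn (20 * c * n2) (SBf N n2 S) x := by
  classical
  obtain ⟨v, hv⟩ : ∃ v : ℤ, v = x.valMinAbs := ⟨_, rfl⟩
  obtain ⟨w, hw⟩ : ∃ w : ℕ, w = 20 * c := ⟨_, rfl⟩
  have hw1 : 1 ≤ w := by omega
  have hNw : (N : ℤ) = Λ' * (w * n2) := by
    rw [hN, hw]
    push_cast
    ring
  have hQ : 80 * ((w : ℤ) * n2) ≤ N := by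
    rw [hNw]
    exact mul_le_mul_of_nonneg_right (by exact_mod_cast hΛ) (by positivity)
  have hQ1 : (1 : ℤ) ≤ (w : ℤ) * n2 := by
    have : 1 ≤ w * n2 := Nat.mul_pos (by omega) (by omega)
    exact_mod_cast this
  rw [← hv] at hx ⊢
  rw [← hw]
  have hxv : x = (v : ZMod N) := by rw [hv, ZMod.coe_valMinAbs]
  have hf : ∀ g ∈ range (w * n2), SBf N n2 S (x + (g : ZMod N)) =
      if (v + (g : ℤ)) / (n2 : ℤ) ∈ S then 1 else 0 := by
    intro g hg
    rw [Finset.mem_range] at hg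
    have hg' : (g : ℤ) < (w : ℤ) * n2 := by exact_mod_cast hg
    have hg0 : (0 : ℤ) ≤ g := Int.natCast_nonneg _
    have hav := abs_le.1 (show |v| ≤ |v| from le_rfl)
    have hvm : (x + (g : ZMod N)).valMinAbs = v + g := by
      refine SB_vma _ _ ?_ (by omega) (by omega)
      rw [hxv]
      push_cast
      ring
    unfold SBf
    rw [hvm]
    have h4 : 4 * |v + (g : ℤ)| < (N : ℤ) := by
      have := abs_add_le v (g : ℤ)
      rw [abs_of_nonneg hg0] at this
      omega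
    by_cases h5 : (v + (g : ℤ)) / (n2 : ℤ) ∈ S
    · rw [if_pos ⟨h4, h5⟩, if_pos h5]
    · rw [if_neg (fun h => h5 h.2), if_neg h5]
  have hsum : ∑ g ∈ range (w * n2), SBf N n2 S (x + (g : ZMod N)) =
      (((range (w * n2)).filter (fun g : ℕ => (v + (g : ℤ)) / (n2 : ℤ) ∈ S)).card : ℝ) := by
    rw [Finset.sum_congr rfl hf, Finset.card_filter]
    push_cast
    rfl
  have hb0 : (0 : ℤ) < n2 := by exact_mod_cast hn2
  have hcnt := SB_count S w n2 v (v / (n2 : ℤ)) hn2 (Int.ediv_mul_le v (by omega))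
    (Int.lt_ediv_add_one_mul_self v hb0)
  have hcnt' : (n2 : ℝ) * (((Finset.Ico (v / (n2 : ℤ)) (v / (n2 : ℤ) + w)).filter
      (fun u => u ∈ S)).card : ℝ) ≤
      (((range (w * n2)).filter (fun g : ℕ => (v + (g : ℤ)) / (n2 : ℤ) ∈ S)).card : ℝ) + n2 := by
    exact_mod_cast hcnt
  unfold dn dz
  rw [hsum]
  obtain ⟨X, hX⟩ : ∃ X : ℝ, X = (((Finset.Ico (v / (n2 : ℤ)) (v / (n2 : ℤ) + w)).filter
      (fun u => u ∈ S)).card : ℝ) := ⟨_, rfl⟩
  obtain ⟨Y, hY⟩ : ∃ Y : ℝ, Y = (((range (w * n2)).filter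
      (fun g : ℕ => (v + (g : ℤ)) / (n2 : ℤ) ∈ S)).card : ℝ) := ⟨_, rfl⟩
  rw [← hX, ← hY] at hcnt'
  have hgoal : X / w - 1 / w ≤ Y / ((w * n2 : ℕ) : ℝ) := by
    have hw0 : (0 : ℝ) < w := by exact_mod_cast hw1
    have hb0' : (0 : ℝ) < n2 := by exact_mod_cast hn2
    rw [← sub_div, div_le_div_iff₀ hw0 (by push_cast; positivity)]
    push_cast
    nlinarith
  rw [hX, hY] at hgoal
  refine le_trans (le_of_eq ?_) hgoal
  rfl

theorem SB_sum (m n2 N : ℕ) [NeZero N] (hn2 : 1 ≤ n2) (hN : N = 5 * m * n2) (F : ℤ → ℝ)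
    (hF : ∀ j, 0 ≤ F j) (H : ZMod N → ℝ)
    (hH : ∀ x : ZMod N, 5 * |x.valMinAbs| ≤ (N : ℤ) → H x ≤ F (x.valMinAbs / (n2 : ℤ))) :
    ∑ x ∈ univ.filter (fun x : ZMod N => 5 * |x.valMinAbs| ≤ N), H x ≤
      n2 * ∑ j ∈ Finset.Icc (-(m : ℤ)) (m : ℤ), F j := by
  have hb0 : (0 : ℤ) < n2 := by exact_mod_cast hn2
  refine (Finset.sum_le_sum (g := fun x => F (x.valMinAbs / (n2 : ℤ))) fun x hx =>
    hH x (Finset.mem_filter.1 hx).2).trans ?_
  have hmaps : ∀ x ∈ univ.filter (fun x : ZMod N => 5 * |x.valMinAbs| ≤ N),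
      x.valMinAbs / (n2 : ℤ) ∈ Finset.Icc (-(m : ℤ)) (m : ℤ) := by
    intro x hx
    have h1 := (Finset.mem_filter.1 hx).2
    have hN' : (N : ℤ) = 5 * (m * n2) := by
      rw [hN]
      push_cast
      ring
    have h2 : |x.valMinAbs| ≤ (m : ℤ) * n2 := by omega
    have h3 := abs_le.1 h2
    rw [Finset.mem_Icc]
    constructor
    · refine (Int.le_ediv_iff_mul_le hb0).2 ?_
      linarith [h3.1]
    · refine Int.lt_add_one_iff.1 ((Int.ediv_lt_iff_lt_mul hb0).2 ?_)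
      nlinarith [h3.2]
  rw [← Finset.sum_fiberwise_of_maps_to hmaps, Finset.mul_sum]
  refine Finset.sum_le_sum fun j _ => ?_
  have hc : ((univ.filter (fun x : ZMod N => 5 * |x.valMinAbs| ≤ N)).filter
      (fun x => x.valMinAbs / (n2 : ℤ) = j)).card ≤ n2 := by
    have hs : (univ.filter (fun x : ZMod N => 5 * |x.valMinAbs| ≤ N)).filter
        (fun x => x.valMinAbs / (n2 : ℤ) = j) ⊆
        (range n2).image (fun k : ℕ => (((n2 : ℤ) * j + k : ℤ) : ZMod N)) := by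
      intro x hx
      have h1 := (Finset.mem_filter.1 hx).2
      rw [Finset.mem_image]
      have h4 : (n2 : ℤ) * (x.valMinAbs / n2) + x.valMinAbs % n2 = x.valMinAbs :=
        Int.mul_ediv_add_emod _ _
      have h5 : 0 ≤ x.valMinAbs % (n2 : ℤ) := Int.emod_nonneg _ (by omega)
      have h6 : x.valMinAbs % (n2 : ℤ) < n2 := Int.emod_lt_of_pos _ hb0
      refine ⟨(x.valMinAbs % (n2 : ℤ)).toNat, ?_, ?_⟩
      · rw [Finset.mem_range]
        omega
      · rw [Int.toNat_of_nonneg h5, ← h1, h4, ZMod.coe_valMinAbs]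
    refine (Finset.card_le_card hs).trans (Finset.card_image_le.trans ?_)
    rw [Finset.card_range]
  calc ∑ x ∈ (univ.filter (fun x : ZMod N => 5 * |x.valMinAbs| ≤ N)).filter
        (fun x => x.valMinAbs / (n2 : ℤ) = j), F (x.valMinAbs / (n2 : ℤ))
      = ∑ x ∈ (univ.filter (fun x : ZMod N => 5 * |x.valMinAbs| ≤ N)).filter
        (fun x => x.valMinAbs / (n2 : ℤ) = j), F j := by
        refine Finset.sum_congr rfl fun x hx => ?_
        rw [(Finset.mem_filter.1 hx).2]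
    _ = (((univ.filter (fun x : ZMod N => 5 * |x.valMinAbs| ≤ N)).filter
        (fun x => x.valMinAbs / (n2 : ℤ) = j)).card : ℝ) * F j := by
        rw [Finset.sum_const, nsmul_eq_mul]
    _ ≤ n2 * F j := by
        refine mul_le_mul_of_nonneg_right ?_ (hF j)
        exact_mod_cast hc

theorem SB_one {N : ℕ} (n2 : ℕ) (S : Set ℤ) (x : ZMod N) (h : SBf N n2 S x = 1) :
    4 * |x.valMinAbs| < (N : ℤ) ∧ x.valMinAbs / (n2 : ℤ) ∈ S := by
  by_contra hcon
  unfold SBf at h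
  rw [if_neg hcon] at h
  exact zero_ne_one h

theorem SB_floor (v : ℤ) (b : ℕ) (hb : 1 ≤ b) : ⌊(v : ℝ) / (b : ℝ)⌋ = v / (b : ℤ) := by
  have hb0 : (0 : ℝ) < b := by exact_mod_cast hb
  have hb0' : (0 : ℤ) < b := by exact_mod_cast hb
  rw [Int.floor_eq_iff]
  constructor
  · rw [le_div_iff₀ hb0]
    have := Int.ediv_mul_le v (b := (b : ℤ)) (by omega)
    exact_mod_cast this
  · rw [div_lt_iff₀ hb0]
    have := Int.lt_ediv_add_one_mul_self v hb0'
    exact_mod_cast this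

theorem SB_diff {r N : ℕ} [NeZero N] (Y : Fin r → ZMod N) (z : Fin r)
    (h : ∀ i k, i < k → 4 * |(Y k - Y i).valMinAbs| < (N : ℤ)) (hz : ∀ i, z ≤ i)
    (i k : Fin r) : (Y k - Y z).valMinAbs - (Y i - Y z).valMinAbs = (Y k - Y i).valMinAbs := by
  have hN0 : (0 : ℤ) < N := by
    have := NeZero.pos N
    exact_mod_cast this
  have hz' : ∀ j, 4 * |(Y j - Y z).valMinAbs| < (N : ℤ) := by
    intro j
    rcases lt_or_eq_of_le (hz j) with h1 | h1
    · exact h z j h1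
    · rw [← h1, sub_self, ZMod.valMinAbs_zero]
      simpa using hN0
  symm
  have h1 := abs_lt.1 (show |(Y k - Y z).valMinAbs| < |(Y k - Y z).valMinAbs| + 1 by omega)
  have h2 := abs_lt.1 (show |(Y i - Y z).valMinAbs| < |(Y i - Y z).valMinAbs| + 1 by omega)
  have h3 := hz' k
  have h4 := hz' i
  refine SB_vma _ _ ?_ (by omega) (by omega)
  push_cast
  ring

theorem cells (r : ℕ) (hr : 2 ≤ r) (ε : ℝ) (hε : 0 < ε) (hε1 : ε ≤ 1) :
    ∃ δ : ℝ, 0 < δ ∧ ∃ Λ : ℕ, 80 ≤ Λ ∧ ∀ Λ' : ℕ, Λ ≤ Λ' → ∃ n0 : ℕ, ∀ n : ℕ, n0 ≤ n → 20 * Λ' ∣ n →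
      ∀ S : Fin r → Fin r → Set ℤ,
      (∀ i k, i < k → ∑ j ∈ Finset.Icc (-((n / 5 : ℕ) : ℤ)) ((n / 5 : ℕ) : ℤ),
        max 0 ((1 - 2 / (r : ℝ) + ε) - dz (S i k) (n / Λ') j) ≤ δ * n) →
      ∃ y : Fin r → ℝ, ∀ i k, i < k → ⌊y k - y i⌋ ∈ S i k := by
  obtain ⟨δ, hδ, Λ, hΛ, H⟩ := single_scale r hr (ε / 2) (by positivity) (by linarith)
  refine ⟨δ, hδ, Λ, hΛ, fun Λ' hΛ' => ?_⟩
  refine ⟨⌈2 * Λ' / ε⌉₊ + 1, fun n hn hdvd S hS => ?_⟩
  obtain ⟨c, hc⟩ := hdvd
  have hΛ80 : 80 ≤ Λ' := hΛ.trans hΛ'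
  have hn1 : 1 ≤ n := by omega
  have hc1 : 1 ≤ c := by
    rcases Nat.eq_zero_or_pos c with h | h
    · rw [h, mul_zero] at hc
      omega
    · exact h
  obtain ⟨N0, H2⟩ := H Λ' hΛ' (2 * n + 10)
  obtain ⟨n2, hn2d⟩ : ∃ n2 : ℕ, n2 = N0 + 1 := ⟨_, rfl⟩
  have hn2 : 1 ≤ n2 := by omega
  obtain ⟨N, hN⟩ : ∃ N : ℕ, N = n * n2 := ⟨_, rfl⟩
  have hNN0 : N0 ≤ N := by
    rw [hN]
    have : 1 * n2 ≤ n * n2 := Nat.mul_le_mul_right _ hn1
    omega
  have hNpos : 0 < N := by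
    rw [hN]
    exact Nat.mul_pos (by omega) (by omega)
  have : NeZero N := ⟨by omega⟩
  have hwc : n / Λ' = 20 * c := by
    rw [hc]
    have : 20 * Λ' * c = Λ' * (20 * c) := by ring
    rw [this, Nat.mul_div_cancel_left _ (by omega)]
  have hNc : N = 20 * Λ' * c * n2 := by rw [hN, hc]
  have hQc : N / Λ' = 20 * c * n2 := by
    rw [hNc]
    have : 20 * Λ' * c * n2 = Λ' * (20 * c * n2) := by ring
    rw [this, Nat.mul_div_cancel_left _ (by omega)]
  have hn5 : n = 5 * (n / 5) := by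
    have : 5 ∣ n := by
      rw [hc]
      exact ⟨4 * Λ' * c, by ring⟩
    omega
  have hsmall : (1 : ℝ) / (20 * c : ℕ) ≤ ε / 2 := by
    have h1 : (2 * Λ' / ε : ℝ) ≤ n := by
      refine (Nat.le_ceil _).trans ?_
      have : ⌈2 * Λ' / ε⌉₊ ≤ n := by omega
      exact_mod_cast this
    rw [div_le_iff₀ hε] at h1
    have h2 : (n : ℝ) = 20 * Λ' * c := by
      rw [hc]
      push_cast
      ring
    rw [h2] at h1
    have hc0 : (0 : ℝ) < c := by exact_mod_cast hc1
    have hΛ0 : (0 : ℝ) < Λ' := by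
      have : 0 < Λ' := by omega
      exact_mod_cast this
    push_cast
    rw [div_le_iff₀ (by positivity)]
    by_contra hcon
    push Not at hcon
    have := mul_lt_mul_of_pos_left hcon hΛ0
    nlinarith
  obtain ⟨Y, hY⟩ := H2 N hNN0 (by rw [hNc]; exact ⟨20 * c * n2, by ring⟩)
    (fun i k => SBf N n2 (S i k)) (by
      intro i k x
      unfold SBf
      split_ifs
      · exact Or.inr rfl
      · exact Or.inl rfl) (by
      intro i k
      exact SB_change n n2 N hn2 (by rw [hc]; exact ⟨5 * Λ' * c, by ring⟩) hn1 hN (S i k)) (by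
      intro i k hik
      have hN5 : N = 5 * (n / 5) * n2 := by rw [hN, ← hn5]
      refine (SB_sum (n / 5) n2 N hn2 hN5
        (fun j => max 0 ((1 - 2 / (r : ℝ) + ε) - dz (S i k) (n / Λ') j))
        (fun j => le_max_left _ _) _ ?_).trans ?_
      · intro x hx
        have h1 := SB_dn c n2 N Λ' hn2 hΛ80 hc1 hNc (S i k) x hx
        rw [hQc]
        show max 0 ((1 - 2 / (r : ℝ) + ε / 2) - dn (20 * c * n2) (SBf N n2 (S i k)) x) ≤
          max 0 ((1 - 2 / (r : ℝ) + ε) - dz (S i k) (n / Λ') (x.valMinAbs / (n2 : ℤ)))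
        rw [hwc]
        refine max_le_max le_rfl ?_
        linarith
      · have h1 := hS i k hik
        have h2 : (0 : ℝ) ≤ n2 := Nat.cast_nonneg _
        refine (mul_le_mul_of_nonneg_left h1 h2).trans (le_of_eq ?_)
        rw [hN]
        push_cast
        ring)
  have hz0 : 0 < r := by omega
  obtain ⟨z, hz⟩ : ∃ z : Fin r, ∀ i, z ≤ i := ⟨⟨0, hz0⟩, fun i => Nat.zero_le _⟩
  have hY4 : ∀ i k, i < k → 4 * |(Y k - Y i).valMinAbs| < (N : ℤ) := fun i k hik =>
    (SB_one n2 (S i k) _ (hY i k hik)).1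
  refine ⟨fun i => ((Y i - Y z).valMinAbs : ℝ) / n2, fun i k hik => ?_⟩
  have h1 := SB_diff Y z hY4 hz i k
  have h2 := (SB_one n2 (S i k) _ (hY i k hik)).2
  have h3 : ((Y k - Y z).valMinAbs : ℝ) / n2 - ((Y i - Y z).valMinAbs : ℝ) / n2 =
      (((Y k - Y i).valMinAbs : ℤ) : ℝ) / (n2 : ℝ) := by
    rw [← sub_div, ← h1]
    push_cast
    ring
  show ⌊((Y k - Y z).valMinAbs : ℝ) / n2 - ((Y i - Y z).valMinAbs : ℝ) / n2⌋ ∈ S i k
  rw [h3, SB_floor _ _ hn2]
  exact h2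

end H86LP
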