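import Pool.Agent.H86.LP.Defs

/-!
# ZA: coefficient formula (Lason, Karasev-Petrov)

Univariate: for a finite set `S` with `n + 1` elements and `m ≤ n`, `∑_{a ∈ S} a^m / ∏_{b ∈ S, b ≠ a} (a - b) = [m = n]`. Proof: the polynomial
`∑_a a^m ∏_{b ≠ a} (X - b)/(a - b)` has degree `≤ n` and agrees with `X^m` on the `n + 1` points of `S`, so it is `X^m` (`Polynomial.eq_of_degrees_lt_of_eval_finset_eq`
or `Lagrange.eq_interpolate`); compare the coefficients of `X^n` (each product is monic of degree `n`).
Multivariate: both sides are linear in `P`, write `P` as the sum of its monomials `c x^m`, `∑ m_i ≤ ∑ n_i`. The right side for `x^m` is the product over `i` of the univariate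
sums (`Finset.prod_univ_sum`). If some `m_i < n_i` it is `0`; otherwise `m_i ≥ n_i` for all `i`, hence `m = n` and it is `1`.
-/

set_option autoImplicit false

open Finset

namespace H86LP

theorem lagrange_sum {F : Type*} [Field F] [DecidableEq F] (S : Finset F) (n m : ℕ) (hS : S.card = n + 1) (hm : m ≤ n) :
    ∑ a ∈ S, a ^ m / ∏ b ∈ S.erase a, (a - b) = if m = n then 1 else 0 := by
  have h := Lagrange.coeff_eq_sum (s := S) (v := fun x : F => x) (P := (Polynomial.X ^ m : Polynomial F))
    (fun x _ y _ h => h) (by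
      rw [Polynomial.degree_X_pow, hS]
      exact_mod_cast Nat.lt_succ_of_le hm)
  have h2 : ∑ a ∈ S, a ^ m / ∏ b ∈ S.erase a, (a - b) =
      (Polynomial.X ^ m : Polynomial F).coeff (S.card - 1) := by
    rw [h]
    refine Finset.sum_congr rfl fun a _ => ?_
    rw [Polynomial.eval_pow, Polynomial.eval_X]
  rw [h2, hS, Nat.add_sub_cancel, Polynomial.coeff_X_pow]
  by_cases hmn : m = n
  · rw [if_pos hmn, if_pos hmn.symm]
  · rw [if_neg hmn, if_neg (fun h => hmn h.symm)]

theorem coeff_formula {F : Type*} [Field F] [DecidableEq F] {r : ℕ} (A : Fin r → Finset F) (n : Fin r → ℕ)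
    (hA : ∀ i, (A i).card = n i + 1) (P : MvPolynomial (Fin r) F) (hP : P.totalDegree ≤ ∑ i, n i) :
    P.coeff (Finsupp.equivFunOnFinite.symm n) =
      ∑ a ∈ Fintype.piFinset A, MvPolynomial.eval a P / ∏ i, ∏ b ∈ (A i).erase (a i), (a i - b) := by
  have h1 : ∑ a ∈ Fintype.piFinset A, MvPolynomial.eval a P / ∏ i, ∏ b ∈ (A i).erase (a i), (a i - b) =
      ∑ m ∈ P.support, P.coeff m * ∏ i, ∑ a ∈ A i, a ^ (m i) / ∏ b ∈ (A i).erase a, (a - b) := by
    have h2 : ∀ a : Fin r → F, MvPolynomial.eval a P / ∏ i, ∏ b ∈ (A i).erase (a i), (a i - b) =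
        ∑ m ∈ P.support, P.coeff m * ∏ i, (a i ^ (m i) / ∏ b ∈ (A i).erase (a i), (a i - b)) := by
      intro a
      rw [MvPolynomial.eval_eq', Finset.sum_div]
      refine Finset.sum_congr rfl fun m _ => ?_
      rw [Finset.prod_div_distrib, mul_div_assoc]
    simp_rw [h2]
    rw [Finset.sum_comm]
    refine Finset.sum_congr rfl fun m _ => ?_
    rw [← Finset.mul_sum, Finset.prod_univ_sum]
  rw [h1]
  have h3 : ∀ m ∈ P.support, P.coeff m * ∏ i, ∑ a ∈ A i, a ^ (m i) / ∏ b ∈ (A i).erase a, (a - b) =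
      if m = Finsupp.equivFunOnFinite.symm n then P.coeff m else 0 := by
    intro m hm
    by_cases hmn : m = Finsupp.equivFunOnFinite.symm n
    · rw [if_pos hmn]
      have h4 : ∏ i, ∑ a ∈ A i, a ^ (m i) / ∏ b ∈ (A i).erase a, (a - b) = 1 := by
        refine Finset.prod_eq_one fun i _ => ?_
        have h5 : m i = n i := by rw [hmn]; rfl
        rw [lagrange_sum (A i) (n i) (m i) (hA i) h5.le, if_pos h5]
      rw [h4, mul_one]
    · rw [if_neg hmn]
      have h4 : ∃ i, m i < n i := by
        by_contra hno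
        push Not at hno
        have h5 : ∑ i, m i ≤ ∑ i, n i := by
          have h6 := MvPolynomial.le_totalDegree hm
          rw [Finsupp.sum_fintype m (fun _ e => e) (fun _ => rfl)] at h6
          exact h6.trans hP
        have h7 : ∀ i ∈ (Finset.univ : Finset (Fin r)), n i = m i :=
          (Finset.sum_eq_sum_iff_of_le (fun i _ => hno i)).mp
            (le_antisymm (Finset.sum_le_sum fun i _ => hno i) h5)
        apply hmn
        ext i
        rw [← h7 i (Finset.mem_univ i)]
        rfl
      obtain ⟨i, hi⟩ := h4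
      rw [Finset.prod_eq_zero (Finset.mem_univ i), mul_zero]
      rw [lagrange_sum (A i) (n i) (m i) (hA i) hi.le, if_neg hi.ne]
  rw [Finset.sum_congr rfl h3, Finset.sum_ite_eq' P.support (Finsupp.equivFunOnFinite.symm n)]
  split_ifs with h8
  · rfl
  · exact MvPolynomial.notMem_support_iff.mp h8

end H86LP
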