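import Pool.Agent.H86.LP.Defs

/-!
# ZB: the coefficients of top degree of a product of linear factors do not see the constants

Induction on `S`, generalising `m`: claim: `∏ (u s - C c_s) - ∏ u s` has total degree `< S.card` or is `0` (write `∏_{insert s S} (u - C c) = (u s - C c) ∏_S (u - C c)`,
`= u s ∏_S u + u s (∏_S (u - C c) - ∏_S u) - C c ∏_S (u - C c)`), so its coefficient at `m` vanishes (`MvPolynomial.coeff_eq_zero_of_totalDegree_lt`).
Degree bound: `MvPolynomial.totalDegree_finset_prod`, each factor has total degree `≤ 1`.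
-/

set_option autoImplicit false

open Finset MvPolynomial

namespace H86LP

theorem top_degree {F : Type*} [Field F] {r : ℕ} {κ : Type*} (S : Finset κ) (u : κ → MvPolynomial (Fin r) F)
    (hu : ∀ s ∈ S, (u s).IsHomogeneous 1) (c : κ → F) : (∏ s ∈ S, (u s - C (c s))).totalDegree ≤ S.card := by
  refine (totalDegree_finsetProd _ _).trans ?_
  have h : ∀ s ∈ S, (u s - C (c s)).totalDegree ≤ 1 := by
    intro s hs
    refine (totalDegree_sub _ _).trans (max_le (hu s hs).totalDegree_le ?_)
    rw [totalDegree_C]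
    exact Nat.zero_le _
  refine (sum_le_sum h).trans ?_
  rw [sum_const, smul_eq_mul, mul_one]

theorem ZB_key {F : Type*} [Field F] {r : ℕ} {κ : Type*} (S : Finset κ)
    (u : κ → MvPolynomial (Fin r) F) (c : κ → F) (hu : ∀ s ∈ S, (u s).IsHomogeneous 1)
    (d : Fin r →₀ ℕ) (hd : S.card ≤ d.degree) :
    (∏ s ∈ S, (u s - C (c s))).coeff d = (∏ s ∈ S, u s).coeff d := by
  classical
  induction S using Finset.induction_on generalizing d with
  | empty => rw [prod_empty, prod_empty]
  | insert a S ha ih =>
    rw [card_insert_of_notMem ha] at hd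
    have hS : ∀ s ∈ S, (u s).IsHomogeneous 1 := fun s hs => hu s (mem_insert_of_mem hs)
    have h0 : (∏ s ∈ S, (u s - C (c s))).coeff d = 0 := by
      refine coeff_eq_zero_of_totalDegree_lt ?_
      have h1 := top_degree S u hS c
      rw [Finsupp.degree_apply] at hd
      omega
    rw [prod_insert ha, prod_insert ha, sub_mul, coeff_sub, coeff_C_mul, h0, mul_zero, sub_zero,
      coeff_mul, coeff_mul]
    refine sum_congr rfl fun x hx => ?_
    rw [HasAntidiagonal.mem_antidiagonal] at hx
    by_cases h2 : x.1.degree = 1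
    · rw [ih hS x.2 ?_]
      rw [← hx, map_add, h2] at hd
      omega
    · rw [(hu a (mem_insert_self _ _)).coeff_eq_zero h2, zero_mul, zero_mul]

theorem top_coeff {F : Type*} [Field F] {r : ℕ} {κ : Type*} (S : Finset κ) (u : κ → MvPolynomial (Fin r) F)
    (hu : ∀ s ∈ S, (u s).IsHomogeneous 1) (c : κ → F) (m : Fin r → ℕ) (hm : ∑ i, m i = S.card) :
    (∏ s ∈ S, (u s - C (c s))).coeff (Finsupp.equivFunOnFinite.symm m) =
      (∏ s ∈ S, u s).coeff (Finsupp.equivFunOnFinite.symm m) := by
  refine ZB_key S u c hu _ ?_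
  rw [Finsupp.degree_eq_sum, ← hm]
  exact le_of_eq (sum_congr rfl fun i _ => rfl)

end H86LP
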