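import Pool.Agent.H86.LP.Defs

/-!
# ZC: the only admissible spacing

Let `c i` be the number of `j` with `a j < a i` (the rank). All `a i` are distinct (`h2`, `h ≥ 1`) and two of them differ by at least `h`, so `a i ≥ h c i`
(induction on the rank) and `(r - 1) h - a i ≥ h (r - 1 - c i)` (the `r - 1 - c i` indices with larger value). Hence `a i = h c i`, and `c` is a bijection onto `0, .., r-1`.
If `c i = c j + 1` then `a i - a j = h`, so `i < j` is impossible by `h2` for the pair `(i, j)` (`a j - a i = -h` is neither `≥ h` nor `< -h`). So the index of rank `k` is smaller than the index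
of rank `k + 1` for all `k`: the inverse of `c` is strictly increasing, hence `c i = i`.
-/

set_option autoImplicit false

open Finset

namespace H86LP

theorem spacing (r h : ℕ) (hh : 1 ≤ h) (a : Fin r → ℤ) (h0 : ∀ i, 0 ≤ a i) (h1 : ∀ i, a i ≤ ((r : ℤ) - 1) * h)
    (h2 : ∀ i j, i < j → (h : ℤ) ≤ a j - a i ∨ a j - a i < -(h : ℤ)) : ∀ i : Fin r, a i = ((i : ℕ) : ℤ) * h := by
  have hpos : (0 : ℤ) < h := by exact_mod_cast hh
  have hdist : ∀ i j : Fin r, i ≠ j → (h : ℤ) ≤ a j - a i ∨ (h : ℤ) ≤ a i - a j := by
    intro i j hij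
    rcases lt_or_gt_of_ne hij with hlt | hlt
    · rcases h2 i j hlt with h3 | h3
      · exact Or.inl h3
      · right; linarith
    · rcases h2 j i hlt with h3 | h3
      · exact Or.inr h3
      · left; linarith
  have hdiv0 : ∀ i, 0 ≤ a i / h := fun i => Int.ediv_nonneg (h0 i) hpos.le
  have hmod : ∀ i, (a i / h) * h ≤ a i ∧ a i < (a i / h) * h + h := by
    intro i
    have e1 := Int.mul_ediv_add_emod (a i) h
    have e2 := Int.emod_nonneg (a i) hpos.ne'
    have e3 := Int.emod_lt_of_pos (a i) hpos
    constructor <;> nlinarith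
  have hdivr : ∀ i, a i / h < r := by
    intro i
    by_contra hc
    push Not at hc
    have e1 := (hmod i).1
    have e2 := h1 i
    nlinarith
  let σ : Fin r → Fin r := fun i => ⟨(a i / h).toNat, by
    have e1 := hdiv0 i
    have e2 := hdivr i
    omega⟩
  have hσ : ∀ i, ((σ i : ℕ) : ℤ) = a i / h := fun i => Int.toNat_of_nonneg (hdiv0 i)
  have hinj : Function.Injective σ := by
    intro i j hij
    by_contra hne
    have e1 : a i / h = a j / h := by rw [← hσ i, ← hσ j, hij]
    have e2 := hmod i
    have e3 := hmod j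
    rw [e1] at e2
    rcases hdist i j hne with h3 | h3 <;> linarith [e2.1, e2.2, e3.1, e3.2]
  have hbij : Function.Bijective σ := Finite.injective_iff_bijective.mp hinj
  let τ : Fin r ≃ Fin r := (Equiv.ofBijective σ hbij).symm
  have hτ : ∀ k : Fin r, σ (τ k) = k := fun k => (Equiv.ofBijective σ hbij).apply_symm_apply k
  have hdk : ∀ k : Fin r, a (τ k) / h = ((k : ℕ) : ℤ) := fun k => by rw [← hσ (τ k), hτ k]
  have hlow : ∀ k : Fin r, ((k : ℕ) : ℤ) * h ≤ a (τ k) := fun k => by
    have := (hmod (τ k)).1
    rwa [hdk k] at this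
  have hup : ∀ m : ℕ, ∀ k : Fin r, (k : ℕ) + m + 1 = r → a (τ k) ≤ ((k : ℕ) : ℤ) * h := by
    intro m
    induction m with
    | zero =>
      intro k hk
      have e1 := h1 (τ k)
      have e2 : ((r : ℤ) - 1) = ((k : ℕ) : ℤ) := by
        have : (r : ℤ) = (k : ℕ) + 1 := by exact_mod_cast (by omega : r = (k : ℕ) + 1)
        linarith
      rwa [e2] at e1
    | succ m ih =>
      intro k hk
      have hk1 : (k : ℕ) + 1 < r := by omega
      have e1 := ih ⟨(k : ℕ) + 1, hk1⟩ (by simp only; omega)
      have e2 := hlow ⟨(k : ℕ) + 1, hk1⟩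
      have e3 := (hmod (τ k)).2
      rw [hdk k] at e3
      have hne : τ k ≠ τ ⟨(k : ℕ) + 1, hk1⟩ := by
        intro h4
        have := τ.injective h4
        have h5 : (k : ℕ) = (k : ℕ) + 1 := congrArg Fin.val this
        omega
      simp only at e1 e2
      push_cast at e1 e2
      rcases hdist _ _ hne with h3 | h3
      · nlinarith
      · nlinarith
  have heq : ∀ k : Fin r, a (τ k) = ((k : ℕ) : ℤ) * h := fun k =>
    le_antisymm (hup (r - 1 - k) k (by have := k.2; omega)) (hlow k)
  have hmono : StrictMono τ := by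
    cases r with
    | zero => intro k; exact k.elim0
    | succ n =>
      rw [Fin.strictMono_iff_lt_succ]
      intro k
      by_contra hc
      push Not at hc
      have hne : τ k.succ ≠ τ k.castSucc := by
        intro h4
        have := τ.injective h4
        have h5 : ((k.succ : Fin (n + 1)) : ℕ) = ((k.castSucc : Fin (n + 1)) : ℕ) := congrArg Fin.val this
        simp at h5
      have hlt : τ k.succ < τ k.castSucc := lt_of_le_of_ne hc hne
      have e1 := heq k.succ
      have e2 := heq k.castSucc
      have e3 : (((k.succ : Fin (n + 1)) : ℕ) : ℤ) = ((k.castSucc : Fin (n + 1)) : ℕ) + 1 := by simp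
      rw [e3] at e1
      rcases h2 _ _ hlt with h3 | h3
      · nlinarith
      · nlinarith
  have hsymm : StrictMono τ.symm := by
    intro k l hkl
    by_contra hc
    push Not at hc
    have := hmono.monotone hc
    rw [τ.apply_symm_apply, τ.apply_symm_apply] at this
    exact absurd hkl (not_lt.2 this)
  intro i
  have e1 := heq i
  have e2 : τ i = i := by
    refine le_antisymm ?_ hmono.le_apply
    have := hmono.monotone (hsymm.le_apply (x := i))
    rwa [τ.apply_symm_apply] at this
  rwa [e2] at e1

end H86LP
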