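import Pool.Agent.H86.LP.ZA
import Pool.Agent.H86.LP.ZB
import Pool.Agent.H86.LP.ZC

/-!
# ZD: cliques in `ZMod p`

`r ≤ 1` or `h = 0` are trivial (`h = 0`: all `L i j` are empty, take `x = 0`). Let `r ≥ 2`, `h ≥ 1`. As `2h ≤ r h < p` enlarge every `L i j` (`i < j`) to exactly `2h` elements (`Finset.exists_superset_card_eq`).
Index set of the linear factors: the triples `(i, j, l)`, `i < j`, `l ∈ L i j` (`Finset.sigma` over `Pr r`), number `r (r-1)/2 * 2h = r (r-1) h = ∑_i (r-1) h`; linear form `X j - X i`.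
* `F1 = ∏ (X j - X i - C l)` over `l ∈ L i j`, `F2` the same with `L i j` replaced by the image of `[-h, h-1]` in `ZMod p` (2h different elements since `2h < p`).
  The coefficients of `∏ x_i^((r-1)h)` of `F1` and `F2` agree: `top_coeff`, both are that of `∏ (X j - X i)^(2h)` (`∏_{l ∈ L i j} (X j - X i)` is a power with exponent `2h`).
* The coefficient of `F2` is not `0`: `coeff_formula` with `A i = {0, .., (r-1)h}` (image of `range ((r-1)h + 1)`, injective as `(r-1) h < p`). If `F2 (α) ≠ 0`, `α_i = a_i mod p`, `0 ≤ a_i ≤ (r-1)h`, then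
  `a_j - a_i ≢ s mod p` for `i < j`, `s ∈ [-h, h-1]`, in particular `a_j - a_i ∉ [-h, h-1]`, so `spacing` gives `a_i = i h`: only one term. It is not `0`: the factors are
  `(j - i) h - s` with `1 ≤ (j-i) h - s ≤ (r-1) h + h = r h < p`; the denominators `α_i - b` are nonzero. (`Finset.sum_eq_single`.)
* `coeff_formula` for `F1` (any `A i` with `(r-1) h + 1` elements, the same) gives a point `x` with `F1 (x) ≠ 0`, i.e. `x j - x i ∉ L i j`.
-/

set_option autoImplicit false

open Finset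

namespace H86LP

open MvPolynomial

/-- linear form of a triple -/
noncomputable def ZD_u {p r : ℕ} (s : (_ : Fin r × Fin r) × ZMod p) : MvPolynomial (Fin r) (ZMod p) :=
  X s.1.2 - X s.1.1

theorem ZD_u_hom {p r : ℕ} (s : (_ : Fin r × Fin r) × ZMod p) : (ZD_u s).IsHomogeneous 1 :=
  (isHomogeneous_X _ _).sub (isHomogeneous_X _ _)

/-- index set of the linear factors -/
def ZD_S {p r : ℕ} (M : Fin r → Fin r → Finset (ZMod p)) : Finset ((_ : Fin r × Fin r) × ZMod p) :=
  (Pr r).sigma (fun a => M a.1 a.2)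

/-- the product of the linear factors -/
noncomputable def ZD_F {p r : ℕ} (M : Fin r → Fin r → Finset (ZMod p)) : MvPolynomial (Fin r) (ZMod p) :=
  ∏ s ∈ ZD_S M, (ZD_u s - C s.2)

theorem ZD_card_Pr (r : ℕ) : (Pr r).card * 2 = r * (r - 1) := by
  have h1 : (univ : Finset (Fin r)).offDiag = Pr r ∪ (Pr r).image Prod.swap := by
    ext ⟨i, j⟩
    simp only [mem_offDiag, mem_univ, true_and, mem_union, mem_Pr, mem_image, Prod.exists, Prod.swap_prod_mk,
      Prod.mk.injEq]
    constructor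
    · intro h
      rcases lt_or_gt_of_ne h with h | h
      · exact Or.inl h
      · exact Or.inr ⟨j, i, h, rfl, rfl⟩
    · rintro (h | ⟨a, b, h, rfl, rfl⟩)
      · exact h.ne
      · exact h.ne'
  have h2 : Disjoint (Pr r) ((Pr r).image Prod.swap) := by
    rw [disjoint_left]
    rintro ⟨i, j⟩ hi hj
    simp only [mem_Pr, mem_image, Prod.exists, Prod.swap_prod_mk, Prod.mk.injEq] at hi hj
    obtain ⟨a, b, h, rfl, rfl⟩ := hj
    exact absurd hi h.not_gt
  have h3 : ((Pr r).image Prod.swap).card = (Pr r).card := card_image_of_injective _ Prod.swap_injective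
  have h4 := congrArg Finset.card h1
  rw [card_union_of_disjoint h2, h3, offDiag_card, card_univ, Fintype.card_fin] at h4
  rw [Nat.mul_sub, mul_one]
  omega

theorem ZD_card_S {p r h : ℕ} {M : Fin r → Fin r → Finset (ZMod p)} (hM : ∀ i j, i < j → (M i j).card = 2 * h) :
    ∑ _i : Fin r, (r - 1) * h = (ZD_S M).card := by
  unfold ZD_S
  rw [card_sigma, sum_congr rfl (fun a ha => hM a.1 a.2 ((mem_Pr a).1 ha)), sum_const, sum_const, card_univ,
    Fintype.card_fin, smul_eq_mul, smul_eq_mul, ← mul_assoc, ← ZD_card_Pr]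
  ring

theorem ZD_top {p r h : ℕ} {M : Fin r → Fin r → Finset (ZMod p)} (hM : ∀ i j, i < j → (M i j).card = 2 * h) :
    ∏ s ∈ ZD_S M, ZD_u s = ∏ a ∈ Pr r, ((X a.2 - X a.1 : MvPolynomial (Fin r) (ZMod p))) ^ (2 * h) := by
  unfold ZD_S
  rw [prod_sigma]
  refine prod_congr rfl fun a ha => ?_
  rw [← hM a.1 a.2 ((mem_Pr a).1 ha)]
  exact prod_const (X a.2 - X a.1 : MvPolynomial (Fin r) (ZMod p))

theorem ZD_eval {p r : ℕ} (M : Fin r → Fin r → Finset (ZMod p)) (x : Fin r → ZMod p) :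
    MvPolynomial.eval x (ZD_F M) = ∏ s ∈ ZD_S M, (x s.1.2 - x s.1.1 - s.2) := by
  unfold ZD_F
  rw [map_prod]
  refine prod_congr rfl fun s _ => ?_
  simp [ZD_u]

theorem ZD_eval_ne {p r : ℕ} [Fact p.Prime] (M : Fin r → Fin r → Finset (ZMod p)) (x : Fin r → ZMod p) :
    MvPolynomial.eval x (ZD_F M) ≠ 0 ↔ ∀ i j, i < j → x j - x i ∉ M i j := by
  rw [ZD_eval, prod_ne_zero_iff]
  constructor
  · intro h i j hij hm
    refine h ⟨(i, j), x j - x i⟩ ?_ (by simp)
    unfold ZD_S
    rw [mem_sigma, mem_Pr]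
    exact ⟨hij, hm⟩
  · intro h s hs h0
    unfold ZD_S at hs
    rw [mem_sigma, mem_Pr] at hs
    refine h s.1.1 s.1.2 hs.1 ?_
    have : x s.1.2 - x s.1.1 = s.2 := sub_eq_zero.1 h0
    rw [this]
    exact hs.2

theorem ZD_cast_ne {p : ℕ} {a b : ℤ} (h : |a - b| < p) (hab : a ≠ b) : (a : ZMod p) ≠ (b : ZMod p) := by
  intro he
  rw [ZMod.intCast_eq_intCast_iff_dvd_sub] at he
  have h1 : b - a = 0 := Int.eq_zero_of_abs_lt_dvd he (by rw [abs_sub_comm]; exact h)
  omega

/-- the image of `[-h, h-1]` -/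
noncomputable def ZD_B (p h : ℕ) : Finset (ZMod p) := (Finset.Ico (-(h : ℤ)) h).image (Int.cast : ℤ → ZMod p)

theorem ZD_B_card {p h : ℕ} (hp : 2 * h < p) : (ZD_B p h).card = 2 * h := by
  unfold ZD_B
  rw [card_image_of_injOn, Int.card_Ico]
  · omega
  · intro a ha b hb hab
    rw [mem_coe, mem_Ico] at ha hb
    by_contra hne
    refine ZD_cast_ne (p := p) ?_ hne hab
    rw [abs_lt]
    omega

/-- the grid -/
def ZD_A (p r h : ℕ) (_ : Fin r) : Finset (ZMod p) := (range ((r - 1) * h + 1)).image (Nat.cast : ℕ → ZMod p)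

theorem ZD_A_card {p r h : ℕ} (hr : (r - 1) * h < p) (i : Fin r) : (ZD_A p r h i).card = (r - 1) * h + 1 := by
  unfold ZD_A
  rw [card_image_of_injOn, card_range]
  intro a ha b hb hab
  rw [mem_coe, mem_range] at ha hb
  by_contra hne
  have h1 : ((a : ℤ) : ZMod p) ≠ ((b : ℤ) : ZMod p) := ZD_cast_ne (by rw [abs_lt]; omega) (by exact_mod_cast hne)
  apply h1
  push_cast
  exact hab

theorem ZD_degree {p r h : ℕ} [Fact p.Prime] {M : Fin r → Fin r → Finset (ZMod p)}
    (hM : ∀ i j, i < j → (M i j).card = 2 * h) : (ZD_F M).totalDegree ≤ ∑ _i : Fin r, (r - 1) * h := by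
  rw [ZD_card_S hM]
  exact top_degree (ZD_S M) ZD_u (fun s _ => ZD_u_hom s) (fun s => s.2)

theorem ZD_coeff {p r h : ℕ} [Fact p.Prime] {M : Fin r → Fin r → Finset (ZMod p)}
    (hM : ∀ i j, i < j → (M i j).card = 2 * h) :
    (ZD_F M).coeff (Finsupp.equivFunOnFinite.symm (fun _ : Fin r => (r - 1) * h)) =
      (∏ a ∈ Pr r, ((X a.2 - X a.1 : MvPolynomial (Fin r) (ZMod p))) ^ (2 * h)).coeff
        (Finsupp.equivFunOnFinite.symm (fun _ : Fin r => (r - 1) * h)) := by
  rw [← ZD_top hM]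
  exact top_coeff (ZD_S M) ZD_u (fun s _ => ZD_u_hom s) (fun s => s.2) _ (ZD_card_S hM)

theorem ZD_coeff_B {p r h : ℕ} [Fact p.Prime] (hr : 2 ≤ r) (hh : 1 ≤ h) (hrh : r * h < p) :
    (ZD_F (fun _ _ : Fin r => ZD_B p h)).coeff
      (Finsupp.equivFunOnFinite.symm (fun _ : Fin r => (r - 1) * h)) ≠ 0 := by
  have h2 : 2 * h ≤ r * h := Nat.mul_le_mul_right h hr
  have h3 : (r - 1) * h + h = r * h := by
    obtain ⟨k, rfl⟩ : ∃ k, r = k + 1 := ⟨r - 1, by omega⟩
    rw [Nat.add_sub_cancel]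
    ring
  have hM : ∀ i j : Fin r, i < j → ((fun _ _ : Fin r => ZD_B p h) i j).card = 2 * h :=
    fun _ _ _ => ZD_B_card (by omega)
  rw [coeff_formula (ZD_A p r h) (fun _ => (r - 1) * h) (fun i => ZD_A_card (by omega) i) _ (ZD_degree hM)]
  have hmem : (fun i : Fin r => (((i : ℕ) * h : ℕ) : ZMod p)) ∈ Fintype.piFinset (ZD_A p r h) := by
    rw [Fintype.mem_piFinset]
    intro i
    unfold ZD_A
    refine mem_image_of_mem _ ?_
    rw [mem_range]
    have h4 : (i : ℕ) ≤ r - 1 := by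
      have := i.2
      omega
    have h5 : (i : ℕ) * h ≤ (r - 1) * h := Nat.mul_le_mul_right h h4
    omega
  rw [Finset.sum_eq_single (fun i : Fin r => (((i : ℕ) * h : ℕ) : ZMod p))]
  · refine div_ne_zero ?_ ?_
    · rw [ZD_eval_ne]
      intro i j hij hm
      simp only [ZD_B, mem_image, mem_Ico] at hm
      obtain ⟨s, hs, hs2⟩ := hm
      have h6 : ((s : ℤ) : ZMod p) ≠ (((j : ℕ) : ℤ) * h - ((i : ℕ) : ℤ) * h : ℤ) := by
        have hij' : ((i : ℕ) : ℤ) + 1 ≤ ((j : ℕ) : ℤ) := by exact_mod_cast hij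
        have hj : ((j : ℕ) : ℤ) ≤ (r : ℤ) - 1 := by
          have := j.2
          omega
        have hi : (0 : ℤ) ≤ ((i : ℕ) : ℤ) := Int.natCast_nonneg _
        have hh' : (0 : ℤ) ≤ (h : ℤ) := Int.natCast_nonneg _
        have e1 : (h : ℤ) ≤ (((j : ℕ) : ℤ) - ((i : ℕ) : ℤ)) * h := by nlinarith
        have e2 : (((j : ℕ) : ℤ) - ((i : ℕ) : ℤ)) * h ≤ ((r : ℤ) - 1) * h := by nlinarith
        have e3 : ((r : ℤ)) * h < p := by exact_mod_cast hrh
        refine ZD_cast_ne ?_ ?_
        · rw [abs_lt]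
          constructor <;> nlinarith
        · nlinarith
      apply h6
      rw [hs2]
      push_cast
      ring
    · rw [prod_ne_zero_iff]
      intro i _
      rw [prod_ne_zero_iff]
      intro b hb
      rw [mem_erase] at hb
      exact sub_ne_zero.2 hb.1.symm
  · intro α hα hne
    have h0 : MvPolynomial.eval α (ZD_F (fun _ _ : Fin r => ZD_B p h)) = 0 := by
      by_contra h0
      apply hne
      rw [← ne_eq, ZD_eval_ne] at h0
      have h7 : ∀ i, ∃ a : ℕ, a ≤ (r - 1) * h ∧ (a : ZMod p) = α i := by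
        intro i
        have := (Fintype.mem_piFinset.1 hα) i
        unfold ZD_A at this
        rw [mem_image] at this
        obtain ⟨a, ha, ha2⟩ := this
        rw [mem_range] at ha
        exact ⟨a, by omega, ha2⟩
      choose a ha ha2 using h7
      have hr1 : (((r - 1 : ℕ) : ℤ)) = (r : ℤ) - 1 := by omega
      have h8 := spacing r h hh (fun i => (a i : ℤ)) (fun i => Int.natCast_nonneg _)
        (fun i => by
          have := ha i
          rw [← hr1]
          exact_mod_cast this)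
        (fun i j hij => by
          by_contra hc
          push Not at hc
          refine h0 i j hij ?_
          unfold ZD_B
          rw [mem_image]
          refine ⟨(a j : ℤ) - a i, mem_Ico.2 ⟨hc.2, hc.1⟩, ?_⟩
          push_cast
          rw [ha2, ha2])
      funext i
      rw [← ha2 i]
      have h9 := h8 i
      have h10 : a i = (i : ℕ) * h := by exact_mod_cast h9
      rw [h10]
    rw [h0, zero_div]
  · intro h0
    exact absurd hmem h0

theorem zp (p : ℕ) (hp : p.Prime) (r h : ℕ) (hrh : r * h < p) (L : Fin r → Fin r → Finset (ZMod p))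
    (hL : ∀ i j, i < j → (L i j).card ≤ 2 * h) : ∃ x : Fin r → ZMod p, ∀ i j, i < j → x j - x i ∉ L i j := by
  have : Fact p.Prime := ⟨hp⟩
  rcases Nat.lt_or_ge r 2 with hr | hr
  · refine ⟨fun _ => 0, fun i j hij => ?_⟩
    have h1 := i.2
    have h2 := j.2
    have h3 : (i : ℕ) < (j : ℕ) := hij
    omega
  rcases Nat.eq_zero_or_pos h with h0 | hh
  · refine ⟨fun _ => 0, fun i j hij hm => ?_⟩
    have h1 := hL i j hij
    rw [h0, mul_zero, Nat.le_zero, card_eq_zero] at h1
    rw [h1] at hm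
    simp at hm
  have h2 : 2 * h ≤ r * h := Nat.mul_le_mul_right h hr
  have hex : ∀ i j : Fin r, ∃ T : Finset (ZMod p), i < j → L i j ⊆ T ∧ T.card = 2 * h := by
    intro i j
    by_cases hij : i < j
    · obtain ⟨T, hT1, hT2⟩ := Finset.exists_superset_card_eq (hL i j hij) (by rw [ZMod.card]; omega)
      exact ⟨T, fun _ => ⟨hT1, hT2⟩⟩
    · exact ⟨∅, fun h => absurd h hij⟩
  choose M hM using hex
  have hMc : ∀ i j, i < j → (M i j).card = 2 * h := fun i j hij => (hM i j hij).2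
  have hBc : ∀ i j : Fin r, i < j → ((fun _ _ : Fin r => ZD_B p h) i j).card = 2 * h :=
    fun _ _ _ => ZD_B_card (by omega)
  have h3 : (r - 1) * h ≤ r * h := Nat.mul_le_mul_right h (Nat.sub_le r 1)
  have h4 := ZD_coeff_B (p := p) hr hh hrh
  rw [ZD_coeff hBc, ← ZD_coeff hMc,
    coeff_formula (ZD_A p r h) (fun _ => (r - 1) * h) (fun i => ZD_A_card (by omega) i) _ (ZD_degree hMc)] at h4
  obtain ⟨x, -, hx⟩ := Finset.exists_ne_zero_of_sum_ne_zero h4
  refine ⟨x, fun i j hij hm => ?_⟩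
  have h5 : MvPolynomial.eval x (ZD_F M) ≠ 0 := fun h => hx (by rw [h, zero_div])
  exact (ZD_eval_ne M x).1 h5 i j hij ((hM i j hij).1 hm)

end H86LP
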