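import Pool.Agent.H86.LP.ZD

/-!
# ZE: cliques on a circle of length `Q`

For `i < k` let `Fik = {⌊e p/Q⌋ : e ∈ E i k}`, a subset of `{0, .., p-1}` (natural number division `e * p / Q`). At most `Q/p + 1` (real division) numbers `e` have the same `⌊e p/Q⌋`, so
`|Fik| ≥ (1 - 2/r + ε) Q/(Q/p + 1) = (1 - 2/r + ε) p/(1 + p/Q) ≥ (1 - 2/r + ε)(1 - p/Q) p ≥ (1 - 2/r + 3ε/4) p` (`1 - 2/r + ε ≤ 1` because `|E i k| ≤ Q`, `p/Q ≤ ε/4`).
With `h = (p - 1)/r` (natural division): `r h ≤ p - 1 < p` and `2h ≥ 2(p - r)/r = 2p/r - 2 ≥ (2/r - 3ε/4) p ≥ |complement of Fik|` since `3 ε p/4 ≥ 3`.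
`zp` gives `x : Fin r → ZMod p` with `x k - x i ∈ Fik`. Put `g i = (x i).val * Q / p` (natural division), `< Q`. Let `u = (x k - x i).val ∈ Fik`, `e ∈ E i k` with `⌊e p/Q⌋ = u`: `u Q/p ≤ e < (u+1) Q/p`.
If `(x i).val ≤ (x k).val` then `u = (x k).val - (x i).val` and `|g k - g i - u Q/p| ≤ 1`, so `|g k - g i - e| ≤ Q/p + 1` (real) `≤ ⌊Q/p⌋ + 2`. Otherwise `u = (x k).val - (x i).val + p` and the same with `e - Q`.
-/

set_option autoImplicit false

open Finset

namespace H86LP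

theorem ZE_fib (p Q : ℕ) (hp : 0 < p) (hQ : 0 < Q) (E : Finset ℕ) (u : ℕ) :
    (E.filter fun e => e * p / Q = u).card ≤ Q / p + 1 := by
  rcases (E.filter fun e => e * p / Q = u).eq_empty_or_nonempty with h | h
  · rw [h, card_empty]; exact Nat.zero_le _
  · obtain ⟨e0, he0, hmin⟩ := exists_min_image _ (fun e : ℕ => e) h
    have hsub : (E.filter fun e => e * p / Q = u) ⊆ Icc e0 (e0 + Q / p) := by
      intro e he
      rw [mem_Icc]
      have h1 : e0 ≤ e := hmin e he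
      refine ⟨h1, ?_⟩
      rw [mem_filter] at he he0
      have a1 : e * p < (u + 1) * Q := by
        rw [← he.2]
        exact (Nat.div_lt_iff_lt_mul hQ).1 (Nat.lt_succ_self _)
      have a2 : u * Q ≤ e0 * p := by
        rw [← he0.2]
        exact Nat.div_mul_le_self _ _
      have a3 : (e - e0) * p < Q := by
        rw [Nat.sub_mul]
        have : (u + 1) * Q = u * Q + Q := by ring
        omega
      have a4 : e - e0 ≤ Q / p := (Nat.le_div_iff_mul_le hp).2 a3.le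
      omega
    have h2 := card_le_card hsub
    rw [Nat.card_Icc] at h2
    generalize Q / p = N at h2 ⊢
    omega

theorem ZE_int (p Q a b u e gk gi : ℕ) (hp : 0 < p) (hQ : 0 < Q) (hgk : gk = a * Q / p)
    (hgi : gi = b * Q / p) (hu : u = e * p / Q) (s : ℤ) (hs : (a : ℤ) = b + u - s * p) :
    |(gk : ℤ) - gi - e + s * Q| ≤ (Q / p : ℕ) + 3 := by
  have k1 : p * gk ≤ a * Q := by rw [hgk]; exact Nat.mul_div_le _ _
  have k2 : a * Q < p * (gk + 1) := by
    rw [hgk, mul_comm p]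
    exact (Nat.div_lt_iff_lt_mul hp).1 (Nat.lt_succ_self _)
  have i1 : p * gi ≤ b * Q := by rw [hgi]; exact Nat.mul_div_le _ _
  have i2 : b * Q < p * (gi + 1) := by
    rw [hgi, mul_comm p]
    exact (Nat.div_lt_iff_lt_mul hp).1 (Nat.lt_succ_self _)
  have u1 : Q * u ≤ e * p := by rw [hu]; exact Nat.mul_div_le _ _
  have u2 : e * p < Q * (u + 1) := by
    rw [hu, mul_comm Q]
    exact (Nat.div_lt_iff_lt_mul hQ).1 (Nat.lt_succ_self _)
  have q2 : Q < p * (Q / p + 1) := by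
    rw [mul_comm p]
    exact (Nat.div_lt_iff_lt_mul hp).1 (Nat.lt_succ_self _)
  have hp' : (0 : ℤ) < p := by exact_mod_cast hp
  have k1' : (p : ℤ) * gk ≤ a * Q := by exact_mod_cast k1
  have k2' : (a : ℤ) * Q < p * (gk + 1) := by exact_mod_cast k2
  have i1' : (p : ℤ) * gi ≤ b * Q := by exact_mod_cast i1
  have i2' : (b : ℤ) * Q < p * (gi + 1) := by exact_mod_cast i2
  have u1' : (Q : ℤ) * u ≤ e * p := by exact_mod_cast u1
  have u2' : (e : ℤ) * p < Q * (u + 1) := by exact_mod_cast u2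
  have q2' : (Q : ℤ) < p * ((Q / p : ℕ) + 1) := by exact_mod_cast q2
  rw [hs] at k1' k2'
  obtain ⟨N, hN⟩ : ∃ N : ℤ, N = ((Q / p : ℕ) : ℤ) := ⟨_, rfl⟩
  have hN0 : 0 ≤ N := by rw [hN]; exact Int.natCast_nonneg _
  rw [← hN] at q2' ⊢
  obtain ⟨t, ht⟩ : ∃ t : ℤ, t = (gk : ℤ) - gi - e + s * Q := ⟨_, rfl⟩
  rw [← ht]
  have t1 : (p : ℤ) * t < p := by rw [ht]; nlinarith
  have t2 : (p : ℤ) * (-t) < p * (N + 2) := by rw [ht]; nlinarith
  have t3 : t < 1 := by nlinarith
  have t4 : -t < N + 2 := lt_of_mul_lt_mul_left t2 hp'.le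
  rw [abs_le]
  constructor <;> linarith

theorem circle (r : ℕ) (hr : 2 ≤ r) (ε : ℝ) (hε : 0 < ε) (p : ℕ) (hp : p.Prime) (hp1 : 4 ≤ ε * p) (Q : ℕ) (hQ : 4 * (p : ℝ) ≤ ε * Q)
    (E : Fin r → Fin r → Finset ℕ) (hE : ∀ i k, i < k → E i k ⊆ range Q)
    (hE1 : ∀ i k, i < k → (1 - 2 / (r : ℝ) + ε) * Q ≤ ((E i k).card : ℝ)) :
    ∃ g : Fin r → ℕ, ∀ i k, i < k → ∃ e ∈ E i k, ∃ t : ℤ, |t| ≤ (Q / p : ℕ) + 3 ∧
      ((g k : ℤ) - g i = e + t ∨ (g k : ℤ) - g i = e - Q + t) := by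
  have hp0 : 0 < p := hp.pos
  have hpR : (0 : ℝ) < p := by exact_mod_cast hp0
  have hQR : (0 : ℝ) < Q := by
    by_contra h
    have : (Q : ℝ) ≤ 0 := not_lt.1 h
    nlinarith
  have hQ0 : 0 < Q := by exact_mod_cast hQR
  have hrR : (2 : ℝ) ≤ r := by exact_mod_cast hr
  have : NeZero p := ⟨hp0.ne'⟩
  have : Fact p.Prime := ⟨hp⟩
  -- the sets in `ZMod p`
  obtain ⟨φ, hφ⟩ : ∃ φ : ℕ → ZMod p, φ = fun e => ((e * p / Q : ℕ) : ZMod p) := ⟨_, rfl⟩
  have hlt : ∀ e, e < Q → e * p / Q < p := by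
    intro e he
    rw [Nat.div_lt_iff_lt_mul hQ0, mul_comm p]
    exact Nat.mul_lt_mul_of_pos_right he hp0
  have hcard : ∀ i k, i < k → (E i k).card ≤ ((E i k).image φ).card * (Q / p + 1) := by
    intro i k hik
    have h1 : (E i k).card = ∑ b ∈ (E i k).image φ, ((E i k).filter fun a => φ a = b).card :=
      card_eq_sum_card_image φ (E i k)
    rw [h1]
    refine (sum_le_card_nsmul _ _ (Q / p + 1) ?_).trans (by rw [smul_eq_mul])
    intro b hb
    rw [mem_image] at hb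
    obtain ⟨e1, he1, rfl⟩ := hb
    have h2 : ((E i k).filter fun a => φ a = φ e1) ⊆ ((E i k).filter fun a => a * p / Q = e1 * p / Q) := by
      intro a ha
      rw [mem_filter] at ha ⊢
      refine ⟨ha.1, ?_⟩
      have h3 := ha.2
      rw [hφ] at h3
      have h4 := (ZMod.natCast_eq_natCast_iff' _ _ _).1 h3
      rw [Nat.mod_eq_of_lt (hlt a (mem_range.1 (hE i k hik ha.1))),
        Nat.mod_eq_of_lt (hlt e1 (mem_range.1 (hE i k hik he1)))] at h4
      exact h4
    exact (card_le_card h2).trans (ZE_fib p Q hp0 hQ0 _ _)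
  have hL : ∀ i k, i < k → (univ \ (E i k).image φ).card ≤ 2 * ((p - 1) / r) := by
    intro i k hik
    have h1 := hcard i k hik
    have h2 := hE1 i k hik
    have h3 : (E i k).card ≤ Q := by
      have := card_le_card (hE i k hik)
      rwa [card_range] at this
    have h3R : ((E i k).card : ℝ) ≤ Q := by exact_mod_cast h3
    obtain ⟨c, hc⟩ : ∃ c : ℝ, c = 1 - 2 / (r : ℝ) + ε := ⟨_, rfl⟩
    have hc1 : c ≤ 1 := by
      rw [← hc] at h2
      by_contra hcon
      have : 1 < c := not_le.1 hcon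
      nlinarith
    have hr2 : 2 / (r : ℝ) ≤ 1 := by
      rw [div_le_one (by linarith)]; exact hrR
    have hc0 : 0 ≤ c := by rw [hc]; linarith
    obtain ⟨f, hf⟩ : ∃ f : ℝ, f = (((E i k).image φ).card : ℝ) := ⟨_, rfl⟩
    have hf0 : 0 ≤ f := by rw [hf]; exact Nat.cast_nonneg _
    have h4 : c * Q ≤ f * (Q / p + 1) := by
      have h5 : ((E i k).card : ℝ) ≤ f * (((Q / p : ℕ) : ℝ) + 1) := by
        rw [hf]; exact_mod_cast h1
      have h6 : ((Q / p : ℕ) : ℝ) ≤ (Q : ℝ) / p := Nat.cast_div_le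
      rw [← hc] at h2
      refine h2.trans (h5.trans ?_)
      exact mul_le_mul_of_nonneg_left (by linarith) hf0
    -- `f (Q + p) ≥ c p Q`
    have h7 : c * p * Q ≤ f * (Q + p) := by
      have h8 : f * (Q / p + 1) * p = f * (Q + p) := by
        field_simp
      have h9 : c * Q * p ≤ f * (Q / p + 1) * p := mul_le_mul_of_nonneg_right h4 hpR.le
      rw [h8] at h9
      linarith
    -- `f ≥ c p (1 - p/Q)`
    have h10 : c * p * (1 - ε / 4) ≤ f := by
      by_contra hcon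
      have hcon' : f < c * p * (1 - ε / 4) := not_le.1 hcon
      have h11 : f * (Q + p) < c * p * (1 - ε / 4) * (Q + p) :=
        mul_lt_mul_of_pos_right hcon' (by linarith)
      have h12 : (1 - ε / 4) * (Q + p) ≤ Q := by nlinarith
      have h13 : c * p * ((1 - ε / 4) * (Q + p)) ≤ c * p * Q :=
        mul_le_mul_of_nonneg_left h12 (by positivity)
      nlinarith
    have h14 : (1 - 2 / (r : ℝ) + 3 * ε / 4) * p ≤ f := by
      refine le_trans ?_ h10
      have h15 : c * p * (1 - ε / 4) = (c - c * (ε / 4)) * p := by ring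
      rw [h15]
      apply mul_le_mul_of_nonneg_right _ hpR.le
      have h16 : c * (ε / 4) ≤ ε / 4 := by nlinarith
      rw [hc] at h16 ⊢
      linarith
    have h17 : (univ \ (E i k).image φ).card + ((E i k).image φ).card = p := by
      have := card_sdiff_add_card_eq_card (subset_univ ((E i k).image φ))
      rw [this, card_univ, ZMod.card]
    have h18 : ((univ \ (E i k).image φ).card : ℝ) + f = p := by
      rw [hf]; exact_mod_cast h17
    have h19 : ((univ \ (E i k).image φ).card : ℝ) ≤ 2 / r * p - 3 := by nlinarith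
    -- `2 h ≥ 2 p / r - 2`
    have h20 : (p : ℝ) / r - 1 ≤ (((p - 1) / r : ℕ) : ℝ) := by
      have h21 : p - 1 < r * ((p - 1) / r + 1) := by
        rw [mul_comm r]
        exact (Nat.div_lt_iff_lt_mul (by omega)).1 (Nat.lt_succ_self _)
      have h22 : p ≤ r * ((p - 1) / r + 1) := by omega
      have h23 : (p : ℝ) ≤ r * ((((p - 1) / r : ℕ) : ℝ) + 1) := by exact_mod_cast h22
      rw [sub_le_iff_le_add, div_le_iff₀ (by linarith), mul_comm _ (r : ℝ)]
      exact h23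
    have h24 : ((univ \ (E i k).image φ).card : ℝ) ≤ 2 * (((p - 1) / r : ℕ) : ℝ) := by
      have : 2 / (r : ℝ) * p = 2 * ((p : ℝ) / r) := by ring
      linarith
    exact_mod_cast h24
  have hrh : r * ((p - 1) / r) < p := by
    have := Nat.mul_div_le (p - 1) r
    omega
  obtain ⟨x, hx⟩ := zp p hp r ((p - 1) / r) hrh (fun i k => univ \ (E i k).image φ) hL
  refine ⟨fun i => (x i).val * Q / p, ?_⟩
  intro i k hik
  have h1 := hx i k hik
  simp only [mem_sdiff, mem_univ, true_and, not_not, mem_image] at h1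
  obtain ⟨e, he, hex⟩ := h1
  refine ⟨e, he, ?_⟩
  have heQ : e * p / Q < p := hlt e (mem_range.1 (hE i k hik he))
  obtain ⟨u, hu⟩ : ∃ u : ℕ, u = e * p / Q := ⟨_, rfl⟩
  have hux : (u : ZMod p) = x k - x i := by
    rw [← hex, hφ, hu]
  have ha : (((x k).val : ℕ) : ZMod p) = (((x i).val + u : ℕ) : ZMod p) := by
    rw [Nat.cast_add, hux, ZMod.natCast_zmod_val, ZMod.natCast_zmod_val]
    ring
  have hmod := (ZMod.natCast_eq_natCast_iff' _ _ _).1 ha
  have hxk : (x k).val < p := ZMod.val_lt _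
  have hxi : (x i).val < p := ZMod.val_lt _
  rw [Nat.mod_eq_of_lt hxk] at hmod
  rw [← hu] at heQ
  by_cases hc : (x i).val + u < p
  · rw [Nat.mod_eq_of_lt hc] at hmod
    refine ⟨((((x k).val * Q / p : ℕ) : ℤ) - ((x i).val * Q / p : ℕ)) - e, ?_, Or.inl (by ring)⟩
    have h5 := ZE_int p Q (x k).val (x i).val u e _ _ hp0 hQ0 rfl rfl hu 0 (by
      rw [hmod]; push_cast; ring)
    rw [zero_mul, add_zero] at h5
    exact h5
  · have h6 : ((x i).val + u) % p = (x i).val + u - p := by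
      rw [Nat.mod_eq_sub_mod (by omega), Nat.mod_eq_of_lt (by omega)]
    rw [h6] at hmod
    refine ⟨((((x k).val * Q / p : ℕ) : ℤ) - ((x i).val * Q / p : ℕ)) - e + 1 * Q, ?_, Or.inr (by ring)⟩
    exact ZE_int p Q (x k).val (x i).val u e _ _ hp0 hQ0 rfl rfl hu 1 (by
      rw [hmod, Nat.cast_sub (by omega)]; push_cast; ring)

end H86LP
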